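import Pool.Agent.H240.QX.Core3

/-!
# Exceptional sets with respect to finitely many test functions: almost every parameter
-/

set_option autoImplicit false

open Set Filter Topology MeasureTheory
open scoped Real ContDiff

noncomputable section

namespace Pool.Agent.H240.QX

open Pool.Agent.Y262.QE Pool.Agent.Y264.QR

section

variable {M : Type} [MetricSpace M] [CompactSpace M] [MeasurableSpace M] [BorelSpace M]
  {μ : Measure M} [IsFiniteMeasure μ] {h : C(M, ℝ)} {L : ℝ}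
  {H : Type} [NormedAddCommGroup H] [InnerProductSpace ℝ H] {i : H →L[ℝ] Lp ℝ 2 μ}
  {a : H →L[ℝ] H →L[ℝ] ℝ} {p : H → ℕ → ℝ → ℝ}

/-- lower density at least `1 - δ` along a sequence -/
def UD (S : Set ℕ) (δ : ℝ) : Prop :=
  ∃ᶠ K : ℕ in atTop, (1 - δ) * K ≤ ((S ∩ Iio K).ncard : ℝ)

theorem core4 [CompleteSpace H] (hL : 0 < L) (hCy : Cy μ (h : M → ℝ) L i a p)
    (b : C(M, ℝ) → H →L[ℝ] H →L[ℝ] ℝ) (hB : IsB μ i b)
    (h0 : ∀ x, 0 ≤ h x) (hpos : 0 < ∫ x, h x ∂μ) :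
    ∀ᵐ s : ℝ, ∀ (C : ℕ) (δ : ℝ), 0 < δ → ∃ (G : Finset C(M, ℝ)) (ε : ℝ), 0 < ε ∧
      ∀ (e : ℕ → H) (E : ℕ → ℝ), Eg a (b (s • h)) e E →
        UD (ScalesX (Exc μ i (s • h) G ε e) E C) δ := by
  classical
  have hSf : Sf μ i a := sf_of_cy hL hCy
  obtain ⟨b0, hB0, hF, hA, hexp, hk⟩ := tFm M μ H i a hSf
  have hbb : b0 = b := by
    funext ψ
    ext u v
    rw [hB0, hB]
  subst hbb
  have hkb : ∀ (f φ : C(M, ℝ)) (v : H), |kap μ i f φ v| ≤ ‖f‖ * b0 φ v v := by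
    intro f φ v
    obtain ⟨k, -, k1, -⟩ := hk f
    have h1 := k1 φ v
    rw [← h1.1]
    exact h1.2
  obtain ⟨k, ksym, k1, k2⟩ := hk h
  obtain ⟨l1, l2, l3, -, l5⟩ := tLip M μ H a b0 hF hexp
  -- the forms as functions of the parameter
  have hmono : ∀ (s t : ℝ), s ≤ t → ∀ v, b0 (s • h) v v ≤ b0 (t • h) v v := by
    intro s t hst v
    have h1 := k2 (s • h) v (t - s)
    have e1 : s • h + (t - s) • h = t • h := by rw [← add_smul]; congr 1; ring
    rw [e1] at h1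
    have h2 : 0 ≤ k (s • h) v v := by
      rw [(k1 _ _).1]
      exact integral_nonneg fun x => mul_nonneg (h0 x) (mul_nonneg (Real.exp_pos _).le (sq_nonneg _))
    nlinarith
  have E1 : ∀ (j : ℕ) (s t : ℝ), s ≤ t → Ev a (b0 (t • h)) j ≤ Ev a (b0 (s • h)) j :=
    fun j s t hst => by
      have h1 := (Pool.Agent.Y592.QE.mon H a (b0 (s • h)) (b0 (t • h)) (hF _) (hF _) 1 one_pos
        (fun v => by rw [one_mul]; exact hmono s t hst v) j).2
      rwa [one_mul] at h1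
  have hLp : ∀ (j : ℕ) (s t : ℝ), Ev a (b0 (s • h)) j ≤
      Real.exp (‖h‖ * |s - t|) * Ev a (b0 (t • h)) j := by
    intro j s t
    have h1 := l3 (s • h) (t • h) j
    have e1 : ‖(s • h) - (t • h)‖ = ‖h‖ * |s - t| := by
      rw [← sub_smul, norm_smul, Real.norm_eq_abs, mul_comm]
    rw [e1] at h1
    exact h1
  have E2 : ∀ (j : ℕ) (s t : ℝ), s ≤ t →
      Ev a (b0 (s • h)) j ≤ Real.exp (‖h‖ * (t - s)) * Ev a (b0 (t • h)) j := fun j s t hst => by
    have h1 := hLp j s t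
    rwa [abs_sub_comm, abs_of_nonneg (by linarith)] at h1
  -- the Weyl bound
  have E3 : ∀ R : ℝ, ∃ C : ℝ, ∀ s, |s| ≤ R → ∀ (j : ℕ) (lam : ℝ), 1 ≤ lam →
      Ev a (b0 (s • h)) j ≤ lam → (j + 1 : ℝ) ≤ C * lam := by
    intro R
    obtain ⟨C, hC⟩ := hSf.wy
    set X : ℝ := Real.exp (R * ‖h‖) with hX
    by_cases hR : 0 ≤ R
    swap
    · exact ⟨0, fun s hs => absurd ((abs_nonneg s).trans hs) hR⟩
    have hX1 : 1 ≤ X := by
      rw [hX]
      exact Real.one_le_exp (mul_nonneg hR (norm_nonneg _))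
    have hX0 : 0 < X := by linarith
    refine ⟨2 * (|C| * X), fun s hs j lam h1 h2 => ?_⟩
    refine Pool.Agent.Y592.QE.cnt H a (b0 (s • h)) (hF _) (|C| * X) ?_ j lam h1 h2
    intro ε hε hε1
    obtain ⟨N, l, hN, hl⟩ := hC (ε / X) (by positivity) (by
      rw [div_le_one hX0]
      linarith)
    refine ⟨N, fun n => Real.sqrt X • l n, ?_, fun v => ?_⟩
    · refine hN.trans ?_
      rw [div_div_eq_mul_div]
      exact div_le_div_of_nonneg_right (mul_le_mul_of_nonneg_right (le_abs_self C) hX0.le) hε.le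
    · have h3 : b0 (s • h) v v ≤ X * ‖i v‖ ^ 2 := by
        have h4 := hexp (s • h) 0 v
        have h5 : b0 0 v v = ‖i v‖ ^ 2 := by
          rw [hB0, ← real_inner_self_eq_norm_sq, L2.inner_def]
          refine integral_congr_ae (Eventually.of_forall fun x => ?_)
          simp [ContinuousMap.zero_apply, Real.exp_zero, sq]
        rw [h5, sub_zero, norm_smul, Real.norm_eq_abs] at h4
        refine h4.trans (mul_le_mul_of_nonneg_right ?_ (sq_nonneg _))
        exact Real.exp_le_exp.2 (mul_le_mul_of_nonneg_right hs (norm_nonneg _))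
      have h6 := hl v
      have h7 : ∑ n, ((Real.sqrt X • l n) v) ^ 2 = X * ∑ n, (l n v) ^ 2 := by
        rw [Finset.mul_sum]
        refine Finset.sum_congr rfl fun n _ => ?_
        rw [smul_apply, smul_eq_mul, mul_pow, Real.sq_sqrt hX0.le]
      rw [h7]
      calc b0 (s • h) v v ≤ X * ‖i v‖ ^ 2 := h3
        _ ≤ X * (ε / X * a v v + ∑ n, (l n v) ^ 2) := mul_le_mul_of_nonneg_left h6 hX0.le
        _ = ε * a v v + X * ∑ n, (l n v) ^ 2 := by
          field_simp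
  -- test functions
  set G : ℕ → Finset C(M, ℝ) := fun l => insert h
    ((Finset.range (l + 1)).image (TopologicalSpace.denseSeq C(M, ℝ))) with hGd
  have hG : ∀ f : C(M, ℝ), ∀ ε : ℝ, 0 < ε → ∃ l0, ∀ l, l0 ≤ l → ∃ g ∈ G l, ‖f - g‖ < ε := by
    intro f ε hε
    obtain ⟨g, hg1, l0, rfl⟩ := Metric.dense_iff.1 (TopologicalSpace.denseRange_denseSeq C(M, ℝ))
      f ε hε
    refine ⟨l0, fun l hl => ⟨_, Finset.mem_insert_of_mem (Finset.mem_image.2 ⟨l0,
      Finset.mem_range.2 (by omega), rfl⟩), ?_⟩⟩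
    rw [Metric.mem_ball, dist_comm, dist_eq_norm] at hg1
    exact hg1
  -- a choice of the systems of eigenvectors
  set Bad : ℕ → ℕ → ℕ → ℝ → (ℕ → H) × (ℕ → ℝ) → Prop := fun C n l s x =>
    Eg a (b0 (s • h)) x.1 x.2 ∧
      ¬ UD (ScalesX (Exc μ i (s • h) (G l) (1 / ((l : ℝ) + 1)) x.1) x.2 C) (1 / ((n : ℝ) + 1))
    with hBad
  have hsel : ∀ (C n l : ℕ) (s : ℝ), ∃ x : (ℕ → H) × (ℕ → ℝ), Eg a (b0 (s • h)) x.1 x.2 ∧
      ((∃ y, Bad C n l s y) → Bad C n l s x) := by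
    intro C n l s
    by_cases hb : ∃ y, Bad C n l s y
    · obtain ⟨y, hy⟩ := hb
      exact ⟨y, hy.1, fun _ => hy⟩
    · obtain ⟨e, E, hE⟩ := tSp H a (b0 (s • h)) (hF _)
      exact ⟨(e, E), hE, fun h => absurd h hb⟩
  choose x hx hxb using hsel
  have hmm : ∀ C n l s j, Ev a (b0 (s • h)) j = (x C n l s).2 j := fun C n l s j =>
    Pool.Agent.Y592.QE.mm H a (b0 (s • h)) (hF _) (x C n l s).1 (x C n l s).2 (hx C n l s) j
  have c1 : ∀ᵐ t : ℝ, ∀ C n l j, HasDerivAt (fun s : ℝ => Ev a (b0 (s • h)) j)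
      (-(kap μ i h (t • h) ((x C n l t).1 j) * Ev a (b0 (t • h)) j)) t := by
    rw [ae_all_iff]
    intro C
    rw [ae_all_iff]
    intro n
    rw [ae_all_iff]
    intro l
    refine Pool.Agent.Y147.QR.stAE (fun j t => Ev a (b0 (t • h)) j)
      (fun j t => kap μ i h (t • h) ((x C n l t).1 j)) ‖h‖ (fun j t => l1 _ _)
      (fun i' j t hij => l2 _ _ _ hij) hLp ?_
    intro i' j t hij hl ε hε
    have hij' : (x C n l t).2 i' = (x C n l t).2 j := by
      rw [← hmm, ← hmm]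
      exact hij
    have hl' : ∀ m, m < i' → (x C n l t).2 m < (x C n l t).2 i' := by
      intro m hm
      rw [← hmm, ← hmm]
      exact hl m hm
    obtain ⟨δ, hδ, h1⟩ := tDer0 H a (b0 (t • h)) (hF _) (x C n l t).1 (x C n l t).2 (hx C n l t)
      (k (t • h)) ‖h‖ (ksym _) (fun v => (k1 _ v).2) i' j hij' hl' ε hε
    refine ⟨δ, hδ, fun τ hτ => ?_⟩
    have h2 := h1 τ hτ (b0 ((t + τ) • h)) (by
      intro v
      have h3 := k2 (t • h) v τ
      have e1 : t • h + τ • h = (t + τ) • h := by rw [add_smul]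
      rw [e1] at h3
      exact h3)
    rw [(k1 _ _).1, ← hmm] at h2
    exact h2
  have c2 := meas2 (fun j s => Ev a (b0 (s • h)) j) ‖h‖ (fun j s => l1 _ _) E1 E2 E3
  filter_upwards [c1, c2] with s hs1 hs2
  intro C δ hδ
  obtain ⟨n, hn⟩ := exists_nat_one_div_lt hδ
  by_contra hcon
  push Not at hcon
  have hbad : ∀ l, Bad C n l s (x C n l s) := by
    intro l
    obtain ⟨e, E, hE, hud⟩ := hcon (G l) (1 / ((l : ℝ) + 1)) (by positivity)
    refine hxb C n l s ⟨(e, E), hE, fun h9 => hud ?_⟩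
    refine Frequently.mono h9 fun K hK => le_trans ?_ hK
    have : (0 : ℝ) ≤ K := Nat.cast_nonneg K
    nlinarith
  obtain ⟨N, r, hNr⟩ := det3 hL hCy b0 hB0 hF hkb h0 hpos s C (1 / ((n : ℝ) + 1)) (by positivity)
    G (fun l => Finset.mem_insert_self _ _) hG
  obtain ⟨D, hD⟩ := hs2 N r
  have hEE : ∀ l, (x C n l s).2 = fun j => Ev a (b0 (s • h)) j := fun l => by
    funext j
    rw [hmm C n l s j]
  obtain ⟨l, hl⟩ := hNr D hD (fun l => (x C n l s).1) (fun j => Ev a (b0 (s • h)) j)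
    (fun l => by
      have := hx C n l s
      rwa [hEE l] at this) (fun j => rfl) (fun l j => hs1 C n l j)
  refine (hbad l).2 ?_
  rw [hEE l]
  exact hl

end

end Pool.Agent.H240.QX
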