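import Pool.Agent.H240.QX.Surf
import Pool.Agent.H240.QX.Core4

/-!
# Exceptional sets of eigenfunctions with respect to finitely many test functions
-/

set_option autoImplicit false

open Set Filter Topology MeasureTheory
open scoped Real ContDiff

noncomputable section

namespace Pool.Agent.H240.QX

open Pool.Agent.Y262.QE Pool.Agent.Y264.QR Pool.Agent.Y986.QE

/-- the indices of the functions for which the mass of one of the functions in `G` deviates from the
mean value by at least `ε` -/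
def ExcU {M : Type} [TopologicalSpace M] [MeasurableSpace M] (ν : Measure M) (G : Finset C(M, ℝ))
    (ε : ℝ) (u : ℕ → M → ℝ) : Set ℕ :=
  {j | ∃ f ∈ G, ε ≤ |(∫ x, f x * (u j x) ^ 2 ∂ν) - (∫ x, f x ∂ν) / ν.real univ|}

section

variable {M : Type} [MetricSpace M] [CompactSpace M] [MeasurableSpace M] [BorelSpace M]

theorem surf2 (μ : Measure M) (D : Data M) (hD : D.IsSurf μ) (L : ℝ) (Φ : ℂ → M) (σ : M → M)
    (hc : D.IsCyl μ L Φ σ) (h : M → ℝ) (hh : Continuous h) (h0 : ∀ x, 0 ≤ h x)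
    (hσ : ∀ x, h (σ x) = h x) (hz : ∀ z ∈ Strip L, h (Φ z) = 0) (hne : ∃ x, h x ≠ 0) :
    ∀ᵐ s : ℝ, ∀ (C : ℕ) (δ : ℝ), 0 < δ → ∃ (G : Finset C(M, ℝ)) (ε : ℝ), 0 < ε ∧
      ∀ (u : ℕ → M → ℝ) (lam : ℕ → ℝ),
      SymBasis (D.conf fun x => Real.exp (s * h x)) (wm μ fun x => Real.exp (s * h x)) σ u lam →
      UD (ScalesX (ExcU (wm μ fun x => Real.exp (s * h x)) G ε u) lam C) δ := by
  obtain ⟨hfin, hpos⟩ := tFin M μ D hD
  have hM : Nonempty M := by obtain ⟨x, _⟩ := hne; exact ⟨x⟩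
  obtain ⟨iS, aS, p, hCy, hiS, haS⟩ := tPack M μ D hD L Φ σ hc h hh hz
  obtain ⟨iF, aF, hSf, hiF, haF⟩ := tPackF M μ D hD hM
  have hint0 : 0 < ∫ x, h x ∂μ := by
    have hint : Integrable h μ :=
      hh.integrable_of_hasCompactSupport (HasCompactSupport.of_compactSpace h)
    rw [integral_pos_iff_support_of_nonneg h0 hint]
    exact hpos _ hh.isOpen_support (by obtain ⟨x, hx⟩ := hne; exact ⟨x, hx⟩)
  have : CompleteSpace (HS D μ σ) :=
    (Submodule.isClosed_topologicalClosure _).completeSpace_coe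
  set hC : C(M, ℝ) := ⟨h, hh⟩ with hCd
  have hCy' : Cy μ (hC : M → ℝ) L iS aS p := hCy
  have hSfS : Sf μ iS aS := sf_of_cy hc.pos hCy'
  obtain ⟨bS, hBS, hFS, -⟩ := tFm M μ (HS D μ σ) iS aS hSfS
  obtain ⟨bF, hBF, hFF, -⟩ := tFm M μ (HF D μ) iF aF hSf
  have hA := core4 hc.pos hCy' bS hBS h0 hint0
  filter_upwards [hA] with s hs
  intro C δ hδ
  obtain ⟨G, ε, hε, hG⟩ := hs C δ hδ
  refine ⟨G, ε, hε, fun u lam hu => ?_⟩
  obtain ⟨hub, hus⟩ := hu
  set w : M → ℝ := fun x => Real.exp (s * h x) with hwd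
  have hwc : Continuous w := Real.continuous_exp.comp (continuous_const.mul hh)
  have hwp : ∀ x, 0 < w x := fun x => Real.exp_pos _
  have hS := (tConf M μ D hD w hwc hwp).1
  obtain ⟨hfin', hpos'⟩ := tFin M (wm μ w) (D.conf w) hS
  have hν : (wm μ w) univ ≠ 0 := (hpos' univ isOpen_univ univ_nonempty).ne'
  -- null sets
  have hac : ∀ q : M → Prop, (∀ᵐ x ∂(wm μ w), q x) → ∀ᵐ x ∂μ, q x := by
    intro q hq
    have h1 : μ ≪ wm μ w := by
      refine withDensity_absolutelyContinuous' hwc.measurable.ennreal_ofReal.aemeasurable ?_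
      refine Eventually.of_forall fun x => ?_
      rw [ne_eq, ENNReal.ofReal_eq_zero, not_le]
      exact hwp x
    exact h1 hq
  obtain ⟨e, heu, hEg⟩ := tBr M μ D hD iF aF bF hSf hiF haF hBF hFF (s • hC) u lam hub
  have hsym : ∀ j, Tσ hc (e j).1.fst = (e j).1.fst ∨ Tσ hc (e j).1.fst = -(e j).1.fst := by
    intro j
    have h1 := heu j
    rw [hiF] at h1
    have h2 : (fun x => ((e j).1.fst : M → ℝ) (σ x)) =ᵐ[μ] fun x => u j (σ x) :=
      hc.mp.quasiMeasurePreserving.ae_eq_comp h1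
    rcases hus j with h3 | h3
    · left
      refine Lp.ext ?_
      filter_upwards [tσ_ae hc (e j).1.fst, h1, h2, hac _ h3] with x a1 a2 a3 a4
      rw [a1, a3, a4, a2]
    · right
      refine Lp.ext ?_
      filter_upwards [tσ_ae hc (e j).1.fst, h1, h2, hac _ h3, Lp.coeFn_neg (e j).1.fst] with
        x a1 a2 a3 a4 a5
      rw [a1, a3, a4, a5, Pi.neg_apply, a2]
  obtain ⟨g, hg, hmem, hEgS⟩ := odd_eg hD hc (s • hC) (fun x => by
    show s * h (σ x) = s * h x
    rw [hσ]) iF aF bF hiF haF hBF (hFF _) iS aS bS hiS haS hBS (hFS _) e lam hEg hsym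
  have hkap : ∀ (f : C(M, ℝ)) (k : ℕ), kap μ iS f (s • hC) ⟨(e (g k)).1, hmem k⟩ =
      ∫ x, f x * (u (g k) x) ^ 2 ∂(wm μ w) := by
    intro f k
    rw [integral_wm μ w hwc.measurable (fun x => (hwp x).le)]
    unfold kap
    refine integral_congr_ae ?_
    have h1 := heu (g k)
    rw [hiF] at h1
    filter_upwards [h1] with x hx
    rw [hiS]
    show f x * (Real.exp (s * h x) * ((e (g k)).1.fst : M → ℝ) x ^ 2) = w x * (f x * _)
    rw [hx]
    ring
  have havg : ∀ f : C(M, ℝ), avg μ f (s • hC) = (∫ x, f x ∂(wm μ w)) / (wm μ w).real univ := by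
    intro f
    have h5 : (wm μ w).real univ = ∫ x, (1 : ℝ) ∂(wm μ w) := by simp
    rw [h5, integral_wm μ w hwc.measurable (fun x => (hwp x).le),
      integral_wm μ w hwc.measurable (fun x => (hwp x).le)]
    unfold avg
    simp only [mul_one]
    congr 1
    exact integral_congr_ae (Eventually.of_forall fun x => mul_comm _ _)
  have hfin2 := hG (fun k => ⟨(e (g k)).1, hmem k⟩) (fun k => lam (g k)) hEgS
  refine Frequently.mono hfin2 fun K hK => hK.trans ?_
  have hsub : ScalesX (Exc μ iS (s • hC) G ε (fun k => ⟨(e (g k)).1, hmem k⟩))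
      (fun k => lam (g k)) C ⊆ ScalesX (ExcU (wm μ w) G ε u) lam C := by
    intro k hk
    have h2 : C * 2 ^ k < {j | j ∈ Exc μ iS (s • hC) G ε (fun k => ⟨(e (g k)).1, hmem k⟩) ∧
      lam (g j) ≤ 4 ^ k}.ncard := hk
    refine lt_of_lt_of_le h2 ?_
    have hEfin : {j | j ∈ ExcU (wm μ w) G ε u ∧ lam j ≤ 4 ^ k}.Finite := by
      obtain ⟨j0, hj0⟩ :=
        (hEg.tt.eventually (eventually_gt_atTop ((4 : ℝ) ^ k))).exists_forall_of_atTop
      refine (Set.finite_Iio j0).subset fun j hj => ?_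
      by_contra hcon
      have h1 := hj0 j (not_lt.1 hcon)
      have h2 : lam j ≤ 4 ^ k := hj.2
      linarith
    refine ncard_le_ncard_of_injOn g (fun j hj => ⟨?_, hj.2⟩) hg.injective.injOn hEfin
    obtain ⟨f, hf, hfe⟩ := hj.1
    rw [hkap, havg] at hfe
    exact ⟨f, hf, hfe⟩
  exact_mod_cast ncard_le_ncard (inter_subset_inter_left _ hsub)
    ((finite_Iio K).subset inter_subset_right)

end

end Pool.Agent.H240.QX
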