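import Pool.Agent.H240.QX.Win

/-!
# Diagonalization of a symmetry which commutes with the forms
-/

set_option autoImplicit false

open Set Filter Topology MeasureTheory
open scoped Real Matrix

noncomputable section

namespace Pool.Agent.H240.QX

open Pool.Agent.Y262.QE

/-- rearrangement in finite blocks -/
theorem hasSum_block (E : ℕ → ℝ) (hfin : ∀ r, Finite {j // E j = r}) (f f' : ℕ → ℝ)
    (h0 : ∀ k, 0 ≤ f k) (h0' : ∀ k, 0 ≤ f' k)
    (hb : ∀ r, ∑' k : {j // E j = r}, f' k = ∑' k : {j // E j = r}, f k) {S : ℝ}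
    (hf : HasSum f S) : HasSum f' S := by
  have e1 : Summable (fun x : Σ r, {j // E j = r} => f (Equiv.sigmaFiberEquiv E x)) :=
    (Equiv.sigmaFiberEquiv E).summable_iff.2 hf.summable
  have e2 := (summable_sigma_of_nonneg (f := fun x : Σ r, {j // E j = r} =>
    f (Equiv.sigmaFiberEquiv E x)) (fun x => h0 _)).1 e1
  have e3 : Summable (fun x : Σ r, {j // E j = r} => f' (Equiv.sigmaFiberEquiv E x)) := by
    rw [summable_sigma_of_nonneg (fun x => h0' _)]
    refine ⟨fun r => ?_, ?_⟩
    · haveI := hfin r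
      exact Summable.of_finite
    · refine e2.2.congr fun r => ?_
      exact (hb r).symm
  have e4 : Summable f' := (Equiv.sigmaFiberEquiv E).summable_iff.1 e3
  have e5 : ∑' k, f' k = ∑' k, f k := by
    rw [← (Equiv.sigmaFiberEquiv E).tsum_eq f', ← (Equiv.sigmaFiberEquiv E).tsum_eq f]
    rw [e3.tsum_sigma' (fun r => e3.sigma_factor r), e1.tsum_sigma' (fun r => e1.sigma_factor r)]
    exact tsum_congr fun r => hb r
  rw [← hf.tsum_eq, ← e5]
  exact e4.hasSum

section

variable {H : Type} [NormedAddCommGroup H] [InnerProductSpace ℝ H]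

theorem blk (a b : H →L[ℝ] H →L[ℝ] ℝ) (sa : ∀ u v, a u v = a v u) (sb : ∀ u v, b u v = b v u)
    (e : ℕ → H) (E : ℕ → ℝ)
    (hE : Eg a b e E) (R : ℕ → H) (r2 : ∀ j v, a (R j) v = E j * b (R j) v)
    (r3 : ∀ j k, b (R j) (e k) = b (e j) (R k)) :
    ∃ (e' : ℕ → H) (τ : ℕ → ℝ), Eg a b e' E ∧ ∀ k, ∃ (s : Finset ℕ) (x : ℕ → ℝ),
      e' k = ∑ j ∈ s, x j • e j ∧
      b ((∑ j ∈ s, x j • R j) - τ k • e' k) ((∑ j ∈ s, x j • R j) - τ k • e' k) = 0 := by
  classical
  have hfin : ∀ r : ℝ, Finite {j // E j = r} := by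
    intro r
    have h1 : {j | E j = r}.Finite := by
      obtain ⟨j0, hj0⟩ := (hE.tt.eventually (eventually_gt_atTop r)).exists_forall_of_atTop
      refine (Set.finite_Iio j0).subset fun j hj => ?_
      by_contra hcon
      have h1 := hj0 j (not_lt.1 hcon)
      have h2 : E j = r := hj
      linarith
    exact h1
  haveI : ∀ r : ℝ, Fintype {j // E j = r} := fun r => Fintype.ofFinite _
  let comb : (r : ℝ) → ({j // E j = r} → ℝ) → H := fun r x => ∑ j : {j // E j = r}, x j • e j
  have hcombr : ∀ (r : ℝ) (x : {j // E j = r} → ℝ) (v : H), b (comb r x) v =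
      ∑ j : {j // E j = r}, x j * b (e j) v := by
    intro r x v
    simp only [comb, map_sum, map_smul, sum_apply, smul_apply, smul_eq_mul]
  have hcomba : ∀ (r : ℝ) (x : {j // E j = r} → ℝ) (v : H), a (comb r x) v = r * b (comb r x) v := by
    intro r x v
    rw [hcombr, Finset.mul_sum]
    simp only [comb, map_sum, map_smul, sum_apply, smul_apply, smul_eq_mul]
    refine Finset.sum_congr rfl fun j _ => ?_
    rw [hE.eig, j.2]
    ring
  have hcc : ∀ (r : ℝ) (x y : {j // E j = r} → ℝ), b (comb r x) (comb r y) =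
      ∑ j : {j // E j = r}, x j * y j := by
    intro r x y
    rw [hcombr]
    refine Finset.sum_congr rfl fun j _ => ?_
    congr 1
    rw [sb, hcombr]
    rw [Finset.sum_eq_single j]
    · rw [hE.orth, if_pos rfl, mul_one]
    · intro k _ hk
      rw [hE.orth, if_neg (fun h => hk (Subtype.ext h)), mul_zero]
    · intro h; exact absurd (Finset.mem_univ j) h
  have hcc' : ∀ (r r' : ℝ) (x : {j // E j = r} → ℝ) (y : {j // E j = r'} → ℝ), r ≠ r' →
      b (comb r x) (comb r' y) = 0 := by
    intro r r' x y hrr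
    have h1 := hcomba r x (comb r' y)
    have h2 := hcomba r' y (comb r x)
    rw [sa, sb (comb r' y) (comb r x), h1] at h2
    have h3 : (r - r') * b (comb r x) (comb r' y) = 0 := by linarith
    exact (mul_eq_zero.1 h3).resolve_left (sub_ne_zero.2 hrr)
  -- the matrices
  let A : (r : ℝ) → Matrix {j // E j = r} {j // E j = r} ℝ := fun r => Matrix.of fun j k =>
    b (R j) (e k)
  have hA : ∀ r, (A r).IsHermitian := by
    intro r
    ext j k
    simp only [A, Matrix.conjTranspose_apply, Matrix.of_apply, star_trivial]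
    rw [r3, sb]
  let V : (r : ℝ) → {j // E j = r} → {j // E j = r} → ℝ := fun r k =>
    ⇑((hA r).eigenvectorBasis k)
  have hVo : ∀ (r : ℝ) (k l : {j // E j = r}), ∑ j, V r k j * V r l j = if k = l then 1 else 0 := by
    intro r k l
    have h1 := orthonormal_iff_ite.1 (hA r).eigenvectorBasis.orthonormal k l
    rw [PiLp.inner_apply] at h1
    rw [← h1]
    refine Finset.sum_congr rfl fun j _ => ?_
    simp [V, mul_comm]
  have hVp : ∀ (r : ℝ) (c : {j // E j = r} → ℝ), ∑ k, (∑ j, V r k j * c j) ^ 2 = ∑ j, (c j) ^ 2 := by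
    intro r c
    have h1 := (hA r).eigenvectorBasis.sum_sq_norm_inner_right (WithLp.toLp 2 c)
    rw [EuclideanSpace.norm_sq_eq] at h1
    have h2 : ∀ j : {j // E j = r}, ‖(WithLp.toLp 2 c : EuclideanSpace ℝ _) j‖ ^ 2 = (c j) ^ 2 := by
      intro j
      rw [Real.norm_eq_abs, sq_abs]
    simp only [h2] at h1
    rw [← h1]
    refine Finset.sum_congr rfl fun k _ => ?_
    rw [Real.norm_eq_abs, sq_abs, PiLp.inner_apply]
    congr 1
    refine Finset.sum_congr rfl fun j _ => ?_
    simp [V, mul_comm]
  have hVe : ∀ (r : ℝ) (k l : {j // E j = r}), ∑ j, V r k j * b (R j) (e l) =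
      (hA r).eigenvalues k * V r k l := by
    intro r k l
    have h1 := congrFun ((hA r).mulVec_eigenvectorBasis k) l
    simp only [Matrix.mulVec, dotProduct, A, Matrix.of_apply] at h1
    have h2 : ((hA r).eigenvalues k • ⇑((hA r).eigenvectorBasis k)) l =
      (hA r).eigenvalues k * V r k l := rfl
    rw [← h2]
    rw [← h1]
    refine Finset.sum_congr rfl fun j _ => ?_
    rw [r3 l j, sb (e l) (R j), mul_comm]
  -- the new system
  let e' : ℕ → H := fun k => comb (E k) (V (E k) ⟨k, rfl⟩)
  have he' : ∀ (r : ℝ) (k : {j // E j = r}), e' k = comb r (V r k) := by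
    rintro r ⟨k, rfl⟩
    rfl
  let τ : ℕ → ℝ := fun k => (hA (E k)).eigenvalues ⟨k, rfl⟩
  refine ⟨e', τ, ⟨fun k l => ?_, fun k v => hcomba _ _ v, hE.mono, hE.tt, fun v => ?_⟩, fun k => ?_⟩
  · by_cases hkl : E k = E l
    · have h1 : e' k = comb (E l) (V (E l) ⟨k, hkl⟩) := he' (E l) ⟨k, hkl⟩
      rw [h1]
      show b (comb (E l) (V (E l) ⟨k, hkl⟩)) (comb (E l) (V (E l) ⟨l, rfl⟩)) = _
      rw [hcc, hVo]
      simp only [Subtype.mk.injEq]
    · have h1 : b (e' k) (e' l) = 0 := hcc' _ _ _ _ hkl
      rw [h1, if_neg]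
      rintro rfl
      exact hkl rfl
  · refine hasSum_block E hfin (fun j => (b v (e j)) ^ 2) (fun j => (b v (e' j)) ^ 2)
      (fun k => sq_nonneg _) (fun k => sq_nonneg _) (fun r => ?_) (hE.sum v)
    rw [tsum_fintype, tsum_fintype, ← hVp r fun j => b v (e j)]
    refine Finset.sum_congr rfl fun k _ => ?_
    rw [he' r k, sb, hcombr]
    congr 1
    refine Finset.sum_congr rfl fun j _ => ?_
    rw [sb]
  · set r := E k with hr
    refine ⟨Finset.univ.map (Function.Embedding.subtype fun j => E j = r),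
      fun j => if h : E j = r then V r ⟨k, rfl⟩ ⟨j, h⟩ else 0, ?_, ?_⟩
    · rw [Finset.sum_map]
      show comb r (V r ⟨k, rfl⟩) = _
      refine Finset.sum_congr rfl fun j _ => ?_
      simp only [Function.Embedding.subtype_apply]
      rw [dif_pos j.2]
    · have h1 : (∑ j ∈ Finset.univ.map (Function.Embedding.subtype fun j => E j = r),
          (if h : E j = r then V r ⟨k, rfl⟩ ⟨j, h⟩ else 0) • R j) =
          ∑ j : {j // E j = r}, V r ⟨k, rfl⟩ j • R j := by
        rw [Finset.sum_map]
        refine Finset.sum_congr rfl fun j _ => ?_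
        simp only [Function.Embedding.subtype_apply]
        rw [dif_pos j.2]
      rw [h1]
      set z := (∑ j : {j // E j = r}, V r ⟨k, rfl⟩ j • R j) - τ k • e' k with hz
      have h2 : ∀ l, b z (e l) = 0 := by
        intro l
        have h3 : b z (e l) = (∑ j : {j // E j = r}, V r ⟨k, rfl⟩ j * b (R j) (e l)) -
            τ k * b (e' k) (e l) := by
          rw [hz, map_sub, sub_apply, map_sum, sum_apply, map_smul, smul_apply, smul_eq_mul]
          congr 1
          refine Finset.sum_congr rfl fun j _ => ?_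
          rw [map_smul, smul_apply, smul_eq_mul]
        rw [h3]
        by_cases hl : E l = r
        · have h4 := hVe r ⟨k, rfl⟩ ⟨l, hl⟩
          have h5 : (∑ j : {j // E j = r}, V r ⟨k, rfl⟩ j * b (R j) (e l)) =
            (hA r).eigenvalues ⟨k, rfl⟩ * V r ⟨k, rfl⟩ ⟨l, hl⟩ := h4
          rw [h5]
          have h6 : b (e' k) (e l) = V r ⟨k, rfl⟩ ⟨l, hl⟩ := by
            show b (comb r (V r ⟨k, rfl⟩)) (e l) = _
            rw [hcombr, Finset.sum_eq_single ⟨l, hl⟩]
            · rw [hE.orth, if_pos rfl, mul_one]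
            · intro j _ hj
              rw [hE.orth, if_neg (fun h => hj (Subtype.ext h)), mul_zero]
            · intro h; exact absurd (Finset.mem_univ _) h
          rw [h6]
          exact sub_self _
        · have h4 : ∀ j : {j // E j = r}, b (R j) (e l) = 0 := by
            intro j
            have h5 := r2 j (e l)
            have h6 := hE.eig l (R j)
            rw [sa, sb (e l) (R j), h5, j.2] at h6
            have h7 : (r - E l) * b (R j) (e l) = 0 := by linarith
            exact (mul_eq_zero.1 h7).resolve_left (sub_ne_zero.2 (Ne.symm hl))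
          have h5 : b (e' k) (e l) = 0 := by
            show b (comb r (V r ⟨k, rfl⟩)) (e l) = _
            rw [hcombr]
            refine Finset.sum_eq_zero fun j _ => ?_
            rw [hE.orth, if_neg, mul_zero]
            intro h
            exact hl (by rw [← h]; exact j.2)
          rw [h5, mul_zero, sub_zero]
          exact Finset.sum_eq_zero fun j _ => by rw [h4, mul_zero]
      have h3 := hE.sum z
      simp only [h2] at h3
      have h4 : HasSum (fun _ : ℕ => ((0 : ℝ)) ^ 2) 0 := by
        have : (fun _ : ℕ => ((0 : ℝ)) ^ 2) = fun _ => 0 := by funext _; norm_num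
        rw [this]
        exact hasSum_zero
      exact h3.unique h4

end

end Pool.Agent.H240.QX
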