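import Pool.Agent.H240.QX.Surf
import Pool.Agent.H240.QX.Block

/-!
# Existence of symmetric bases of eigenfunctions
-/

set_option autoImplicit false

open Set Filter Topology MeasureTheory
open scoped Real ContDiff

noncomputable section

namespace Pool.Agent.H240.QX

open Pool.Agent.Y262.QE Pool.Agent.Y264.QR Pool.Agent.Y986.QE

section

variable {M : Type} [MetricSpace M] [CompactSpace M] [MeasurableSpace M] [BorelSpace M]
  {μ : Measure M} {D : Data M} {L : ℝ} {Φ : ℂ → M} {σ : M → M}

/-- a complete system of eigenvectors is a basis of eigenfunctions (adapted from the file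
`Y264/QR/Ex.lean`) -/
theorem basis_of_eg [IsFiniteMeasure μ] (hD : D.IsSurf μ) (φ : C(M, ℝ))
    (i : HF D μ →L[ℝ] Lp ℝ 2 μ) (a : HF D μ →L[ℝ] HF D μ →L[ℝ] ℝ)
    (b : C(M, ℝ) → HF D μ →L[ℝ] HF D μ →L[ℝ] ℝ)
    (hi : ∀ v, i v = v.1.fst) (ha : ∀ u v, a u v = inner ℝ u.1.snd v.1.snd)
    (hB : IsB μ i b) (hF : ∀ φ, Fm a (b φ))
    (hcmp : ∀ (φ ψ : C(M, ℝ)) (v : HF D μ), b φ v v ≤ Real.exp ‖φ - ψ‖ * b ψ v v)
    (e : ℕ → HF D μ) (E : ℕ → ℝ) (hE : Eg a (b φ) e E) :
    EigBasis (D.conf fun x => Real.exp (φ x)) (wm μ fun x => Real.exp (φ x))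
      (fun j => ((e j).1.fst : M → ℝ)) E := by
  have hwc : Continuous fun x => Real.exp (φ x) := Real.continuous_exp.comp φ.continuous
  have hm : Measurable fun x => Real.exp (φ x) := hwc.measurable
  have h0 : ∀ x, 0 ≤ Real.exp (φ x) := fun x => (Real.exp_pos _).le
  refine ⟨?_, hE.mono, ?_, ?_⟩
  · intro j
    refine eigF tGr tFin tConf tDenF M μ D hD _ hwc (fun x => Real.exp_pos _) (E j) (e j).1
      (e j).2 fun v' hv' => ?_
    have h1 := hE.eig j ⟨v', hv'⟩
    rw [ha, hB, hi, hi] at h1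
    exact h1
  · intro k l
    rw [integral_wm μ _ hm h0, ← hE.orth k l, hB, hi, hi]
  · intro f hfm hfo
    have hmu : wm (wm μ fun x => Real.exp (φ x)) (fun x => Real.exp (-φ x)) = μ := by
      have hm' : Measurable fun x => Real.exp (-φ x) :=
        (Real.continuous_exp.comp φ.continuous.neg).measurable
      show (μ.withDensity (fun x => ENNReal.ofReal (Real.exp (φ x)))).withDensity
        (fun x => ENNReal.ofReal (Real.exp (-φ x))) = μ
      rw [← withDensity_mul μ hm.ennreal_ofReal hm'.ennreal_ofReal]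
      have h1 : ((fun x => ENNReal.ofReal (Real.exp (φ x))) *
          fun x => ENNReal.ofReal (Real.exp (-φ x))) = 1 := by
        funext x
        simp only [Pi.mul_apply, Pi.one_apply]
        rw [← ENNReal.ofReal_mul (Real.exp_pos _).le, ← Real.exp_add, add_neg_cancel, Real.exp_zero,
          ENNReal.ofReal_one]
      rw [h1, withDensity_one]
    have hfμ : MemLp f 2 μ := by
      have h1 := Pool.Agent.Y986.QE.memLp_wm (μ := wm μ fun x => Real.exp (φ x))
        (w := fun x => Real.exp (-φ x)) (Real.continuous_exp.comp φ.continuous.neg) hfm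
      rw [hmu] at h1
      exact h1
    have hgμ : MemLp (fun x => Real.exp (φ x) * f x) 2 μ := by
      have h1 : ∀ x, ‖Real.exp (φ x)‖ ≤ Real.exp ‖φ‖ := fun x => by
        rw [Real.norm_eq_abs, abs_of_pos (Real.exp_pos _)]
        refine Real.exp_le_exp.2 ((le_abs_self _).trans ?_)
        rw [← Real.norm_eq_abs]
        exact φ.norm_coe_le_norm x
      refine MemLp.of_le_mul (c := Real.exp ‖φ‖) hfμ
        (hwc.aestronglyMeasurable.mul hfμ.aestronglyMeasurable) (Eventually.of_forall fun x => ?_)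
      rw [norm_mul]
      exact mul_le_mul_of_nonneg_right (h1 x) (norm_nonneg _)
    have hg0 : (fun x => Real.exp (φ x) * f x) =ᵐ[μ] 0 := by
      refine c1_total tGr tLoc μ D hD _ hgμ fun G hG => ?_
      obtain ⟨v, hv, hv1, -⟩ := (tDenF M μ D hD).1 G hG
      set ℓ : HF D μ →L[ℝ] ℝ := (innerSL ℝ (hgμ.toLp _)).comp i with hℓ
      have hℓv : ∀ v : HF D μ, ℓ v = ∫ x, Real.exp (φ x) * (f x * (v.1.fst : M → ℝ) x) ∂μ := by
        intro v
        rw [hℓ, ContinuousLinearMap.comp_apply, innerSL_apply_apply, inn, hi]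
        refine integral_congr_ae ?_
        filter_upwards [hgμ.coeFn_toLp] with x hx
        rw [hx]
        ring
      have hℓe : ∀ j, ℓ (e j) = 0 := by
        intro j
        rw [hℓv, ← hfo j, integral_wm μ _ hm h0]
      have hnorm : ∀ v : HF D μ, ‖i v‖ ^ 2 ≤ Real.exp ‖(0 : C(M, ℝ)) - φ‖ * b φ v v := by
        intro v
        refine le_trans (le_of_eq ?_) (hcmp 0 φ v)
        rw [hB, nsq]
        refine integral_congr_ae (Eventually.of_forall fun x => ?_)
        simp only [ContinuousMap.zero_apply, Real.exp_zero, one_mul]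
        ring
      have hsum := hE.sum (⟨v, hv⟩ : HF D μ)
      set V : HF D μ := ⟨v, hv⟩ with hV
      set t : ℕ → ℝ := fun j => b φ V (e j) with ht
      set S : ℕ → HF D μ := fun n => ∑ j ∈ Finset.range n, t j • e j with hS
      have hbS : ∀ n, b φ (V - S n) (V - S n) = b φ V V - ∑ j ∈ Finset.range n, (t j) ^ 2 := by
        intro n
        have e1 : b φ V (S n) = ∑ j ∈ Finset.range n, (t j) ^ 2 := by
          simp only [hS, map_sum, map_smul, smul_eq_mul]
          exact Finset.sum_congr rfl fun j _ => by rw [sq]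
        have e2 : b φ (S n) V = ∑ j ∈ Finset.range n, (t j) ^ 2 := by
          rw [(hF φ).sb, e1]
        have e3 : b φ (S n) (S n) = ∑ j ∈ Finset.range n, (t j) ^ 2 := by
          have e4 : ∀ j ∈ Finset.range n, b φ (S n) (e j) = t j := by
            intro j hj
            simp only [hS, map_sum, map_smul, sum_apply, smul_apply, smul_eq_mul, hE.orth]
            simp only [mul_ite, mul_one, mul_zero]
            rw [Finset.sum_ite_eq' (Finset.range n) j t, if_pos hj]
          calc b φ (S n) (S n) = ∑ j ∈ Finset.range n, t j * b φ (S n) (e j) := by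
                have e5 : b φ (S n) (∑ j ∈ Finset.range n, t j • e j) =
                    ∑ j ∈ Finset.range n, t j * b φ (S n) (e j) := by
                  rw [map_sum]
                  exact Finset.sum_congr rfl fun j _ => by rw [map_smul, smul_eq_mul]
                exact e5
            _ = ∑ j ∈ Finset.range n, (t j) ^ 2 :=
                Finset.sum_congr rfl fun j hj => by rw [e4 j hj, sq]
        have e6 : b φ (V - S n) (V - S n) =
            b φ V V - b φ V (S n) - b φ (S n) V + b φ (S n) (S n) := by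
          simp only [map_sub, sub_apply]
          ring
        rw [e6, e1, e2, e3]
        ring
      have hlim : Tendsto (fun n => ‖i (V - S n)‖ ^ 2) atTop (𝓝 0) := by
        have h1 : Tendsto (fun n => Real.exp ‖(0 : C(M, ℝ)) - φ‖ *
            (b φ V V - ∑ j ∈ Finset.range n, (t j) ^ 2)) atTop (𝓝 0) := by
          have h2 := hsum.tendsto_sum_nat
          have h3 := (h2.const_sub (b φ V V)).const_mul (Real.exp ‖(0 : C(M, ℝ)) - φ‖)
          simpa using h3
        refine squeeze_zero (fun n => sq_nonneg _) (fun n => ?_) h1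
        rw [← hbS n]
        exact hnorm _
      have hlim2 : Tendsto (fun n => ‖i (V - S n)‖) atTop (𝓝 0) := by
        have h1 := hlim.sqrt
        simpa [Real.sqrt_sq (norm_nonneg _)] using h1
      have hℓV : ℓ V = 0 := by
        have h1 : ∀ n, |ℓ V| ≤ ‖hgμ.toLp _‖ * ‖i (V - S n)‖ := by
          intro n
          have h2 : ℓ V = ℓ (V - S n) := by
            rw [map_sub]
            simp only [hS, map_sum, map_smul, hℓe, smul_zero, Finset.sum_const_zero, sub_zero]
          rw [h2, hℓ, ContinuousLinearMap.comp_apply, innerSL_apply_apply]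
          exact abs_real_inner_le_norm _ _
        have h3 : Tendsto (fun n => ‖hgμ.toLp _‖ * ‖i (V - S n)‖) atTop (𝓝 0) := by
          simpa using hlim2.const_mul (‖hgμ.toLp _‖)
        have h4 : |ℓ V| ≤ 0 := ge_of_tendsto' h3 h1
        exact abs_nonpos_iff.1 h4
      rw [hℓv] at hℓV
      rw [← hℓV]
      refine integral_congr_ae ?_
      filter_upwards [hv1] with x hx
      rw [hx]
      ring
    have hf0 : f =ᵐ[μ] 0 := by
      filter_upwards [hg0] with x hx
      exact (mul_eq_zero.1 hx).resolve_left (Real.exp_pos _).ne'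
    exact (withDensity_absolutelyContinuous μ _).ae_eq hf0

/-- existence of symmetric bases -/
theorem sym_ex (hD : D.IsSurf μ) (hM : Nonempty M) (hc : D.IsCyl μ L Φ σ) (φ : C(M, ℝ))
    (hφσ : ∀ x, φ (σ x) = φ x) : ∃ (u : ℕ → M → ℝ) (lam : ℕ → ℝ),
      SymBasis (D.conf fun x => Real.exp (φ x)) (wm μ fun x => Real.exp (φ x)) σ u lam ∧
        Tendsto lam atTop atTop := by
  obtain ⟨hfin, -⟩ := tFin M μ D hD
  haveI := hfin
  obtain ⟨iF, aF, hSf, hiF, haF⟩ := tPackF M μ D hD hM
  obtain ⟨bF, hBF, hFF, -, hcmp, -⟩ := tFm M μ (HF D μ) iF aF hSf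
  haveI : CompleteSpace (HF D μ) :=
    (Submodule.isClosed_topologicalClosure _).completeSpace_coe
  obtain ⟨e, E, hE⟩ := tSp (HF D μ) aF (bF φ) (hFF φ)
  set w : M → ℝ := fun x => Real.exp (φ x) with hwd
  have hw : Continuous w := Real.continuous_exp.comp φ.continuous
  have hwσ : ∀ x, w (σ x) = w x := fun x => by simp only [hwd, hφσ]
  have hev : ∀ j, ∀ v' ∈ HF D μ, inner ℝ (e j).1.snd v'.snd =
      E j * ∫ x, w x * (((e j).1.fst : M → ℝ) x * (v'.fst : M → ℝ) x) ∂μ := by
    intro j v' hv'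
    have h1 := hE.eig j ⟨v', hv'⟩
    rw [haF, hBF, hiF, hiF] at h1
    exact h1
  choose F f fT vT hF hfT hlim hlimT hvT hfst hevT using fun j =>
    refl_eig hD hc hw hwσ (E j) (e j).1 (e j).2 (hev j)
  set R : ℕ → HF D μ := fun j => ⟨vT j, hvT j⟩ with hR
  obtain ⟨e', τ, hE', hsym⟩ := blk aF (bF φ) hSf.sa (hFF φ).sb e E hE R
    (fun j v => by
      rw [haF, hBF, hiF, hiF]
      exact hevT j v.1 v.2)
    (fun j k => by
      rw [hBF, hBF, hiF, hiF, hiF, hiF]
      rw [← int_sig hc.inv hc.cont hc.mp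
        (fun x => Real.exp (φ x) * (((R j).1.fst : M → ℝ) x * ((e k).1.fst : M → ℝ) x))]
      refine integral_congr_ae ?_
      have h1 := tσ_ae hc (e j).1.fst
      rw [← hfst j] at h1
      have h2 := tσ_ae hc (e k).1.fst
      rw [← hfst k] at h2
      have h3 : (fun x => ((vT j).fst : M → ℝ) (σ x)) =ᵐ[μ]
          fun x => ((e j).1.fst : M → ℝ) (σ (σ x)) :=
        hc.mp.quasiMeasurePreserving.ae_eq_comp h1
      filter_upwards [h2, h3] with x hx2 hx3
      show Real.exp (φ (σ x)) * (((vT j).fst : M → ℝ) (σ x) * ((e k).1.fst : M → ℝ) (σ x)) =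
        Real.exp (φ x) * (((e j).1.fst : M → ℝ) x * ((vT k).fst : M → ℝ) x)
      rw [hx2, hx3, hφσ, hc.inv])
  -- the reflection of the new vectors
  have hτ : ∀ k, Tσ hc (e' k).1.fst = τ k • (e' k).1.fst := by
    intro k
    obtain ⟨s, x, h1, h2⟩ := hsym k
    set z := (∑ j ∈ s, x j • R j) - τ k • e' k with hz
    have h3 : iF z = 0 := by
      have h4 : ∫ t, w t * ((iF z : M → ℝ) t) ^ 2 ∂μ = 0 := by
        rw [hBF] at h2
        rw [← h2]
        refine integral_congr_ae (Eventually.of_forall fun t => ?_)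
        show w t * ((iF z : M → ℝ) t) ^ 2 = w t * ((iF z : M → ℝ) t * (iF z : M → ℝ) t)
        ring
      have h5 : Integrable (fun t => w t * ((iF z : M → ℝ) t) ^ 2) μ := by
        obtain ⟨C, -, hC⟩ := bdd_of_cont hw
        exact (integrable_sq _).bdd_mul (c := C) hw.aestronglyMeasurable
          (Eventually.of_forall fun x => hC x)
      have h6 := (integral_eq_zero_iff_of_nonneg (fun t => mul_nonneg (Real.exp_pos _).le
        (sq_nonneg _)) h5).1 h4
      rw [Lp.eq_zero_iff_ae_eq_zero]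
      filter_upwards [h6] with t ht
      have h7 : w t * ((iF z : M → ℝ) t) ^ 2 = 0 := ht
      have h8 := (mul_eq_zero.1 h7).resolve_left (Real.exp_pos _).ne'
      exact pow_eq_zero_iff (two_ne_zero) |>.1 h8
    have h4 : Tσ hc (iF (e' k)) = ∑ j ∈ s, x j • iF (R j) := by
      rw [h1, map_sum]
      have h5 : Tσ hc (∑ j ∈ s, iF (x j • e j)) = ∑ j ∈ s, Tσ hc (iF (x j • e j)) :=
        map_sum (Lp.compMeasurePreservingₗ ℝ σ hc.mp) _ _
      rw [h5]
      refine Finset.sum_congr rfl fun j _ => ?_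
      rw [map_smul]
      have h6 : Tσ hc (x j • iF (e j)) = x j • Tσ hc (iF (e j)) :=
        map_smul (Lp.compMeasurePreservingₗ ℝ σ hc.mp) _ _
      rw [h6, hiF, hiF]
      congr 1
      exact (hfst j).symm
    rw [hz, map_sub, map_sum, map_smul, sub_eq_zero] at h3
    simp only [map_smul] at h3
    rw [h3, hiF] at h4
    exact h4
  have hττ : ∀ k, τ k = 1 ∨ τ k = -1 := by
    intro k
    have h1 : Tσ hc (Tσ hc (e' k).1.fst) = (e' k).1.fst := by
      refine Lp.ext ?_
      have a1 := tσ_ae hc (Tσ hc (e' k).1.fst)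
      have a2 : (fun x => (Tσ hc (e' k).1.fst : M → ℝ) (σ x)) =ᵐ[μ]
          fun x => ((e' k).1.fst : M → ℝ) (σ (σ x)) :=
        hc.mp.quasiMeasurePreserving.ae_eq_comp (tσ_ae hc (e' k).1.fst)
      filter_upwards [a1, a2] with x hx1 hx2
      rw [hx1, hx2, hc.inv]
    have h2 : Tσ hc (τ k • (e' k).1.fst) = τ k • Tσ hc (e' k).1.fst :=
      map_smul (Lp.compMeasurePreservingₗ ℝ σ hc.mp) _ _
    rw [hτ k, h2, hτ k, smul_smul] at h1
    have h3 : ((e' k).1.fst : Lp ℝ 2 μ) ≠ 0 := by
      intro h0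
      have h4 := hE'.orth k k
      rw [if_pos rfl, hBF, hiF, h0] at h4
      have h5 : (((0 : Lp ℝ 2 μ) : M → ℝ)) =ᵐ[μ] 0 := Lp.coeFn_zero ℝ 2 μ
      have h6 : (fun x => Real.exp (φ x) * (((0 : Lp ℝ 2 μ) : M → ℝ) x * ((0 : Lp ℝ 2 μ) : M → ℝ) x))
          =ᵐ[μ] fun _ => (0 : ℝ) := by
        filter_upwards [h5] with x hx
        rw [hx]
        simp
      rw [integral_congr_ae h6] at h4
      simp at h4
    have h4 : (τ k * τ k - 1) • ((e' k).1.fst : Lp ℝ 2 μ) = 0 := by
      rw [sub_smul, h1, one_smul, sub_self]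
    have h5 : τ k * τ k - 1 = 0 := (smul_eq_zero.1 h4).resolve_right h3
    have h6 : (τ k - 1) * (τ k + 1) = 0 := by linarith
    rcases mul_eq_zero.1 h6 with h7 | h7
    · left; linarith
    · right; linarith
  have hac : ∀ q : M → Prop, (∀ᵐ x ∂μ, q x) → ∀ᵐ x ∂(wm μ w), q x := fun q hq =>
    (withDensity_absolutelyContinuous μ _) hq
  refine ⟨fun j => ((e' j).1.fst : M → ℝ), E,
    ⟨basis_of_eg hD φ iF aF bF hiF haF hBF hFF hcmp e' E hE', fun j => ?_⟩, hE'.tt⟩
  have h1 := tσ_ae hc (e' j).1.fst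
  rw [hτ j] at h1
  have h2 := Lp.coeFn_smul (τ j) (e' j).1.fst
  rcases hττ j with h3 | h3
  · left
    refine hac _ ?_
    filter_upwards [h1, h2] with x hx1 hx2
    rw [← hx1, hx2, h3]
    simp
  · right
    refine hac _ ?_
    filter_upwards [h1, h2] with x hx1 hx2
    rw [← hx1, hx2, h3]
    simp

end

end Pool.Agent.H240.QX
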