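import Pool.Graph.R_seed8.Y262.EL.All
import Pool.Agent.H240.QX.Surf2
import Pool.Agent.H240.QX.SymEx

/-!
# A closed surface with ergodic geodesic flow and a large exceptional set of eigenfunctions
-/

set_option autoImplicit false

open Set Filter Topology MeasureTheory
open scoped ContDiff ComplexConjugate Real

noncomputable section

namespace Pool.Agent.H240.QX

open Pool.Agent.Y262.EG Pool.Agent.Y262.EX Pool.Agent.Y262.EL

/-- the conclusion about the basis -/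
structure Big {M : Type} [MetricSpace M] [CompactSpace M] [MeasurableSpace M] [BorelSpace M]
    (μ : Measure M) (u : ℕ → M → ℝ) (lam : ℕ → ℝ) : Prop where
  equi : ∀ J : Set ℕ, EquiOn μ u J → ∀ C : ℕ, UDOne (Scales lam J C)
  test : ∀ (C : ℕ) (δ : ℝ), 0 < δ → ∃ (G : Finset C(M, ℝ)) (ε : ℝ), 0 < ε ∧
    UD (ScalesX (ExcU μ G ε u) lam C) δ

/-- There is a closed surface of nonpositive curvature with ergodic geodesic flow and an orthonormal
basis of eigenfunctions of the Laplacian with a large exceptional set. -/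
def Concl3 : Prop :=
  ∃ (M P : Type) (_ : MetricSpace M) (_ : CompactSpace M) (_ : ConnectedSpace M)
    (_ : MeasurableSpace M) (_ : BorelSpace M) (_ : MetricSpace P) (_ : CompactSpace P)
    (_ : MeasurableSpace P) (_ : BorelSpace P) (Ω : Set ℂ) (φ : ℂ → ℝ) (pr : ℂ → M) (q : Y → P)
    (μ : Measure M) (m : Measure P) (Fl : ℝ → Y → Y),
    IsUT Ω φ pr q ∧ IsArea Ω φ pr μ ∧ IsLiou Ω φ q m ∧ IsGeo Ω φ Fl ∧ (∀ z ∈ Ω, curv φ z ≤ 0) ∧
    Erg Ω q m Fl ∧
    ∃ (u : ℕ → M → ℝ) (lam : ℕ → ℝ), (∀ j, IsEf Ω φ pr (lam j) (u j)) ∧ Monotone lam ∧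
      (∀ i j, ∫ x, u i x * u j x ∂μ = if i = j then 1 else 0) ∧
      (∀ f : M → ℝ, MemLp f 2 μ → (∀ j, ∫ x, f x * u j x ∂μ = 0) → f =ᵐ[μ] 0) ∧
      Tendsto lam atTop atTop ∧ Big μ u lam

open Pool.Agent.Y262.QE in
theorem final3 : Concl3 := by
  obtain ⟨g, c1, C, hP⟩ := tProf
  have hA : Act Gq Om ac := tAct
  obtain ⟨hI, hconj⟩ := tPhi2 g c1 C hP
  obtain ⟨M, iM, cM, pr, hpr⟩ := Pool.Agent.Y338.EX.qM Pool.Agent.Y749.EX.top Gq Om ac hA
  obtain ⟨P, iP, cP, q, hq⟩ := Pool.Agent.Y848.EX.qP Pool.Agent.Y749.EX.top Gq Om ac hA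
    (fun γ z hz => (hI.2 γ z hz).1)
  let _ : MeasurableSpace M := borel M
  have _ : BorelSpace M := ⟨rfl⟩
  let _ : MeasurableSpace P := borel P
  have _ : BorelSpace P := ⟨rfl⟩
  have hUT : IsUT Om (phi g c1) pr q :=
    Pool.Agent.Y145.EX.qU Gq Om ac (phi g c1) M P pr q hA hI hpr hq
  obtain ⟨C', hC⟩ := tClsE g c1 C hP M P pr q hpr hUT
  obtain ⟨σ, hσ⟩ := Pool.Agent.Y658.EX.sigEx Gq M Om ac (phi g c1) pr hpr tConj.1 hconj
    (fun γ => tConj.2 γ)
  obtain ⟨δ'', h, hC2, hhc, hh0, hhσ, hhs, hhz, hhne⟩ :=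
    Pool.Agent.Y838.EX.hex M P Om (phi g c1) pr q _ _ _ _ _ g σ hUT hC hσ
  obtain ⟨μ, hμ⟩ :=
    Pool.Agent.Y80.EX.areaEx Pool.Agent.Y749.EX.etale M P Om (phi g c1) pr q hUT
  obtain ⟨D, Φ, hS, hComp, hCyl, hΦ⟩ :=
    tData M P Om (phi g c1) pr q μ _ _ _ _ _ g σ hUT hC2 hμ hσ
  have hzz : ∀ z ∈ Strip _, h (Φ z) = 0 := (fun z hz => by
      rw [hΦ z hz]
      refine hhz z ⟨?_, ?_⟩
      · have := hC2.posδ; have := hC2.ltδ; have := hz.1; linarith
      · have := hC2.posδ; have := hC2.ltδ; have := hz.2; linarith)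
  have hmain1 := surf1 μ D hS _ Φ σ hCyl h hhc hh0 hhσ hzz hhne
  have hmain2 := surf2 μ D hS _ Φ σ hCyl h hhc hh0 hhσ hzz hhne
  obtain ⟨s0, hs0, hfam⟩ := tFam M P Om (phi g c1) pr q _ _ _ _ _ g hUT hC2 h hhs hhz
  have hneM : Nonempty M := by
    obtain ⟨x, _⟩ := hhne
    exact ⟨x⟩
  have hex : ∃ s : ℝ, |s| < s0 ∧ ((∀ (u : ℕ → M → ℝ) (lam : ℕ → ℝ),
      SymBasis (D.conf fun x => Real.exp (s * h x)) (wm μ fun x => Real.exp (s * h x)) σ u lam →
      ∀ J : Set ℕ, EquiOn (wm μ fun x => Real.exp (s * h x)) u J →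
        ∀ C : ℕ, UDOne (Scales lam J C)) ∧
      ∀ (C : ℕ) (δ : ℝ), 0 < δ → ∃ (G : Finset C(M, ℝ)) (ε : ℝ), 0 < ε ∧
      ∀ (u : ℕ → M → ℝ) (lam : ℕ → ℝ),
      SymBasis (D.conf fun x => Real.exp (s * h x)) (wm μ fun x => Real.exp (s * h x)) σ u lam →
      UD (ScalesX (ExcU (wm μ fun x => Real.exp (s * h x)) G ε u) lam C) δ) := by
    by_contra hcon
    have hnull : volume {s : ℝ | |s| < s0} = 0 := by
      refine measure_mono_null ?_ (hmain1.and hmain2)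
      intro s hs hgood
      exact hcon ⟨s, hs, hgood⟩
    have hpos : 0 < volume {s : ℝ | |s| < s0} := by
      refine IsOpen.measure_pos volume ?_ ⟨0, by simpa using hs0⟩
      exact isOpen_lt continuous_abs continuous_const
    exact absurd hnull hpos.ne'
  obtain ⟨s, hs, hgood1, hgood2⟩ := hex
  obtain ⟨u, lam, hu, hlt⟩ := sym_ex hS hneM hCyl (s • (⟨h, hhc⟩ : C(M, ℝ))) (fun x => by
    show s * h (σ x) = s * h x
    rw [hhσ])
  have hu' : SymBasis (D.conf fun x => Real.exp (s * h x)) (wm μ fun x => Real.exp (s * h x)) σ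
    u lam := hu
  have hsurf := (tConf M μ D hS (fun x => Real.exp (s * h x))
    (Real.continuous_exp.comp (continuous_const.mul hhc)) (fun x => Real.exp_pos _)).1
  obtain ⟨hUTs1, hComps⟩ := tUTs M P Om (phi g c1) pr q hUT h hhs s
  obtain ⟨C2, hCs⟩ := hfam s hs
  have hIs : Inva Om (fun z => phi g c1 z + s / 2 * h (pr z)) ac := by
    refine ⟨hUTs1.smooth, fun γ z hz => ⟨(hI.2 γ z hz).1, ?_⟩⟩
    have h1 := (hI.2 γ z hz).2
    have h2 : pr (ac γ z) = pr z := by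
      have := (hpr.rel z hz (ac γ z) (hA.maps γ z hz)).2 ⟨γ, rfl⟩
      exact this.symm
    simp only [h2]
    linarith
  obtain ⟨Fl, hFl⟩ := tGeo Gq Om ac _ hA hIs
  obtain ⟨m, hm⟩ := tLiouEx M P Om _ pr q hUTs1
  have hE := ergodic M P Om _ pr q m Fl _ _ _ _ _ g hUTs1 hm hFl hCs
  have hconn : ConnectedSpace M := { toPreconnectedSpace := ⟨hpr.conn⟩, toNonempty := hneM }
  have hμs : IsArea Om (fun z => phi g c1 z + s / 2 * h (pr z)) pr
      (wm μ fun x => Real.exp (s * h x)) :=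
    (tCVM M P Om (phi g c1) pr q μ hUT hμ).2.2.2 h hhc hhs s
  set ν : Measure M := wm μ fun x => Real.exp (s * h x) with hν
  have hv : ∀ j, ∃ v : M → ℝ, (∀ᵐ x ∂ν, u j x = v x) ∧
      ContDiffOn ℝ ∞ (fun z => v (pr z)) Om ∧ ∀ z ∈ Om,
        -(Real.exp (-2 * (phi g c1 z + s / 2 * h (pr z))) * lap (fun z => v (pr z)) z) =
          lam j * v (pr z) := fun j =>
    tEll M P Om _ pr q _ ν hUTs1 hsurf (hComps D hComp) hμs (lam j) (u j) (hu'.1.eig j)
  choose v hv1 hv2 hv3 using hv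
  have hsq : ∀ j (S : Set M), ∫ x in S, (v j x) ^ 2 ∂ν = ∫ x in S, (u j x) ^ 2 ∂ν := by
    intro j S
    refine integral_congr_ae ?_
    filter_upwards [ae_restrict_of_ae (hv1 j)] with x hx
    rw [hx]
  refine ⟨M, P, iM, cM, hconn, inferInstance, inferInstance, iP, cP, inferInstance, inferInstance,
    Om, fun z => phi g c1 z + s / 2 * h (pr z), pr, q, ν, m, Fl, hUTs1, hμs, hm, hFl, hCs.neg, hE,
    v, lam, fun j => ⟨hv2 j, hv3 j⟩, hu'.1.mono, ?_, ?_, hlt, ⟨?_, ?_⟩⟩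
  · intro k l
    rw [← hu'.1.orth k l]
    refine integral_congr_ae ?_
    filter_upwards [hv1 k, hv1 l] with x hx hx'
    rw [hx, hx']
  · intro f hf hfv
    refine hu'.1.total f hf fun j => ?_
    rw [← hfv j]
    refine integral_congr_ae ?_
    filter_upwards [hv1 j] with x hx
    rw [hx]
  · intro J hJ C
    refine hgood1 u lam hu' J (fun O hO hO0 => ?_) C
    have := hJ O hO hO0
    simp only [hsq] at this
    exact this
  · intro C δ hδ
    obtain ⟨G, ε, hε, hG⟩ := hgood2 C δ hδ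
    refine ⟨G, ε, hε, ?_⟩
    have h1 := hG u lam hu'
    have h2 : ExcU ν G ε v = ExcU ν G ε u := by
      unfold ExcU
      ext j
      have h3 : ∀ f : C(M, ℝ), ∫ x, f x * (v j x) ^ 2 ∂ν = ∫ x, f x * (u j x) ^ 2 ∂ν := by
        intro f
        refine integral_congr_ae ?_
        filter_upwards [hv1 j] with x hx
        rw [hx]
      simp only [mem_ofPred_eq, h3]
    rw [h2]
    exact h1

end Pool.Agent.H240.QX
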