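import Pool.Graph.R_seed8.Y262.QE.All

/-!
# Orthonormal test functions and quasimodes
-/

set_option autoImplicit false

open Set Filter Topology MeasureTheory
open scoped Real ContDiff

noncomputable section

namespace Pool.Agent.H240.QX

open Pool.Agent.Y262.QE

theorem tst_supp {L : ℝ} {η : ℝ → ℝ} (h : Tst L η) {x : ℝ} (hx : η x ≠ 0) : x ∈ Ioo 0 L :=
  h.2.2 (subset_tsupport _ hx)

theorem int_supp {L : ℝ} {f : ℝ → ℝ} (hf : ∀ x, f x ≠ 0 → x ∈ Ioo 0 L) :
    ∫ x in Ioo 0 L, f x = ∫ x, f x := by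
  refine setIntegral_eq_integral_of_forall_compl_eq_zero fun x hx => ?_
  by_contra h
  exact hx (hf x h)

theorem tst_shift {l L a : ℝ} (ha : 0 ≤ a) (hal : a + l ≤ L) {η : ℝ → ℝ} (h : Tst l η) :
    Tst L fun x => η (x - a) := by
  obtain ⟨h1, h2, h3⟩ := h
  have e : tsupport (fun x => η (x - a)) = (Homeomorph.subRight a) ⁻¹' tsupport η := by
    have := tsupport_comp_eq_preimage η (Homeomorph.subRight a)
    exact this
  refine ⟨h1.comp (contDiff_id.sub contDiff_const), ?_, ?_⟩
  · exact h2.comp_homeomorph (Homeomorph.subRight a)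
  · rw [e]
    intro x hx
    have := h3 hx
    simp only [Homeomorph.subRight_apply, mem_Ioo] at this
    exact ⟨by linarith [this.1], by linarith [this.2]⟩

/-- orthonormal test functions with mean zero -/
theorem bumps (L : ℝ) (hL : 0 < L) (q : ℕ) (hq : 0 < q) : ∃ χ : Fin q → ℝ → ℝ,
    (∀ i, Tst L (χ i)) ∧ (∀ i, ∫ x in Ioo 0 L, χ i x = 0) ∧
    ∀ i j, ∫ x in Ioo 0 L, χ i x * χ j x = if i = j then 1 else 0 := by
  have hq0 : (0 : ℝ) < q := by exact_mod_cast hq
  have hl : 0 < L / q := by positivity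
  obtain ⟨χ, h1, h2, h3⟩ := Pool.Agent.Y850.QE.bmp (L / q) hl
  have hlim : ∀ i : Fin q, (i : ℝ) * (L / q) + L / q ≤ L := by
    intro i
    have hi : (i : ℝ) + 1 ≤ q := by exact_mod_cast i.2
    calc (i : ℝ) * (L / q) + L / q = (i + 1) * (L / q) := by ring
      _ ≤ q * (L / q) := mul_le_mul_of_nonneg_right hi hl.le
      _ = L := by field_simp
  have hT : ∀ i : Fin q, Tst L (fun x => χ (x - (i : ℝ) * (L / q))) := fun i =>
    tst_shift (by positivity) (hlim i) h1
  have hsh : ∀ (i : Fin q) (x : ℝ), χ (x - (i : ℝ) * (L / q)) ≠ 0 →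
      (i : ℝ) * (L / q) < x ∧ x < ((i : ℝ) + 1) * (L / q) := by
    intro i x hx
    have := tst_supp h1 hx
    constructor
    · linarith [this.1]
    · linarith [this.2]
  refine ⟨fun i x => χ (x - (i : ℝ) * (L / q)), hT, fun i => ?_, fun i j => ?_⟩
  · rw [int_supp fun x hx => tst_supp (hT i) hx, integral_sub_right_eq_self χ,
      ← int_supp (L := L / q) fun x hx => tst_supp h1 hx, h2]
  · by_cases hij : i = j
    · subst hij
      rw [if_pos rfl, int_supp (f := fun x => χ (x - (i : ℝ) * (L / q)) * χ (x - (i : ℝ) * (L / q)))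
        fun x hx => tst_supp (hT i) (left_ne_zero_of_mul hx),
        integral_sub_right_eq_self (fun x => χ x * χ x),
        ← int_supp (L := L / q) fun x hx => tst_supp h1 (left_ne_zero_of_mul hx), ← h3]
      refine integral_congr_ae (Eventually.of_forall fun x => ?_)
      show χ x * χ x = χ x ^ 2
      ring
    · rw [if_neg hij]
      have h0 : ∀ x, χ (x - (i : ℝ) * (L / q)) * χ (x - (j : ℝ) * (L / q)) = 0 := by
        intro x
        by_contra hne
        obtain ⟨a1, a2⟩ := hsh i x (left_ne_zero_of_mul hne)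
        obtain ⟨b1, b2⟩ := hsh j x (right_ne_zero_of_mul hne)
        have c1 : (i : ℝ) < (j : ℝ) + 1 := by
          have := a1.trans b2
          exact lt_of_mul_lt_mul_right this hl.le
        have c2 : (j : ℝ) < (i : ℝ) + 1 := by
          have := b1.trans a2
          exact lt_of_mul_lt_mul_right this hl.le
        have d1 : (i : ℕ) < (j : ℕ) + 1 := by exact_mod_cast c1
        have d2 : (j : ℕ) < (i : ℕ) + 1 := by exact_mod_cast c2
        exact hij (Fin.ext (by omega))
      simp only [h0, integral_zero]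

section

variable {M : Type} [TopologicalSpace M] [MeasurableSpace M] {μ : Measure M} {h : M → ℝ} {L : ℝ}
  {H : Type} [NormedAddCommGroup H] [InnerProductSpace ℝ H] {i : H →L[ℝ] Lp ℝ 2 μ}
  {a : H →L[ℝ] H →L[ℝ] ℝ} {p : H → ℕ → ℝ → ℝ}

/-- the inner products of quasimodes with the same frequency -/
theorem ortho (hCy : Cy μ h L i a p) (η η' : ℝ → ℝ) (hη : Tst L η) (hη' : Tst L η') (m : ℕ)
    (x x' : H) (hx : ∀ v, inner ℝ (i x) (i v) = ∫ t in Ioo 0 L, η t * p v m t)
    (hx' : ∀ v, inner ℝ (i x') (i v) = ∫ t in Ioo 0 L, η' t * p v m t)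
    (hxx : inner ℝ (i x) (i x) = ∫ t in Ioo 0 L, (η t) ^ 2)
    (hxx' : inner ℝ (i x') (i x') = ∫ t in Ioo 0 L, (η' t) ^ 2) :
    inner ℝ (i x) (i x') = ∫ t in Ioo 0 L, η t * η' t := by
  have hs : Tst L fun t => η t + η' t := by
    refine ⟨hη.1.add hη'.1, hη.2.1.add hη'.2.1, ?_⟩
    refine (tsupport_add η η').trans (union_subset hη.2.2 hη'.2.2)
  obtain ⟨e, h1, h2, h3⟩ := hCy.k2 _ hs
  have hi : ∀ v, Integrable (fun t => η t * p v m t) (volume.restrict (Ioo 0 L)) := fun v =>
    Pool.Agent.Y412.QE.tst_int hη (hCy.mem v m)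
  have hi' : ∀ v, Integrable (fun t => η' t * p v m t) (volume.restrict (Ioo 0 L)) := fun v =>
    Pool.Agent.Y412.QE.tst_int hη' (hCy.mem v m)
  have h4 : ∀ v, inner ℝ (i (e m - x - x')) (i v) = 0 := by
    intro v
    rw [map_sub, map_sub, inner_sub_left, inner_sub_left, (h3 m v).1, hx, hx',
      ← integral_sub, ← integral_sub]
    · have e0 : ∀ t, (η t + η' t) * p v m t - η t * p v m t - η' t * p v m t = 0 := fun t => by
        ring
      simp only [e0, integral_zero]
    · refine (((hi v).add (hi' v)).sub (hi v)).congr (Eventually.of_forall fun t => ?_)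
      show η t * p v m t + η' t * p v m t - η t * p v m t =
        (η t + η' t) * p v m t - η t * p v m t
      ring
    · exact hi' v
    · refine ((hi v).add (hi' v)).congr (Eventually.of_forall fun t => ?_)
      show η t * p v m t + η' t * p v m t = (η t + η' t) * p v m t
      ring
    · exact hi v
  have h5 : i (e m - x - x') = 0 := by
    have := h4 (e m - x - x')
    exact inner_self_eq_zero.1 this
  have h6 : i (e m) = i x + i x' := by
    rw [map_sub, map_sub] at h5
    have : i (e m) - (i x + i x') = 0 := by rw [← h5]; abel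
    exact sub_eq_zero.1 this
  have h7 := h1 m m
  rw [if_pos rfl, h6, inner_add_left, inner_add_right, inner_add_right, hxx, hxx',
    real_inner_comm (i x) (i x')] at h7
  have hc : ∀ f : ℝ → ℝ, Tst L f → Integrable (fun t => f t * f t) (volume.restrict (Ioo 0 L)) := by
    intro f hf
    have : MemLp f 2 (volume.restrict (Ioo 0 L)) :=
      (hf.1.continuous.memLp_of_hasCompactSupport hf.2.1).mono_measure Measure.restrict_le_self
    exact this.integrable_mul this
  have hc' : Integrable (fun t => η t * η' t) (volume.restrict (Ioo 0 L)) := by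
    have h1 : MemLp η 2 (volume.restrict (Ioo 0 L)) :=
      (hη.1.continuous.memLp_of_hasCompactSupport hη.2.1).mono_measure Measure.restrict_le_self
    have h2 : MemLp η' 2 (volume.restrict (Ioo 0 L)) :=
      (hη'.1.continuous.memLp_of_hasCompactSupport hη'.2.1).mono_measure Measure.restrict_le_self
    exact h1.integrable_mul h2
  have h8 : ∫ t in Ioo 0 L, (η t + η' t) ^ 2 = (∫ t in Ioo 0 L, (η t) ^ 2) +
      2 * (∫ t in Ioo 0 L, η t * η' t) + ∫ t in Ioo 0 L, (η' t) ^ 2 := by
    have e1 : ∀ t, (η t + η' t) ^ 2 = (η t * η t + 2 * (η t * η' t)) + η' t * η' t := fun t => by ring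
    simp only [e1, sq]
    have e2 : Integrable (fun t => η t * η t + 2 * (η t * η' t)) (volume.restrict (Ioo 0 L)) :=
      (hc _ hη).add (hc'.const_mul 2)
    rw [integral_add e2 (hc _ hη'), integral_add (hc _ hη) (hc'.const_mul 2), integral_const_mul]
  rw [h8] at h7
  linarith

end

end Pool.Agent.H240.QX
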