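import Mathlib

/-!
# Counting lemmas
-/

set_option autoImplicit false

open Set Filter Topology MeasureTheory
open scoped Real

noncomputable section

namespace Pool.Agent.H240.QX

/-- If the windows `W n` are small on the average, if few of their elements are outside of `J`, and if
the subsets `O n` of the small windows have at least `q / 2` elements, then one of them meets `J`. -/
theorem pigeon (k q C D : ℕ) (W O F : ℕ → Set ℕ) (J : Set ℕ) (hWf : ∀ n, (W n).Finite)
    (hOW : ∀ n, O n ⊆ W n)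
    (hF : (∑ n ∈ Finset.Ico (2 ^ k) (2 ^ (k + 1)), ((F n).ncard : ℝ)) ≤ D * 2 ^ k)
    (hW : ∀ n ∈ Finset.Ico (2 ^ k) (2 ^ (k + 1)), (W n).ncard ≤ (F n).ncard + (W n \ J).ncard)
    (hJ : (∑ n ∈ Finset.Ico (2 ^ k) (2 ^ (k + 1)), ((W n \ J).ncard : ℝ)) ≤ C * 2 ^ k)
    (hO : ∀ n ∈ Finset.Ico (2 ^ k) (2 ^ (k + 1)), (W n).ncard ≤ 2 * (D + C) →
      (q : ℝ) ≤ 2 * (O n).ncard)
    (hq : 4 * C + 4 ≤ q) : ∃ n ∈ Finset.Ico (2 ^ k) (2 ^ (k + 1)), (O n ∩ J).Nonempty := by
  classical
  by_contra hcon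
  push Not at hcon
  set I := Finset.Ico (2 ^ k) (2 ^ (k + 1)) with hI
  have hIc : (I.card : ℝ) = 2 ^ k := by
    rw [hI, Nat.card_Ico]
    have : 2 ^ (k + 1) - 2 ^ k = 2 ^ k := by rw [pow_succ]; omega
    rw [this]
    push_cast
    rfl
  set G := I.filter fun n => (W n).ncard ≤ 2 * (D + C) with hG
  have h1 : (∑ n ∈ I, ((W n).ncard : ℝ)) ≤ (D + C) * 2 ^ k := by
    have : (∑ n ∈ I, ((W n).ncard : ℝ)) ≤ ∑ n ∈ I, (((F n).ncard : ℝ) + ((W n \ J).ncard : ℝ)) :=
      Finset.sum_le_sum fun n hn => by exact_mod_cast hW n hn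
    rw [Finset.sum_add_distrib] at this
    linarith
  have h2 : ((I.filter fun n => ¬ (W n).ncard ≤ 2 * (D + C)).card : ℝ) * (2 * (D + C) + 1) ≤
      (D + C) * 2 ^ k := by
    refine le_trans ?_ h1
    have h3 : ((I.filter fun n => ¬ (W n).ncard ≤ 2 * (D + C)).card : ℝ) * (2 * (D + C) + 1) ≤
        ∑ n ∈ I.filter (fun n => ¬ (W n).ncard ≤ 2 * (D + C)), ((W n).ncard : ℝ) := by
      rw [← nsmul_eq_mul]
      refine Finset.card_nsmul_le_sum _ _ _ fun n hn => ?_
      rw [Finset.mem_filter, not_le] at hn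
      have : 2 * (D + C) + 1 ≤ (W n).ncard := hn.2
      exact_mod_cast this
    refine h3.trans (Finset.sum_le_sum_of_subset_of_nonneg (Finset.filter_subset _ _) ?_)
    intro n _ _
    positivity
  have h3 : ((G.card : ℝ)) + ((I.filter fun n => ¬ (W n).ncard ≤ 2 * (D + C)).card : ℝ) = 2 ^ k := by
    rw [← hIc, hG]
    exact_mod_cast Finset.card_filter_add_card_filter_not (s := I)
      (fun n => (W n).ncard ≤ 2 * (D + C))
  have h4 : (2 : ℝ) ^ k / 2 ≤ G.card := by
    set z := ((I.filter fun n => ¬ (W n).ncard ≤ 2 * (D + C)).card : ℝ) with hz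
    have hz0 : 0 ≤ z := by rw [hz]; positivity
    have h5 : z ≤ 2 ^ k / 2 := by
      by_contra hlt
      push Not at hlt
      have hp : (0 : ℝ) < 2 ^ k := by positivity
      have hDC : (0 : ℝ) ≤ D + C := by positivity
      nlinarith
    linarith
  have h5 : ∀ n ∈ I, O n ⊆ W n \ J := by
    intro n hn j hj
    refine ⟨hOW n hj, fun hJj => ?_⟩
    have := hcon n hn
    have h6 : j ∈ O n ∩ J := ⟨hj, hJj⟩
    rw [this] at h6
    exact h6
  have h6 : (∑ n ∈ G, ((O n).ncard : ℝ)) ≤ C * 2 ^ k := by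
    refine le_trans ?_ hJ
    refine (Finset.sum_le_sum_of_subset_of_nonneg (Finset.filter_subset _ _) fun n _ _ => by
      positivity).trans (Finset.sum_le_sum fun n hn => ?_)
    exact_mod_cast ncard_le_ncard (h5 n hn) ((hWf n).subset diff_subset)
  have h7 : (G.card : ℝ) * (q / 2) ≤ ∑ n ∈ G, ((O n).ncard : ℝ) := by
    rw [← nsmul_eq_mul]
    refine Finset.card_nsmul_le_sum _ _ _ fun n hn => ?_
    rw [hG, Finset.mem_filter] at hn
    have := hO n hn.1 hn.2
    linarith
  have hq' : (4 : ℝ) * C + 4 ≤ q := by exact_mod_cast hq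
  have hp : (0 : ℝ) < 2 ^ k := by positivity
  have h8 : (2 : ℝ) ^ k / 2 * ((4 * C + 4) / 2) ≤ C * 2 ^ k := by
    refine le_trans ?_ (h7.trans h6)
    exact mul_le_mul h4 (by linarith) (by positivity) (by positivity)
  nlinarith

/-- disjoint finite sets in a finite set -/
theorem sum_ncard_le (I : Finset ℕ) (S : ℕ → Set ℕ) (T : Set ℕ) (hT : T.Finite)
    (hS : ∀ n ∈ I, S n ⊆ T) (hd : ∀ n ∈ I, ∀ m ∈ I, n ≠ m → Disjoint (S n) (S m)) :
    ∑ n ∈ I, (S n).ncard ≤ T.ncard := by
  classical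
  have hf : ∀ n ∈ I, (S n).Finite := fun n hn => hT.subset (hS n hn)
  have h0 : ∑ n ∈ I, (S n).ncard = ∑ n ∈ I, (hT.toFinset.filter fun j => j ∈ S n).card := by
    refine Finset.sum_congr rfl fun n hn => ?_
    have : S n = ((hT.toFinset.filter fun j => j ∈ S n : Finset ℕ) : Set ℕ) := by
      ext j
      rw [Finset.mem_coe, Finset.mem_filter, Set.Finite.mem_toFinset]
      exact ⟨fun h => ⟨hS n hn h, h⟩, fun h => h.2⟩
    conv_lhs => rw [this]
    rw [ncard_coe_finset]
  rw [h0, ← Finset.card_biUnion]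
  · have : T.ncard = hT.toFinset.card := ncard_eq_toFinset_card _ hT
    rw [this]
    refine Finset.card_le_card fun j hj => ?_
    rw [Finset.mem_biUnion] at hj
    obtain ⟨n, -, hn⟩ := hj
    exact (Finset.mem_filter.1 hn).1
  · intro n hn m hm hnm
    rw [Function.onFun, Finset.disjoint_left]
    intro j hj hj'
    exact Set.disjoint_left.1 (hd n hn m hm hnm) (Finset.mem_filter.1 hj).2
      (Finset.mem_filter.1 hj').2

/-- Infinitely many averages of `A` are bounded and eventually either `A k` is large or `k ∈ S`: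
then `S` has upper density one. -/
theorem dens_one (A : ℕ → ℝ) (hA : ∀ k, 0 ≤ A k) (D : ℕ)
    (hD : ∃ᶠ K : ℕ in atTop, ∑ k ∈ Finset.range K, A k ≤ D * K) (S : Set ℕ)
    (hS : ∀ D' : ℕ, ∀ᶠ k in atTop, A k ≤ D' → k ∈ S) (δ : ℝ) (hδ : 0 < δ) :
    ∃ᶠ K : ℕ in atTop, (1 - δ) * K ≤ ((S ∩ Iio K).ncard : ℝ) := by
  classical
  obtain ⟨D', hD'⟩ := exists_nat_gt (2 * (D : ℝ) / δ)
  obtain ⟨k0, hk0⟩ := eventually_atTop.1 (hS D')
  obtain ⟨K0, hK0⟩ := exists_nat_gt (2 * (k0 : ℝ) / δ)
  refine (hD.and_eventually (eventually_ge_atTop (K0 + 1))).mono fun K hK => ?_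
  obtain ⟨h1, h2⟩ := hK
  have hKpos : (0 : ℝ) < K := by
    have : 0 < K := by omega
    exact_mod_cast this
  -- the complement of `S`
  set Z := (Finset.range K).filter fun k => k ∉ S with hZ
  have h3 : ((S ∩ Iio K).ncard : ℝ) + Z.card = K := by
    have e1 : S ∩ Iio K = ((Finset.range K).filter fun k => k ∈ S : Finset ℕ) := by
      ext k
      simp only [mem_inter_iff, mem_Iio, Finset.coe_filter, Finset.mem_range, mem_setOf_eq]
      exact and_comm
    rw [e1, ncard_coe_finset, hZ]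
    have := Finset.card_filter_add_card_filter_not (s := Finset.range K) (fun k => k ∈ S)
    rw [Finset.card_range] at this
    exact_mod_cast this
  have h4 : Z ⊆ Finset.range k0 ∪ (Finset.range K).filter fun k => (D' : ℝ) < A k := by
    intro k hk
    rw [hZ, Finset.mem_filter] at hk
    rw [Finset.mem_union]
    by_cases hkk : k < k0
    · exact Or.inl (Finset.mem_range.2 hkk)
    · right
      rw [Finset.mem_filter]
      refine ⟨hk.1, ?_⟩
      by_contra hcon
      exact hk.2 (hk0 k (not_lt.1 hkk) (not_lt.1 hcon))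
  have h5 : (((Finset.range K).filter fun k => (D' : ℝ) < A k).card : ℝ) * D' ≤ D * K := by
    refine le_trans ?_ h1
    rw [← nsmul_eq_mul]
    refine (Finset.card_nsmul_le_sum _ _ _ fun k hk => ?_).trans
      (Finset.sum_le_sum_of_subset_of_nonneg (Finset.filter_subset _ _) fun k _ _ => hA k)
    exact (Finset.mem_filter.1 hk).2.le
  have h6 : (Z.card : ℝ) ≤ k0 + (((Finset.range K).filter fun k => (D' : ℝ) < A k).card : ℝ) := by
    have := (Finset.card_le_card h4).trans (Finset.card_union_le _ _)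
    rw [Finset.card_range] at this
    exact_mod_cast this
  have hD'0 : (0 : ℝ) < D' := lt_of_le_of_lt (by positivity) hD'
  have h7 : (((Finset.range K).filter fun k => (D' : ℝ) < A k).card : ℝ) ≤ δ / 2 * K := by
    set z := (((Finset.range K).filter fun k => (D' : ℝ) < A k).card : ℝ) with hz
    rw [div_lt_iff₀ hδ] at hD'
    have h8 : z * D' ≤ (δ / 2 * K) * D' := by
      refine h5.trans ?_
      have : (D : ℝ) ≤ δ / 2 * D' := by linarith
      nlinarith
    exact le_of_mul_le_mul_right h8 hD'0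
  have h8 : (k0 : ℝ) ≤ δ / 2 * K := by
    rw [div_lt_iff₀ hδ] at hK0
    have : (K0 : ℝ) ≤ K := by
      have : K0 ≤ K := by omega
      exact_mod_cast this
    nlinarith
  linarith

end Pool.Agent.H240.QX
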