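import Pool.Graph.R_seed8.Y262.QE.All

/-!
# Average number of fast eigenvalues in the windows around the squares, on a logarithmic scale
-/

set_option autoImplicit false

namespace Pool.Agent.H240.QX

open MeasureTheory Filter Topology Set Pool.Agent.Y262.QE
open scoped ENNReal NNReal

/-- the indices of the eigenvalues in the window around `(n + 1) ^ 2` which move with relative speed
at least `c` -/
def Fast (E : ℕ → ℝ → ℝ) (c r s : ℝ) (n : ℕ) : Set ℕ :=
  {j | 2 * r + 1 ≤ ((n : ℝ) + 1) ^ 2 ∧ deriv (fun s => Real.log (E j s)) s ≤ -c ∧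
    |E j s - ((n : ℝ) + 1) ^ 2| ≤ r}

/-- the number of pairs of a window with the number in `[2 ^ k, 2 ^ (k + 1))` and a fast eigenvalue in
it, divided by `2 ^ k` -/
noncomputable def Av (E : ℕ → ℝ → ℝ) (c r s : ℝ) (k : ℕ) : ℝ :=
  (∑ n ∈ Finset.Ico (2 ^ k) (2 ^ (k + 1)), ((Fast E c r s n).ncard : ℝ)) / 2 ^ k

theorem fast_sub {E : ℕ → ℝ → ℝ} {R C r s c : ℝ} (hr : 0 < r)
    (hcount : ∀ s, |s| ≤ R → ∀ (j : ℕ) (lam : ℝ), 1 ≤ lam → E j s ≤ lam →
      (j + 1 : ℝ) ≤ C * lam) (hs : |s| ≤ R) (n : ℕ) :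
    Fast E c r s n ⊆ (Finset.range ⌊2 * C * ((n : ℝ) + 1) ^ 2⌋₊ : Set ℕ) := by
  intro j hj
  obtain ⟨h1, -, h3⟩ := hj
  obtain ⟨m, hm⟩ : ∃ m : ℝ, m = ((n : ℝ) + 1) ^ 2 := ⟨_, rfl⟩
  rw [← hm, abs_le] at h3
  rw [← hm] at h1
  have h4 := hcount s hs j (2 * m) (by linarith) (by linarith)
  have h2 : ((j + 1 : ℕ) : ℝ) ≤ 2 * C * m := by
    push_cast
    linarith
  rw [← hm]
  have h3 := Nat.le_floor h2
  simp only [Finset.coe_range, mem_Iio]
  omega

theorem fast_finite {E : ℕ → ℝ → ℝ} {R C r s c : ℝ} (hr : 0 < r)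
    (hcount : ∀ s, |s| ≤ R → ∀ (j : ℕ) (lam : ℝ), 1 ≤ lam → E j s ≤ lam →
      (j + 1 : ℝ) ≤ C * lam) (hs : |s| ≤ R) (n : ℕ) : (Fast E c r s n).Finite :=
  (Finset.finite_toSet _).subset (fast_sub hr hcount hs n)

theorem meas_aux (hOne : StOne) (E : ℕ → ℝ → ℝ) (K : ℝ≥0)
    (hanti : ∀ j, Antitone (E j))
    (hLip : ∀ j, LipschitzWith K (fun s => Real.log (E j s)))
    (hlanti : ∀ j, Antitone (fun s => Real.log (E j s)))
    (R C c r : ℝ) (hC : 0 ≤ C) (hc : 0 < c) (hr : 0 < r)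
    (hcount : ∀ s, |s| ≤ R → ∀ (j : ℕ) (lam : ℝ), 1 ≤ lam → E j s ≤ lam →
      (j + 1 : ℝ) ≤ C * lam) :
    ∀ᵐ s : ℝ, |s| ≤ R → ∃ D : ℕ, ∃ᶠ K : ℕ in atTop,
      ∑ k ∈ Finset.range K, Av E c r s k ≤ D * K := by
  classical
  obtain ⟨T, hTdef⟩ : ∃ T : ℕ → Set ℝ, T = fun j => {s | |s| ≤ R ∧
      deriv (fun s => Real.log (E j s)) s ≤ -c} := ⟨_, rfl⟩
  have hT : ∀ j, MeasurableSet (T j) := by
    intro j
    have h1 : T j = {s | |s| ≤ R} ∩ {s | deriv (fun s => Real.log (E j s)) s ≤ -c} := by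
      rw [hTdef]
      rfl
    rw [h1]
    exact (measurableSet_le continuous_abs.measurable measurable_const).inter
      (measurableSet_le (measurable_deriv _) measurable_const)
  obtain ⟨A, hAdef⟩ : ∃ A : ℕ → ℕ → Set ℝ, A = fun (n j : ℕ) =>
      T j ∩ {s | |E j s - ((n : ℝ) + 1) ^ 2| ≤ r} := ⟨_, rfl⟩
  have hAm : ∀ n j s, s ∈ A n j ↔ s ∈ T j ∧ |E j s - ((n : ℝ) + 1) ^ 2| ≤ r := by
    intro n j s
    rw [hAdef]
    rfl
  have hA : ∀ n j, MeasurableSet (A n j) := by
    intro n j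
    rw [hAdef]
    exact (hT j).inter (measurableSet_le (continuous_abs.measurable.comp
      ((hanti j).measurable.sub_const _)) measurable_const)
  obtain ⟨G, hGdef⟩ : ∃ G : ℕ → Finset ℕ, G = fun (n : ℕ) =>
      if 2 * r + 1 ≤ ((n : ℝ) + 1) ^ 2 then Finset.range ⌊2 * C * ((n : ℝ) + 1) ^ 2⌋₊ else ∅ :=
    ⟨_, rfl⟩
  obtain ⟨N, hNdef⟩ : ∃ N : ℕ → ℝ → ℝ≥0∞, N = fun (n : ℕ) (s : ℝ) =>
      ∑ j ∈ G n, (A n j).indicator (1 : ℝ → ℝ≥0∞) s := ⟨_, rfl⟩
  have hNm : ∀ n, Measurable (N n) := by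
    intro n
    rw [hNdef]
    exact Finset.measurable_fun_sum _ fun j _ => measurable_one.indicator (hA n j)
  -- the integral
  have hint : ∀ n : ℕ, ∫⁻ s, N n s ≤ ENNReal.ofReal (8 * C * r / c) := by
    intro n
    by_cases hn : 2 * r + 1 ≤ ((n : ℝ) + 1) ^ 2
    swap
    · have : G n = ∅ := by rw [hGdef]; simp only; rw [if_neg hn]
      rw [hNdef]
      simp only [this, Finset.sum_empty, lintegral_zero]
      exact bot_le
    obtain ⟨m, hm⟩ : ∃ m : ℝ, m = ((n : ℝ) + 1) ^ 2 := ⟨_, rfl⟩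
    have hGn : G n = Finset.range ⌊2 * C * ((n : ℝ) + 1) ^ 2⌋₊ := by
      rw [hGdef]; simp only; rw [if_pos hn]
    rw [← hm] at hn
    have hm0 : 0 < m := by linarith
    have h1 : ∀ j ∈ G n, ∫⁻ s, (A n j).indicator (1 : ℝ → ℝ≥0∞) s ≤
        ENNReal.ofReal (4 * r / m / c) := by
      intro j hj
      rw [lintegral_indicator_one (hA n j)]
      have h2 := hOne (fun s => Real.log (E j s)) K (hLip j) (hlanti j) c hc (T j) (hT j)
        (fun s hs => by
          rw [hTdef] at hs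
          exact hs.2) (Real.log (m - r)) (Real.log (m + r))
        (Real.log_le_log (by linarith) (by linarith))
      refine (measure_mono ?_).trans (h2.trans (ENNReal.ofReal_le_ofReal ?_))
      · intro s hs
        obtain ⟨h4, h3⟩ := (hAm n j s).1 hs
        refine ⟨h4, ?_⟩
        rw [← hm, abs_le] at h3
        exact ⟨Real.log_le_log (by linarith) (by linarith),
          Real.log_le_log (by linarith) (by linarith)⟩
      · exact div_le_div_of_nonneg_right (Pool.Agent.Y936.QE.log_ratio m r hr hn) hc.le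
    have h2 : ∫⁻ s, N n s = ∑ j ∈ G n, ∫⁻ s, (A n j).indicator (1 : ℝ → ℝ≥0∞) s := by
      rw [hNdef]
      exact lintegral_finsetSum _ fun j _ => measurable_one.indicator (hA n j)
    rw [h2]
    refine (Finset.sum_le_card_nsmul _ _ _ h1).trans ?_
    rw [nsmul_eq_mul, ← ENNReal.ofReal_natCast, ← ENNReal.ofReal_mul (Nat.cast_nonneg _)]
    apply ENNReal.ofReal_le_ofReal
    have h3 : ((G n).card : ℝ) ≤ 2 * C * m := by
      rw [hGn, Finset.card_range, hm]
      exact Nat.floor_le (by positivity)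
    calc ((G n).card : ℝ) * (4 * r / m / c) ≤ 2 * C * m * (4 * r / m / c) :=
          mul_le_mul_of_nonneg_right h3 (by positivity)
      _ = 8 * C * r / c := by
          field_simp
          ring
  -- the averages
  obtain ⟨F, hFdef⟩ : ∃ F : ℕ → ℝ → ℝ≥0∞, F = fun (K : ℕ) (s : ℝ) =>
      (K : ℝ≥0∞)⁻¹ * ∑ k ∈ Finset.range K, ((2 : ℝ≥0∞) ^ k)⁻¹ *
        ∑ n ∈ Finset.Ico (2 ^ k) (2 ^ (k + 1)), N n s := ⟨_, rfl⟩
  have hFm : ∀ K, Measurable (F K) := by
    intro K
    rw [hFdef]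
    exact (Finset.measurable_fun_sum _ fun k _ => (Finset.measurable_fun_sum _ fun n _ =>
      hNm n).const_mul _).const_mul _
  have hFi : ∀ K, ∫⁻ s, F K s ≤ ENNReal.ofReal (8 * C * r / c) := by
    intro K
    have e1 : ∫⁻ s, F K s = (K : ℝ≥0∞)⁻¹ * ∑ k ∈ Finset.range K, ((2 : ℝ≥0∞) ^ k)⁻¹ *
        ∑ n ∈ Finset.Ico (2 ^ k) (2 ^ (k + 1)), ∫⁻ s, N n s := by
      rw [hFdef]
      simp only
      rw [lintegral_const_mul _ (Finset.measurable_fun_sum _ fun k _ =>
        (Finset.measurable_fun_sum _ fun n _ => hNm n).const_mul _)]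
      congr 1
      rw [lintegral_finsetSum _ fun k _ => (Finset.measurable_fun_sum _ fun n _ =>
        hNm n).const_mul _]
      refine Finset.sum_congr rfl fun k _ => ?_
      rw [lintegral_const_mul _ (Finset.measurable_fun_sum _ fun n _ => hNm n)]
      congr 1
      exact lintegral_finsetSum _ fun n _ => hNm n
    rw [e1]
    set B := ENNReal.ofReal (8 * C * r / c) with hB
    have e2 : ∀ k ∈ Finset.range K, ((2 : ℝ≥0∞) ^ k)⁻¹ *
        ∑ n ∈ Finset.Ico (2 ^ k) (2 ^ (k + 1)), ∫⁻ s, N n s ≤ B := by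
      intro k _
      have e3 : ∑ n ∈ Finset.Ico (2 ^ k) (2 ^ (k + 1)), ∫⁻ s, N n s ≤ (2 : ℝ≥0∞) ^ k * B := by
        refine (Finset.sum_le_card_nsmul _ _ _ fun n _ => hint n).trans ?_
        rw [Nat.card_Ico, nsmul_eq_mul]
        have : 2 ^ (k + 1) - 2 ^ k = 2 ^ k := by rw [pow_succ]; omega
        rw [this]
        push_cast
        exact le_rfl
      refine (mul_le_mul_right e3 _).trans ?_
      rw [← mul_assoc, ENNReal.inv_mul_cancel (by positivity) (by finiteness), one_mul]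
    rcases Nat.eq_zero_or_pos K with h | h
    · subst h
      simp
    · refine (mul_le_mul_right (Finset.sum_le_card_nsmul _ _ _ e2) _).trans ?_
      rw [Finset.card_range, nsmul_eq_mul, ← mul_assoc, ENNReal.inv_mul_cancel
        (by exact_mod_cast h.ne') (ENNReal.natCast_ne_top _), one_mul]
  have hfat : ∫⁻ s, liminf (fun n => F n s) atTop ≠ ∞ := by
    have h1 := lintegral_liminf_le (μ := volume) (u := atTop) hFm
    have h2 : liminf (fun n => ∫⁻ s, F n s) atTop ≤ ENNReal.ofReal (8 * C * r / c) := by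
      refine (liminf_le_liminf (Eventually.of_forall hFi)).trans ?_
      rw [liminf_const]
    exact ((h1.trans h2).trans_lt ENNReal.ofReal_lt_top).ne
  have hae := ae_lt_top (Measurable.liminf hFm) hfat
  filter_upwards [hae] with s hs hsR
  obtain ⟨B, hB⟩ := ENNReal.exists_nat_gt hs.ne
  have hfreq := frequently_lt_of_liminf_lt (by isBoundedDefault) hB
  refine ⟨B, (hfreq.and_eventually (eventually_gt_atTop 0)).mono fun K hK => ?_⟩
  obtain ⟨hK1, hK0⟩ := hK
  -- the numbers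
  have hN : ∀ n, N n s = ((Fast E c r s n).ncard : ℝ≥0∞) := by
    intro n
    rw [hNdef]
    simp only [indicator_apply, Pi.one_apply]
    rw [Finset.sum_boole]
    have e1 : Fast E c r s n = ((G n).filter fun j => s ∈ A n j : Finset ℕ) := by
      ext j
      rw [Finset.mem_coe, Finset.mem_filter, hAm]
      constructor
      · intro hj
        have h1 := fast_sub hr hcount hsR n hj
        refine ⟨?_, ?_, hj.2.2⟩
        · rw [hGdef]
          simp only
          rw [if_pos hj.1]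
          exact h1
        · rw [hTdef]
          exact ⟨hsR, hj.2.1⟩
      · rintro ⟨h1, h2, h3⟩
        rw [hTdef] at h2
        refine ⟨?_, h2.2, h3⟩
        rw [hGdef] at h1
        by_contra hcon
        simp only at h1
        rw [if_neg hcon] at h1
        simp at h1
    rw [e1, ncard_coe_finset]
  have hF : F K s = ENNReal.ofReal ((∑ k ∈ Finset.range K, Av E c r s k) / K) := by
    rw [hFdef]
    simp only
    rw [ENNReal.ofReal_div_of_pos (by exact_mod_cast hK0), ENNReal.ofReal_natCast,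
      ENNReal.ofReal_sum_of_nonneg (fun k _ => by unfold Av; positivity),
      ENNReal.div_eq_inv_mul]
    congr 1
    refine Finset.sum_congr rfl fun k _ => ?_
    unfold Av
    rw [ENNReal.ofReal_div_of_pos (by positivity), ENNReal.ofReal_sum_of_nonneg (fun _ _ => by
      positivity), ENNReal.div_eq_inv_mul]
    congr 1
    · congr 1
      rw [ENNReal.ofReal_pow (by norm_num)]
      norm_num
    · refine Finset.sum_congr rfl fun n _ => ?_
      rw [hN, ENNReal.ofReal_natCast]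
  rw [hF] at hK1
  have h1 : (∑ k ∈ Finset.range K, Av E c r s k) / K < B := by
    rw [← ENNReal.ofReal_natCast] at hK1
    exact (ENNReal.ofReal_lt_ofReal_iff_of_nonneg (by unfold Av; positivity)).1 hK1
  rw [div_lt_iff₀ (by exact_mod_cast hK0)] at h1
  exact h1.le

/-- for almost every parameter, infinitely many averages of `Av` are bounded -/
theorem meas2 (E : ℕ → ℝ → ℝ) (K : ℝ) (hE0 : ∀ j s, 0 ≤ E j s)
    (hmono : ∀ j s t, s ≤ t → E j t ≤ E j s)
    (hexp : ∀ j s t, s ≤ t → E j s ≤ Real.exp (K * (t - s)) * E j t)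
    (hcnt : ∀ R : ℝ, ∃ C : ℝ, ∀ s, |s| ≤ R → ∀ (j : ℕ) (lam : ℝ), 1 ≤ lam → E j s ≤ lam →
      (j + 1 : ℝ) ≤ C * lam) :
    ∀ᵐ s : ℝ, ∀ N r : ℕ, ∃ D : ℕ, ∃ᶠ K : ℕ in atTop,
      ∑ k ∈ Finset.range K, Av E (1 / ((N : ℝ) + 1)) ((r : ℝ) + 1) s k ≤ D * K := by
  have hanti : ∀ j, Antitone (E j) := fun j s t hst => hmono j s t hst
  -- positivity everywhere from positivity somewhere
  have hpos : ∀ j s₀, 0 < E j s₀ → ∀ t, 0 < E j t := by
    intro j s₀ h0 t
    rcases le_total s₀ t with h | h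
    · have h1 := hexp j s₀ t h
      by_contra hcon
      have h2 : E j t = 0 := le_antisymm (not_lt.1 hcon) (hE0 j t)
      rw [h2, mul_zero] at h1
      linarith
    · exact h0.trans_le (hmono j t s₀ h)
  have hdich : ∀ j, (∀ s, 0 < E j s) ∨ (∀ s, E j s = 0) := by
    intro j
    by_cases h : ∃ s₀, 0 < E j s₀
    · obtain ⟨s₀, h0⟩ := h
      exact Or.inl (hpos j s₀ h0)
    · push Not at h
      exact Or.inr fun s => le_antisymm (h s) (hE0 j s)
  obtain ⟨K', hK'⟩ : ∃ K' : ℝ≥0, K' = Real.toNNReal K := ⟨_, rfl⟩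
  have hKK' : K ≤ K' := by rw [hK']; exact Real.le_coe_toNNReal K
  have hlog : ∀ j s t, s ≤ t → Real.log (E j t) ≤ Real.log (E j s) ∧
      Real.log (E j s) - Real.log (E j t) ≤ K' * (t - s) := by
    intro j s t hst
    have hts : 0 ≤ (K' : ℝ) * (t - s) := mul_nonneg K'.2 (by linarith)
    rcases hdich j with h | h
    · refine ⟨Real.log_le_log (h t) (hmono j s t hst), ?_⟩
      have h1 := Real.log_le_log (h s) (hexp j s t hst)
      rw [Real.log_mul (Real.exp_pos _).ne' (h t).ne', Real.log_exp] at h1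
      have h2 : K * (t - s) ≤ K' * (t - s) := mul_le_mul_of_nonneg_right hKK' (by linarith)
      linarith
    · rw [h s, h t]
      exact ⟨le_rfl, by rw [sub_self]; exact hts⟩
  have hlanti : ∀ j, Antitone (fun s => Real.log (E j s)) := fun j s t hst => (hlog j s t hst).1
  have hLip : ∀ j, LipschitzWith K' (fun s => Real.log (E j s)) := by
    intro j
    refine LipschitzWith.of_dist_le_mul fun s t => ?_
    rw [Real.dist_eq, Real.dist_eq]
    rcases le_total s t with h | h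
    · have h1 := hlog j s t h
      rw [abs_of_nonneg (by linarith), abs_of_nonpos (by linarith)]
      linarith
    · have h1 := hlog j t s h
      rw [abs_of_nonpos (by linarith), abs_of_nonneg (by linarith)]
      linarith
  choose C hC using fun R : ℕ => hcnt R
  have hmain : ∀ᵐ s : ℝ, ∀ (R N r : ℕ), |s| ≤ (R : ℝ) → ∃ D : ℕ, ∃ᶠ K : ℕ in atTop,
      ∑ k ∈ Finset.range K, Av E (1 / ((N : ℝ) + 1)) ((r : ℝ) + 1) s k ≤ D * K := by
    rw [ae_all_iff]
    intro R
    rw [ae_all_iff]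
    intro N
    rw [ae_all_iff]
    intro r
    refine meas_aux Pool.Agent.Y850.QE.one E K' hanti hLip hlanti R |C R| (1 / ((N : ℝ) + 1))
      ((r : ℝ) + 1) (abs_nonneg _) (by positivity) (by positivity) ?_
    intro s hs j lam hlam hEl
    refine (hC R s hs j lam hlam hEl).trans ?_
    exact mul_le_mul_of_nonneg_right (le_abs_self _) (by linarith)
  filter_upwards [hmain] with s hs N r
  obtain ⟨R, hR⟩ := exists_nat_ge |s|
  exact hs R N r hR

end Pool.Agent.H240.QX
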