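import Pool.Graph.R_seed8.Y262.QE.All

/-!
# Several orthogonal quasimodes and the eigenvalues in a window
-/

set_option autoImplicit false

open Set Filter Topology MeasureTheory
open scoped Real

noncomputable section

namespace Pool.Agent.H240.QX

open Pool.Agent.Y262.QE

section

variable {H : Type} [NormedAddCommGroup H] [InnerProductSpace ℝ H]

/-- the part of a quasimode outside of the window is small -/
theorem qm_sum (a b : H →L[ℝ] H →L[ℝ] ℝ) (e : ℕ → H) (E : ℕ → ℝ) (hE : Eg a b e E) (x y : H)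
    (ν q r : ℝ) (hr : 0 < r) (hq : 0 ≤ q) (hqr : 2 * q ≤ r)
    (hxy : ∀ j, (E j - ν) * b x (e j) = b y (e j)) (hyy : b y y ≤ q ^ 2 * b x x)
    (hxx : 0 ≤ b x x) (W : Finset ℕ) (hmem : ∀ j, j ∈ W ↔ |E j - ν| ≤ r) :
    3 / 4 * b x x ≤ ∑ j ∈ W, (b x (e j)) ^ 2 := by
  have hsx := hE.sum x
  have hsy := hE.sum y
  have hrest : b x x - ∑ j ∈ W, (b x (e j)) ^ 2 ≤ b y y / r ^ 2 := by
    have h1 : HasSum (fun j : ℕ => if j ∈ W then 0 else (b x (e j)) ^ 2)
        (b x x - ∑ j ∈ W, (b x (e j)) ^ 2) := by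
      have h2 : HasSum (fun j : ℕ => if j ∈ W then (b x (e j)) ^ 2 else 0)
          (∑ j ∈ W, (b x (e j)) ^ 2) := by
        have h3 : HasSum (fun j : ℕ => if j ∈ W then (b x (e j)) ^ 2 else 0)
            (∑ j ∈ W, if j ∈ W then (b x (e j)) ^ 2 else 0) :=
          hasSum_sum_of_ne_finset_zero (fun j hj => by simp [hj])
        rwa [Finset.sum_congr rfl (fun j hj => if_pos hj)] at h3
      have h4 := hsx.sub h2
      have h5 : (fun j : ℕ => (b x (e j)) ^ 2 - if j ∈ W then (b x (e j)) ^ 2 else 0) =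
          fun j : ℕ => if j ∈ W then 0 else (b x (e j)) ^ 2 := by
        funext j
        by_cases hj : j ∈ W <;> simp [hj]
      rwa [h5] at h4
    have h5 : HasSum (fun j : ℕ => (b y (e j)) ^ 2 / r ^ 2) (b y y / r ^ 2) := hsy.div_const _
    refine hasSum_le (fun j => ?_) h1 h5
    by_cases hj : j ∈ W
    · simp only [hj, if_true]; positivity
    · simp only [hj, if_false]
      rw [hmem, not_le] at hj
      rw [le_div_iff₀ (by positivity), ← hxy j]
      have h6 : r ^ 2 ≤ (E j - ν) ^ 2 := by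
        rw [← sq_abs (E j - ν)]
        exact pow_le_pow_left₀ hr.le hj.le 2
      nlinarith [sq_nonneg (b x (e j))]
  have h7 : b y y / r ^ 2 ≤ 1 / 4 * b x x := by
    rw [div_le_iff₀ (by positivity)]
    have h8 : q ^ 2 ≤ 1 / 4 * r ^ 2 := by nlinarith
    nlinarith
  linarith

/-- Bessel's inequality for a semidefinite form -/
theorem bessel (b : H →L[ℝ] H →L[ℝ] ℝ) (sb : ∀ u v, b u v = b v u) (nb : ∀ v, 0 ≤ b v v)
    {q : ℕ} (x : Fin q → H) (hx : ∀ i j, b (x i) (x j) = if i = j then 1 else 0) (u : H) :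
    ∑ i, (b (x i) u) ^ 2 ≤ b u u := by
  set w : H := ∑ i, (b (x i) u) • x i with hw
  have h0 : ∀ v, b w v = ∑ i, b (x i) u * b (x i) v := by
    intro v
    rw [hw, map_sum, sum_apply]
    refine Finset.sum_congr rfl fun i _ => ?_
    rw [map_smul, smul_apply, smul_eq_mul]
  have h1 : b w u = ∑ i, (b (x i) u) ^ 2 := by
    rw [h0]
    exact Finset.sum_congr rfl fun i _ => (sq _).symm
  have h2 : b w w = ∑ i, (b (x i) u) ^ 2 := by
    have h3 : ∀ i, b (x i) w = b (x i) u := by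
      intro i
      rw [hw, map_sum]
      rw [Finset.sum_eq_single i]
      · rw [map_smul, hx, if_pos rfl, smul_eq_mul, mul_one]
      · intro j _ hj
        rw [map_smul, hx, if_neg (Ne.symm hj), smul_zero]
      · intro h; exact absurd (Finset.mem_univ i) h
    rw [h0]
    exact Finset.sum_congr rfl fun i _ => by rw [h3, sq]
  have h4 := nb (u - w)
  have h5 : b (u - w) (u - w) = b u u - b w u - b w u + b w w := by
    simp only [map_sub, sub_apply]
    rw [sb u w]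
    ring
  rw [h5, h1, h2] at h4
  linarith

/-- `q` orthonormal quasimodes have large components on at least `q / 2` of the eigenvectors of a
window with few eigenvalues -/
theorem win (a b : H →L[ℝ] H →L[ℝ] ℝ) (sb : ∀ u v, b u v = b v u) (nb : ∀ v, 0 ≤ b v v)
    (e : ℕ → H) (E : ℕ → ℝ) (hE : Eg a b e E) {q : ℕ} (x y : Fin q → H)
    (hx : ∀ i j, b (x i) (x j) = if i = j then 1 else 0)
    (ν Q r : ℝ) (hr : 0 < r) (hQ : 0 ≤ Q) (hQr : 2 * Q ≤ r)
    (hxy : ∀ i j, (E j - ν) * b (x i) (e j) = b (y i) (e j))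
    (hyy : ∀ i, b (y i) (y i) ≤ Q ^ 2) (B : ℕ) (hB : 0 < B)
    (hfin : {j | |E j - ν| ≤ r}.Finite) (hcard : {j | |E j - ν| ≤ r}.ncard ≤ B) :
    (q : ℝ) ≤ 2 * ({j | |E j - ν| ≤ r ∧ ∃ i, 1 / (4 * (B : ℝ)) ≤ (b (x i) (e j)) ^ 2}.ncard : ℝ) := by
  classical
  set W : Finset ℕ := hfin.toFinset with hW
  have hmem : ∀ j, j ∈ W ↔ |E j - ν| ≤ r := fun j => by
    rw [hW, Set.Finite.mem_toFinset]; rfl
  have hWB : W.card ≤ B := by
    rwa [hW, ← ncard_eq_toFinset_card _ hfin]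
  set O : Finset ℕ := W.filter fun j => ∃ i, 1 / (4 * (B : ℝ)) ≤ (b (x i) (e j)) ^ 2 with hO
  have hOc : {j | |E j - ν| ≤ r ∧ ∃ i, 1 / (4 * (B : ℝ)) ≤ (b (x i) (e j)) ^ 2} = (O : Set ℕ) := by
    ext j
    rw [Finset.mem_coe, hO, Finset.mem_filter, hmem]
    rfl
  rw [hOc, ncard_coe_finset]
  have h1 : ∀ i, 3 / 4 ≤ ∑ j ∈ W, (b (x i) (e j)) ^ 2 := by
    intro i
    have h2 := qm_sum a b e E hE (x i) (y i) ν Q r hr hQ hQr (hxy i) (by
      rw [hx, if_pos rfl, mul_one]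
      exact hyy i) (nb _) W hmem
    rwa [hx, if_pos rfl, mul_one] at h2
  have h2 : (q : ℝ) * (3 / 4) ≤ ∑ i, ∑ j ∈ W, (b (x i) (e j)) ^ 2 := by
    have := Finset.card_nsmul_le_sum (Finset.univ : Finset (Fin q))
      (fun i => ∑ j ∈ W, (b (x i) (e j)) ^ 2) (3 / 4) (fun i _ => h1 i)
    rwa [Finset.card_univ, Fintype.card_fin, nsmul_eq_mul] at this
  rw [Finset.sum_comm] at h2
  have h3 : ∑ j ∈ W, ∑ i, (b (x i) (e j)) ^ 2 =
      ∑ j ∈ O, ∑ i, (b (x i) (e j)) ^ 2 +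
        ∑ j ∈ W.filter (fun j => ¬ ∃ i, 1 / (4 * (B : ℝ)) ≤ (b (x i) (e j)) ^ 2),
          ∑ i, (b (x i) (e j)) ^ 2 := by
    rw [hO, Finset.sum_filter_add_sum_filter_not]
  have h4 : ∑ j ∈ O, ∑ i, (b (x i) (e j)) ^ 2 ≤ O.card := by
    have : ∀ j ∈ O, ∑ i, (b (x i) (e j)) ^ 2 ≤ (1 : ℝ) := by
      intro j _
      have := bessel b sb nb x hx (e j)
      rwa [hE.orth, if_pos rfl] at this
    have h5 := Finset.sum_le_card_nsmul O _ _ this
    rwa [nsmul_eq_mul, mul_one] at h5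
  have h5 : ∑ j ∈ W.filter (fun j => ¬ ∃ i, 1 / (4 * (B : ℝ)) ≤ (b (x i) (e j)) ^ 2),
      ∑ i, (b (x i) (e j)) ^ 2 ≤ (q : ℝ) * (1 / 4) := by
    have hB0 : (0 : ℝ) < B := by exact_mod_cast hB
    have h6 : ∀ j ∈ W.filter (fun j => ¬ ∃ i, 1 / (4 * (B : ℝ)) ≤ (b (x i) (e j)) ^ 2),
        ∑ i, (b (x i) (e j)) ^ 2 ≤ (q : ℝ) * (1 / (4 * B)) := by
      intro j hj
      rw [Finset.mem_filter] at hj
      have h7 := hj.2
      push Not at h7
      have h8 := Finset.sum_le_card_nsmul (Finset.univ : Finset (Fin q))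
        (fun i => (b (x i) (e j)) ^ 2) (1 / (4 * B)) (fun i _ => (h7 i).le)
      rwa [Finset.card_univ, Fintype.card_fin, nsmul_eq_mul] at h8
    refine (Finset.sum_le_card_nsmul _ _ _ h6).trans ?_
    rw [nsmul_eq_mul]
    have h9 : ((W.filter (fun j => ¬ ∃ i, 1 / (4 * (B : ℝ)) ≤ (b (x i) (e j)) ^ 2)).card : ℝ) ≤ B := by
      exact_mod_cast (Finset.card_filter_le _ _).trans hWB
    calc _ ≤ (B : ℝ) * ((q : ℝ) * (1 / (4 * B))) :=
          mul_le_mul_of_nonneg_right h9 (by positivity)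
      _ = (q : ℝ) * (1 / 4) := by field_simp
  rw [h3] at h2
  linarith

end

end Pool.Agent.H240.QX
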