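import Pool.Graph.R_seed8.Y264.QR.All
import Pool.Agent.H240.QX.Meas
import Pool.Agent.H240.QX.Win
import Pool.Agent.H240.QX.Bumps
import Pool.Agent.H240.QX.Cnt

/-!
# Exceptional sets of eigenvectors: the abstract theorem
-/

set_option autoImplicit false

open Set Filter Topology MeasureTheory
open scoped Real ContDiff

noncomputable section

namespace Pool.Agent.H240.QX

open Pool.Agent.Y262.QE Pool.Agent.Y264.QR

section

variable {M : Type} [MetricSpace M] [CompactSpace M] [MeasurableSpace M] [BorelSpace M]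
  {μ : Measure M} [IsFiniteMeasure μ] {h : C(M, ℝ)} {L : ℝ}
  {H : Type} [NormedAddCommGroup H] [InnerProductSpace ℝ H] {i : H →L[ℝ] Lp ℝ 2 μ}
  {a : H →L[ℝ] H →L[ℝ] ℝ} {p : H → ℕ → ℝ → ℝ}

theorem sf_of_cy (hL : 0 < L) (hCy : Cy μ (h : M → ℝ) L i a p) : Sf μ i a := by
  refine ⟨hCy.sa, hCy.na, hCy.nm, hCy.wy, ?_⟩
  obtain ⟨χ, h1, -, h3⟩ := Pool.Agent.Y850.QE.bmp L hL
  obtain ⟨e, h4, -⟩ := hCy.k2 χ h1
  exact ⟨e, fun m m' => by rw [h4, h3]⟩

theorem avg_pos (h0 : ∀ x, 0 ≤ h x) (hpos : 0 < ∫ x, h x ∂μ) (φ : C(M, ℝ)) :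
    0 < avg μ h φ := by
  have hcexp : Continuous fun x => Real.exp (φ x) := Real.continuous_exp.comp φ.continuous
  have hint : ∀ g : M → ℝ, Continuous g → Integrable g μ := fun g hg =>
    hg.integrable_of_hasCompactSupport (HasCompactSupport.of_compactSpace g)
  have hsup : 0 < μ (Function.support h) := by
    rwa [integral_pos_iff_support_of_nonneg h0 (hint h h.continuous)] at hpos
  have hY : 0 < ∫ x, h x * Real.exp (φ x) ∂μ := by
    rw [integral_pos_iff_support_of_nonneg (fun x => mul_nonneg (h0 x) (Real.exp_pos _).le)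
      (hint _ (h.continuous.mul hcexp))]
    have e : Function.support (fun x => h x * Real.exp (φ x)) = Function.support h := by
      ext x
      rw [Function.mem_support, Function.mem_support, mul_ne_zero_iff]
      exact ⟨fun h => h.1, fun h => ⟨h, (Real.exp_pos _).ne'⟩⟩
    rw [e]
    exact hsup
  have hZ : 0 < ∫ x, Real.exp (φ x) ∂μ := by
    rw [integral_pos_iff_support_of_nonneg (fun x => (Real.exp_pos _).le) (hint _ hcexp)]
    refine hsup.trans_le (measure_mono fun x _ => ?_)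
    rw [Function.mem_support]
    exact (Real.exp_pos _).ne'
  exact div_pos hY hZ

theorem det (hL : 0 < L) (hCy : Cy μ (h : M → ℝ) L i a p)
    (b : C(M, ℝ) → H →L[ℝ] H →L[ℝ] ℝ) (hB : IsB μ i b) (hFm : ∀ φ, Fm a (b φ))
    (h0 : ∀ x, 0 ≤ h x) (hpos : 0 < ∫ x, h x ∂μ) (s : ℝ) (e : ℕ → H) (E : ℕ → ℝ)
    (hEg : Eg a (b (s • h)) e E) (hEv : ∀ j, Ev a (b (s • h)) j = E j)
    (hder : ∀ j, HasDerivAt (fun t : ℝ => Ev a (b (t • h)) j)
      (-(kap μ i h (s • h) (e j) * Ev a (b (s • h)) j)) s)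
    (J : Set ℕ) (hJ : ∀ f : C(M, ℝ), Tendsto (fun j => kap μ i f (s • h) (e j)) (atTop ⊓ 𝓟 J)
      (𝓝 (avg μ f (s • h)))) (C : ℕ) :
    ∃ N r : ℕ, ∀ D : ℕ, ∀ᶠ k in atTop,
      Av (fun j t => Ev a (b (t • h)) j) (1 / ((N : ℝ) + 1)) ((r : ℝ) + 1) s k ≤ D →
        C * 2 ^ k < {j | j ∉ J ∧ E j ≤ 4 ^ (k + 2)}.ncard := by
  classical
  set q : ℕ := 4 * C + 4 with hqd
  obtain ⟨χ, hχ, hχ0, hχ1⟩ := bumps L hL q (by omega)
  have hχ' : ∀ l, Tst L fun x => -(iteratedDeriv 2 (χ l) x) := fun l =>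
    Pool.Agent.Y412.QE.tst_dd (hχ l)
  choose ex hx1 hx2 hx3 using fun l => hCy.k2 (χ l) (hχ l)
  choose ey hy1 hy2 hy3 using fun l => hCy.k2 _ (hχ' l)
  set Q : ℝ := ∑ l, Real.sqrt (∫ x in Ioo 0 L, (-(iteratedDeriv 2 (χ l) x)) ^ 2) with hQd
  have hQ : 0 ≤ Q := Finset.sum_nonneg fun l _ => Real.sqrt_nonneg _
  obtain ⟨r, hr⟩ := exists_nat_ge (2 * Q)
  set m0 : ℝ := avg μ h (s • h) with hm0d
  have hm0 : 0 < m0 := avg_pos h0 hpos _
  obtain ⟨N, hN⟩ := exists_nat_one_div_lt (half_pos hm0)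
  -- forms of the functions on the cylinder
  have hsh : ∀ x, (s • h : C(M, ℝ)) x = s * h x := fun x => rfl
  have hin : ∀ u v : H, inner ℝ (i u) (i v) = ∫ x, i u x * i v x ∂μ := by
    intro u v
    rw [L2.inner_def]
    refine integral_congr_ae (Eventually.of_forall fun x => ?_)
    simp only [RCLike.inner_apply, conj_trivial]
    ring
  have hbi : ∀ u : H, (∀ᵐ x ∂μ, i u x ≠ 0 → h x = 0) → ∀ v, b (s • h) u v = inner ℝ (i u) (i v) := by
    intro u hu v
    rw [hB, hin]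
    refine integral_congr_ae ?_
    filter_upwards [hu] with x hx
    by_cases h1 : i u x = 0
    · rw [h1]
      ring
    · rw [hsh, hx h1, mul_zero, Real.exp_zero, one_mul]
  have hbx : ∀ l n v, b (s • h) (ex l n) v = ∫ x in Ioo 0 L, χ l x * p v n x := fun l n v => by
    rw [hbi _ (hx2 l n), (hx3 l n v).1]
  have hby : ∀ l n v, b (s • h) (ey l n) v =
      ∫ x in Ioo 0 L, (-(iteratedDeriv 2 (χ l) x)) * p v n x := fun l n v => by
    rw [hbi _ (hy2 l n), (hy3 l n v).1]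
  have hbxx : ∀ n l l', b (s • h) (ex l n) (ex l' n) = if l = l' then 1 else 0 := by
    intro n l l'
    have e1 : ∀ l, inner ℝ (i (ex l n)) (i (ex l n)) = ∫ t in Ioo 0 L, (χ l t) ^ 2 := fun l => by
      rw [hx1, if_pos rfl]
    rw [hbi _ (hx2 l n), ortho hCy (χ l) (χ l') (hχ l) (hχ l') n (ex l n) (ex l' n)
      (fun v => (hx3 l n v).1) (fun v => (hx3 l' n v).1) (e1 l) (e1 l'), hχ1]
  have hbyy : ∀ l n, b (s • h) (ey l n) (ey l n) ≤ Q ^ 2 := by
    intro l n
    rw [hbi _ (hy2 l n), hy1, if_pos rfl]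
    have h1 : 0 ≤ ∫ x in Ioo 0 L, (-(iteratedDeriv 2 (χ l) x)) ^ 2 :=
      integral_nonneg fun x => sq_nonneg _
    have h2 : Real.sqrt (∫ x in Ioo 0 L, (-(iteratedDeriv 2 (χ l) x)) ^ 2) ≤ Q := by
      rw [hQd]
      exact Finset.single_le_sum (f := fun l => Real.sqrt (∫ x in Ioo 0 L,
        (-(iteratedDeriv 2 (χ l) x)) ^ 2)) (fun l _ => Real.sqrt_nonneg _) (Finset.mem_univ l)
    calc _ = (Real.sqrt (∫ x in Ioo 0 L, (-(iteratedDeriv 2 (χ l) x)) ^ 2)) ^ 2 :=
          (Real.sq_sqrt h1).symm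
      _ ≤ Q ^ 2 := pow_le_pow_left₀ (Real.sqrt_nonneg _) h2 2
  have hqm : ∀ (n : ℕ) l j, (E j - ((n : ℝ) + 1) ^ 2) * b (s • h) (ex l n) (e j) =
      b (s • h) (ey l n) (e j) := by
    intro n l j
    have h1 : E j * b (s • h) (ex l n) (e j) = a (ex l n) (e j) := by
      rw [(hFm _).sb, ← hEg.eig j, hCy.sa]
    rw [sub_mul, h1, (hx3 l n (e j)).2, hbx, hby]
    have i1 := Pool.Agent.Y412.QE.tst_int (hχ' l) (hCy.mem (e j) n)
    have i2 := Pool.Agent.Y412.QE.tst_int (hχ l) (hCy.mem (e j) n)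
    rw [← integral_const_mul, ← integral_sub]
    · refine integral_congr_ae (Eventually.of_forall fun x => ?_)
      beta_reduce
      ring
    · have i3 := i1.add (i2.const_mul (((n : ℝ) + 1) ^ 2))
      refine i3.congr (Eventually.of_forall fun x => ?_)
      simp only [Pi.add_apply]
      ring
    · exact i2.const_mul _
  -- the windows
  have hEfin : ∀ Λ : ℝ, {j | E j ≤ Λ}.Finite := by
    intro Λ
    obtain ⟨j0, hj0⟩ := (hEg.tt.eventually (eventually_gt_atTop Λ)).exists_forall_of_atTop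
    refine (Set.finite_Iio j0).subset fun j hj => ?_
    by_contra hcon
    have h1 := hj0 j (not_lt.1 hcon)
    have h2 : E j ≤ Λ := hj
    linarith
  set W : ℕ → Set ℕ := fun n => {j | |E j - ((n : ℝ) + 1) ^ 2| ≤ (r : ℝ) + 1} with hWd
  have hWf : ∀ n, (W n).Finite := fun n =>
    (hEfin (((n : ℝ) + 1) ^ 2 + ((r : ℝ) + 1))).subset fun j hj => by
      have h1 : |E j - ((n : ℝ) + 1) ^ 2| ≤ (r : ℝ) + 1 := hj
      have h2 := (abs_le.1 h1).2
      show E j ≤ _
      linarith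
  -- the eigenvalues with indices in `J` move fast
  obtain ⟨J0, hJ0⟩ : ∃ J0 : ℕ, ∀ j, J0 ≤ j → j ∈ J → 1 / ((N : ℝ) + 1) ≤ kap μ i h (s • h) (e j) := by
    have h1 := (hJ h).eventually (lt_mem_nhds (half_lt_self hm0))
    rw [eventually_inf_principal] at h1
    obtain ⟨J0, h2⟩ := eventually_atTop.1 h1
    exact ⟨J0, fun j hj hjJ => (hN.trans (h2 j hj hjJ)).le⟩
  obtain ⟨J1, hJ1⟩ := (hEg.tt.eventually (eventually_gt_atTop 0)).exists_forall_of_atTop
  set F : ℕ → ℝ → ℝ := fun j t => Ev a (b (t • h)) j with hFd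
  have hFs : ∀ j, F j s = E j := fun j => hEv j
  have hfast : ∀ j, max J0 J1 ≤ j → j ∈ J →
      deriv (fun t => Real.log (F j t)) s ≤ -(1 / ((N : ℝ) + 1)) := by
    intro j hj hjJ
    have h1 := hJ0 j ((le_max_left _ _).trans hj) hjJ
    have h2 : 0 < E j := hJ1 j ((le_max_right _ _).trans hj)
    have h3 : HasDerivAt (F j) (-(kap μ i h (s • h) (e j) * Ev a (b (s • h)) j)) s := hder j
    have h4 := h3.log (by rw [hFs]; exact h2.ne')
    have h5 : -(kap μ i h (s • h) (e j) * Ev a (b (s • h)) j) / F j s =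
        -(kap μ i h (s • h) (e j)) := by
      have h6 : Ev a (b (s • h)) j = F j s := rfl
      rw [h6]
      rw [hFs]
      field_simp
    rw [h5] at h4
    rw [h4.deriv]
    linarith
  refine ⟨N, r, fun D => ?_⟩
  by_contra hcon
  rw [not_eventually] at hcon
  set B : ℕ := 2 * (D + C) + 1 with hBd
  have hBp : 0 < B := by omega
  set O : ℕ → Set ℕ := fun n => {j | |E j - ((n : ℝ) + 1) ^ 2| ≤ (r : ℝ) + 1 ∧
    ∃ l, 1 / (4 * (B : ℝ)) ≤ (b (s • h) (ex l n) (e j)) ^ 2} with hOd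
  obtain ⟨n0, hn0⟩ := exists_nat_gt (E (max J0 J1) + 2 * ((r : ℝ) + 1) + 1)
  have hmain : ∃ᶠ k : ℕ in atTop, ∃ l : Fin q, ∃ n j : ℕ, k ≤ n ∧ j ∈ J ∧
      |E j - ((n : ℝ) + 1) ^ 2| ≤ (r : ℝ) + 1 ∧
      1 / (4 * (B : ℝ)) ≤ (b (s • h) (ex l n) (e j)) ^ 2 := by
    refine (hcon.and_eventually (eventually_ge_atTop (n0 + r + 1))).mono fun k hk => ?_
    obtain ⟨hk1, hk2⟩ := hk
    rw [Classical.not_imp, not_lt] at hk1
    obtain ⟨hk3, hk4⟩ := hk1
    have hk2k : k < 2 ^ k := Nat.lt_two_pow_self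
    -- consequences of `n` large
    have hbig : ∀ n ∈ Finset.Ico ((2 : ℕ) ^ k) (2 ^ (k + 1)), (n0 : ℝ) + r + 1 ≤ n := by
      intro n hn
      rw [Finset.mem_Ico] at hn
      have : n0 + r + 1 ≤ n := by omega
      exact_mod_cast this
    have hE0 : ∀ j, 0 ≤ E j := by
      intro j
      have h1 := (hFm (s • h)).na (e j)
      rw [hEg.eig, hEg.orth, if_pos rfl, mul_one] at h1
      exact h1
    have hEm := hE0 (max J0 J1)
    obtain ⟨n, hn, j, hj1, hj2⟩ := pigeon k q C D W O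
      (Fast F (1 / ((N : ℝ) + 1)) ((r : ℝ) + 1) s) J hWf
      (fun n j hj => hj.1) (by
        have h1 : (∑ n ∈ Finset.Ico (2 ^ k) (2 ^ (k + 1)),
            ((Fast F (1 / ((N : ℝ) + 1)) ((r : ℝ) + 1) s n).ncard : ℝ)) / 2 ^ k ≤ D := hk3
        rwa [div_le_iff₀ (by positivity)] at h1)
      (by
        intro n hn
        have hb := hbig n hn
        have hsub : W n ⊆ Fast F (1 / ((N : ℝ) + 1)) ((r : ℝ) + 1) s n ∪ (W n \ J) := by
          intro j hj
          by_cases hjJ : j ∈ J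
          · left
            have h1 : |E j - ((n : ℝ) + 1) ^ 2| ≤ (r : ℝ) + 1 := hj
            refine ⟨by nlinarith, hfast j ?_ hjJ, by rw [hFs]; exact h1⟩
            by_contra hlt
            have h2 : E j ≤ E (max J0 J1) := hEg.mono (not_le.1 hlt).le
            have h3 := (abs_le.1 h1).1
            nlinarith
          · exact Or.inr ⟨hj, hjJ⟩
        have hfin : (Fast F (1 / ((N : ℝ) + 1)) ((r : ℝ) + 1) s n).Finite :=
          (hWf n).subset fun j hj => by
            have h1 := hj.2.2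
            rw [hFs] at h1
            exact h1
        exact (ncard_le_ncard hsub (hfin.union ((hWf n).subset sdiff_subset))).trans
          (ncard_union_le _ _))
      (by
        have h1 := sum_ncard_le (Finset.Ico (2 ^ k) (2 ^ (k + 1))) (fun n => W n \ J)
          {j | j ∉ J ∧ E j ≤ 4 ^ (k + 2)} ((hEfin (4 ^ (k + 2))).subset fun j hj => hj.2) (by
            intro n hn j hj
            have hb := hbig n hn
            have h1 : |E j - ((n : ℝ) + 1) ^ 2| ≤ (r : ℝ) + 1 := hj.1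
            have h2 := (abs_le.1 h1).2
            refine ⟨hj.2, ?_⟩
            rw [Finset.mem_Ico] at hn
            have h3 : (n : ℝ) + 1 ≤ 2 ^ (k + 1) := by
              have : n + 1 ≤ 2 ^ (k + 1) := hn.2
              exact_mod_cast this
            have h4 : ((n : ℝ) + 1) ^ 2 ≤ 4 ^ (k + 1) := by
              calc ((n : ℝ) + 1) ^ 2 ≤ (2 ^ (k + 1)) ^ 2 := pow_le_pow_left₀ (by positivity) h3 2
                _ = 4 ^ (k + 1) := by rw [← pow_mul, mul_comm, pow_mul]; norm_num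
            have h5 : (4 : ℝ) ^ (k + 2) = 4 * 4 ^ (k + 1) := by ring
            have h6 : (r : ℝ) + 1 ≤ ((n : ℝ) + 1) ^ 2 := by nlinarith
            rw [h5]
            have h7 : (0 : ℝ) < 4 ^ (k + 1) := by positivity
            linarith) (by
            intro n hn m hm hnm
            rw [Set.disjoint_left]
            intro j hj hj'
            have hb := hbig n hn
            have hb' := hbig m hm
            have h1 : |E j - ((n : ℝ) + 1) ^ 2| ≤ (r : ℝ) + 1 := hj.1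
            have h2 : |E j - ((m : ℝ) + 1) ^ 2| ≤ (r : ℝ) + 1 := hj'.1
            rw [abs_le] at h1 h2
            rcases lt_or_gt_of_ne hnm with h3 | h3
            · have h4 : (n : ℝ) + 1 ≤ m := by exact_mod_cast h3
              nlinarith
            · have h4 : (m : ℝ) + 1 ≤ n := by exact_mod_cast h3
              nlinarith)
        have h2 := h1.trans hk4
        exact_mod_cast h2)
      (by
        intro n hn hWn
        exact win a (b (s • h)) (hFm _).sb (hFm _).nb e E hEg (fun l => ex l n) (fun l => ey l n)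
          (hbxx n) (((n : ℝ) + 1) ^ 2) Q ((r : ℝ) + 1) (by positivity) hQ (by linarith)
          (fun l j => hqm n l j) (fun l => hbyy l n) B hBp (hWf n) (by
            have : (W n).ncard ≤ B := by omega
            exact this))
      le_rfl
    obtain ⟨h1, l, h2⟩ := hj1
    rw [Finset.mem_Ico] at hn
    exact ⟨l, n, j, by omega, hj2, h1, h2⟩
  -- one test function
  obtain ⟨l, hl⟩ : ∃ l : Fin q, ∃ᶠ k : ℕ in atTop, ∃ n j : ℕ, k ≤ n ∧ j ∈ J ∧
      |E j - ((n : ℝ) + 1) ^ 2| ≤ (r : ℝ) + 1 ∧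
      1 / (4 * (B : ℝ)) ≤ (b (s • h) (ex l n) (e j)) ^ 2 := by
    by_contra hno
    push Not at hno
    have h1 : ∀ᶠ k : ℕ in atTop, ∀ l : Fin q, ¬ ∃ n j : ℕ, k ≤ n ∧ j ∈ J ∧
        |E j - ((n : ℝ) + 1) ^ 2| ≤ (r : ℝ) + 1 ∧
        1 / (4 * (B : ℝ)) ≤ (b (s • h) (ex l n) (e j)) ^ 2 := by
      rw [eventually_all]
      intro l
      refine (hno l).mono fun k hk hex => ?_
      obtain ⟨n, j, h1, h2, h3, h4⟩ := hex
      exact absurd (hk n j h1 h2 h3) (not_lt.2 h4)
    exact hmain (h1.mono fun k hk hex => by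
      obtain ⟨l, hl⟩ := hex
      exact hk l hl)
  obtain ⟨φ, hφ, hφB⟩ := extraction_of_frequently_atTop hl
  choose n j hn hjJ hjW hjO using hφB
  have hnt : Tendsto n atTop atTop := tendsto_atTop_mono (fun t => (hφ.id_le t).trans (hn t))
    tendsto_id
  have hEt : Tendsto (fun t => E (j t)) atTop atTop := by
    have h1 : Tendsto (fun t : ℕ => (n t : ℝ) + -((r : ℝ) + 1)) atTop atTop :=
      tendsto_atTop_add_const_right _ _ (tendsto_natCast_atTop_atTop.comp hnt)
    refine tendsto_atTop_mono (fun t => ?_) h1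
    have h2 := (abs_le.1 (hjW t)).1
    have h4 : (0 : ℝ) ≤ (n t : ℕ) := Nat.cast_nonneg _
    nlinarith
  have hjt : Tendsto j atTop atTop := by
    rw [tendsto_atTop]
    intro A
    filter_upwards [hEt.eventually (eventually_gt_atTop (E A))] with t ht
    by_contra hlt
    have := hEg.mono (not_le.1 hlt).le
    linarith
  have hjt' : Tendsto j atTop (atTop ⊓ 𝓟 J) :=
    tendsto_inf.2 ⟨hjt, tendsto_principal.2 (Eventually.of_forall hjJ)⟩
  have hsq : ∀ u : H, ∫ x, Real.exp (s * h x) * (i u x) ^ 2 ∂μ = b (s • h) u u := by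
    intro u
    rw [hB]
    refine integral_congr_ae (Eventually.of_forall fun x => ?_)
    beta_reduce
    rw [hsh, sq]
  have hc0 : (0 : ℝ) < 1 / (4 * (B : ℝ)) := by
    have : (0 : ℝ) < B := by exact_mod_cast hBp
    positivity
  refine tCyl M μ h L H i a p hL h.continuous h0 hCy s ((r : ℝ) + 1)
    (Real.sqrt (1 / (4 * (B : ℝ)))) (χ l)
    (Real.sqrt_pos.2 hc0) (hχ l) (hχ0 l) (fun t => e (j t)) (fun t => E (j t)) n
    hnt hjW (fun t => ?_) (fun t v => ?_) (fun t => ?_) ?_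
  · rw [hsq, hEg.orth, if_pos rfl]
  · rw [hEg.eig, hB]
    rfl
  · have h1 := hjO t
    rw [hbx] at h1
    rw [← Real.sqrt_sq_eq_abs]
    exact Real.sqrt_le_sqrt h1
  · intro f hf
    have h1 := (hJ ⟨f, hf⟩).comp hjt'
    exact h1

end

end Pool.Agent.H240.QX
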