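import Pool.Agent.H240.QX.Core

/-!
# Exceptional sets of eigenvectors: almost every parameter
-/

set_option autoImplicit false

open Set Filter Topology MeasureTheory
open scoped Real ContDiff

noncomputable section

namespace Pool.Agent.H240.QX

open Pool.Agent.Y262.QE Pool.Agent.Y264.QR

/-- the set of the scales `k` for which more than `C 2 ^ k` indices outside of `J` have an eigenvalue
at most `4 ^ k` -/
def Scales (E : ℕ → ℝ) (J : Set ℕ) (C : ℕ) : Set ℕ :=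
  {k | C * 2 ^ k < {j | j ∉ J ∧ E j ≤ 4 ^ k}.ncard}

/-- upper density one -/
def UDOne (S : Set ℕ) : Prop :=
  ∀ δ : ℝ, 0 < δ → ∃ᶠ K : ℕ in atTop, (1 - δ) * K ≤ ((S ∩ Iio K).ncard : ℝ)

theorem udOne_shift {S T : Set ℕ} (hS : UDOne S) (m : ℕ) (h : ∀ k ∈ S, k + m ∈ T) : UDOne T := by
  classical
  intro δ hδ
  have h2 := hS (δ / 2) (by positivity)
  obtain ⟨K1, hK1⟩ := exists_nat_gt (2 * (m : ℝ) / δ)
  have h3 := (h2.and_eventually (eventually_ge_atTop K1))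
  rw [frequently_atTop] at h3 ⊢
  intro A
  obtain ⟨K, hKA, hK, hKK⟩ := h3 A
  refine ⟨K + m, by omega, ?_⟩
  have e1 : (S ∩ Iio K).ncard ≤ (T ∩ Iio (K + m)).ncard := by
    refine ncard_le_ncard_of_injOn (fun k => k + m) (fun k hk => ⟨h k hk.1, ?_⟩) ?_ ?_
    · have := hk.2
      simp only [mem_Iio] at this ⊢
      omega
    · intro x _ y _ hxy
      have : x + m = y + m := hxy
      omega
    · exact (finite_Iio _).subset inter_subset_right
  have e2 : ((S ∩ Iio K).ncard : ℝ) ≤ ((T ∩ Iio (K + m)).ncard : ℝ) := by exact_mod_cast e1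
  have e3 : (K1 : ℝ) ≤ K := by exact_mod_cast hKK
  rw [div_lt_iff₀ hδ] at hK1
  have hm0 : (0 : ℝ) ≤ m := Nat.cast_nonneg m
  have hδm : 0 ≤ δ * m := mul_nonneg hδ.le hm0
  push_cast
  nlinarith

section

variable {M : Type} [MetricSpace M] [CompactSpace M] [MeasurableSpace M] [BorelSpace M]
  {μ : Measure M} [IsFiniteMeasure μ] {h : C(M, ℝ)} {L : ℝ}
  {H : Type} [NormedAddCommGroup H] [InnerProductSpace ℝ H] {i : H →L[ℝ] Lp ℝ 2 μ}
  {a : H →L[ℝ] H →L[ℝ] ℝ} {p : H → ℕ → ℝ → ℝ}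

theorem core2 [CompleteSpace H] (hL : 0 < L) (hCy : Cy μ (h : M → ℝ) L i a p)
    (b : C(M, ℝ) → H →L[ℝ] H →L[ℝ] ℝ) (hB : IsB μ i b)
    (h0 : ∀ x, 0 ≤ h x) (hpos : 0 < ∫ x, h x ∂μ) :
    ∀ᵐ s : ℝ, ∀ (e : ℕ → H) (E : ℕ → ℝ), Eg a (b (s • h)) e E →
      ∀ J : Set ℕ, (∀ f : C(M, ℝ), Tendsto (fun j => kap μ i f (s • h) (e j)) (atTop ⊓ 𝓟 J)
        (𝓝 (avg μ f (s • h)))) → ∀ C : ℕ, UDOne (Scales E J C) := by
  classical
  have hSf : Sf μ i a := sf_of_cy hL hCy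
  obtain ⟨b0, hB0, hF, hA, hexp, hk⟩ := tFm M μ H i a hSf
  have hbb : b0 = b := by
    funext ψ
    ext u v
    rw [hB0, hB]
  subst hbb
  obtain ⟨k, ksym, k1, k2⟩ := hk h
  obtain ⟨l1, l2, l3, -, l5⟩ := tLip M μ H a b0 hF hexp
  -- the forms as functions of the parameter
  have hmono : ∀ (s t : ℝ), s ≤ t → ∀ v, b0 (s • h) v v ≤ b0 (t • h) v v := by
    intro s t hst v
    have h1 := k2 (s • h) v (t - s)
    have e1 : s • h + (t - s) • h = t • h := by rw [← add_smul]; congr 1; ring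
    rw [e1] at h1
    have h2 : 0 ≤ k (s • h) v v := by
      rw [(k1 _ _).1]
      exact integral_nonneg fun x => mul_nonneg (h0 x) (mul_nonneg (Real.exp_pos _).le (sq_nonneg _))
    nlinarith
  have E1 : ∀ (j : ℕ) (s t : ℝ), s ≤ t → Ev a (b0 (t • h)) j ≤ Ev a (b0 (s • h)) j :=
    fun j s t hst => by
      have h1 := (Pool.Agent.Y592.QE.mon H a (b0 (s • h)) (b0 (t • h)) (hF _) (hF _) 1 one_pos
        (fun v => by rw [one_mul]; exact hmono s t hst v) j).2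
      rwa [one_mul] at h1
  have hLp : ∀ (j : ℕ) (s t : ℝ), Ev a (b0 (s • h)) j ≤
      Real.exp (‖h‖ * |s - t|) * Ev a (b0 (t • h)) j := by
    intro j s t
    have h1 := l3 (s • h) (t • h) j
    have e1 : ‖(s • h) - (t • h)‖ = ‖h‖ * |s - t| := by
      rw [← sub_smul, norm_smul, Real.norm_eq_abs, mul_comm]
    rw [e1] at h1
    exact h1
  have E2 : ∀ (j : ℕ) (s t : ℝ), s ≤ t →
      Ev a (b0 (s • h)) j ≤ Real.exp (‖h‖ * (t - s)) * Ev a (b0 (t • h)) j := fun j s t hst => by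
    have h1 := hLp j s t
    rwa [abs_sub_comm, abs_of_nonneg (by linarith)] at h1
  -- the Weyl bound
  have E3 : ∀ R : ℝ, ∃ C : ℝ, ∀ s, |s| ≤ R → ∀ (j : ℕ) (lam : ℝ), 1 ≤ lam →
      Ev a (b0 (s • h)) j ≤ lam → (j + 1 : ℝ) ≤ C * lam := by
    intro R
    obtain ⟨C, hC⟩ := hSf.wy
    set X : ℝ := Real.exp (R * ‖h‖) with hX
    by_cases hR : 0 ≤ R
    swap
    · exact ⟨0, fun s hs => absurd ((abs_nonneg s).trans hs) hR⟩
    have hX1 : 1 ≤ X := by
      rw [hX]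
      exact Real.one_le_exp (mul_nonneg hR (norm_nonneg _))
    have hX0 : 0 < X := by linarith
    refine ⟨2 * (|C| * X), fun s hs j lam h1 h2 => ?_⟩
    refine Pool.Agent.Y592.QE.cnt H a (b0 (s • h)) (hF _) (|C| * X) ?_ j lam h1 h2
    intro ε hε hε1
    obtain ⟨N, l, hN, hl⟩ := hC (ε / X) (by positivity) (by
      rw [div_le_one hX0]
      linarith)
    refine ⟨N, fun n => Real.sqrt X • l n, ?_, fun v => ?_⟩
    · refine hN.trans ?_
      rw [div_div_eq_mul_div]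
      exact div_le_div_of_nonneg_right (mul_le_mul_of_nonneg_right (le_abs_self C) hX0.le) hε.le
    · have h3 : b0 (s • h) v v ≤ X * ‖i v‖ ^ 2 := by
        have h4 := hexp (s • h) 0 v
        have h5 : b0 0 v v = ‖i v‖ ^ 2 := by
          rw [hB0, ← real_inner_self_eq_norm_sq, L2.inner_def]
          refine integral_congr_ae (Eventually.of_forall fun x => ?_)
          simp [ContinuousMap.zero_apply, Real.exp_zero, sq]
        rw [h5, sub_zero, norm_smul, Real.norm_eq_abs] at h4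
        refine h4.trans (mul_le_mul_of_nonneg_right ?_ (sq_nonneg _))
        exact Real.exp_le_exp.2 (mul_le_mul_of_nonneg_right hs (norm_nonneg _))
      have h6 := hl v
      have h7 : ∑ n, ((Real.sqrt X • l n) v) ^ 2 = X * ∑ n, (l n v) ^ 2 := by
        rw [Finset.mul_sum]
        refine Finset.sum_congr rfl fun n _ => ?_
        rw [smul_apply, smul_eq_mul, mul_pow, Real.sq_sqrt hX0.le]
      rw [h7]
      calc b0 (s • h) v v ≤ X * ‖i v‖ ^ 2 := h3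
        _ ≤ X * (ε / X * a v v + ∑ n, (l n v) ^ 2) := mul_le_mul_of_nonneg_left h6 hX0.le
        _ = ε * a v v + X * ∑ n, (l n v) ^ 2 := by
          field_simp
  -- a choice of the systems of eigenvectors
  set Bad : ℝ → (ℕ → H) × (ℕ → ℝ) → Prop := fun s x => Eg a (b0 (s • h)) x.1 x.2 ∧
    ∃ J : Set ℕ, (∀ f : C(M, ℝ), Tendsto (fun j => kap μ i f (s • h) (x.1 j)) (atTop ⊓ 𝓟 J)
        (𝓝 (avg μ f (s • h)))) ∧ ∃ C : ℕ, ¬ UDOne (Scales x.2 J C) with hBad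
  have hsel : ∀ s : ℝ, ∃ x : (ℕ → H) × (ℕ → ℝ), Eg a (b0 (s • h)) x.1 x.2 ∧
      ((∃ y, Bad s y) → Bad s x) := by
    intro s
    by_cases hb : ∃ y, Bad s y
    · obtain ⟨y, hy⟩ := hb
      exact ⟨y, hy.1, fun _ => hy⟩
    · obtain ⟨e, E, hE⟩ := tSp H a (b0 (s • h)) (hF _)
      exact ⟨(e, E), hE, fun h => absurd h hb⟩
  choose x hx hxb using hsel
  have hmm : ∀ s j, Ev a (b0 (s • h)) j = (x s).2 j := fun s j =>
    Pool.Agent.Y592.QE.mm H a (b0 (s • h)) (hF _) (x s).1 (x s).2 (hx s) j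
  have c1 := Pool.Agent.Y147.QR.stAE (fun j t => Ev a (b0 (t • h)) j)
    (fun j t => kap μ i h (t • h) ((x t).1 j)) ‖h‖ (fun j t => l1 _ _)
    (fun i' j t hij => l2 _ _ _ hij) hLp (by
      intro i' j t hij hl ε hε
      have hij' : (x t).2 i' = (x t).2 j := by rw [← hmm, ← hmm]; exact hij
      have hl' : ∀ l, l < i' → (x t).2 l < (x t).2 i' := by
        intro l hli
        rw [← hmm, ← hmm]
        exact hl l hli
      obtain ⟨δ, hδ, h1⟩ := tDer0 H a (b0 (t • h)) (hF _) (x t).1 (x t).2 (hx t)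
        (k (t • h)) ‖h‖ (ksym _) (fun v => (k1 _ v).2) i' j hij' hl' ε hε
      refine ⟨δ, hδ, fun τ hτ => ?_⟩
      have h2 := h1 τ hτ (b0 ((t + τ) • h)) (by
        intro v
        have h3 := k2 (t • h) v τ
        have e1 : t • h + τ • h = (t + τ) • h := by rw [add_smul]
        rw [e1] at h3
        exact h3)
      rw [(k1 _ _).1, ← hmm] at h2
      exact h2)
  have c2 := meas2 (fun j s => Ev a (b0 (s • h)) j) ‖h‖ (fun j s => l1 _ _) E1 E2 E3
  filter_upwards [c1, c2] with s hs1 hs2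
  by_contra hcon
  push Not at hcon
  obtain ⟨e, E, hE, J, hJ, C, hC⟩ := hcon
  have hbad := hxb s ⟨(e, E), hE, J, hJ, C, hC⟩
  obtain ⟨hE', J', hJ', C', hC'⟩ := hbad
  apply hC'
  obtain ⟨N, r, hNr⟩ := det hL hCy b0 hB0 hF h0 hpos s (x s).1 (x s).2 hE' (hmm s)
    (fun j => hs1 j) J' hJ' (4 * C')
  obtain ⟨D, hD⟩ := hs2 N r
  refine udOne_shift (S := {k | (4 * C') * 2 ^ k <
    {j | j ∉ J' ∧ (x s).2 j ≤ 4 ^ (k + 2)}.ncard}) ?_ 2 ?_
  · intro δ hδ
    exact dens_one (fun k => Av (fun j t => Ev a (b0 (t • h)) j) (1 / ((N : ℝ) + 1))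
      ((r : ℝ) + 1) s k) (fun k => by unfold Av; positivity) D hD _ (fun D' => hNr D') δ hδ
  · intro k hk
    have h1 : (4 * C') * 2 ^ k < {j | j ∉ J' ∧ (x s).2 j ≤ 4 ^ (k + 2)}.ncard := hk
    show C' * 2 ^ (k + 2) < {j | j ∉ J' ∧ (x s).2 j ≤ 4 ^ (k + 2)}.ncard
    have h2 : C' * 2 ^ (k + 2) = 4 * C' * 2 ^ k := by ring
    rw [h2]
    exact h1

end

end Pool.Agent.H240.QX
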