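import Pool.Agent.H240.QX.Core2

/-!
# Exceptional sets of eigenvectors with respect to finitely many test functions
-/

set_option autoImplicit false

open Set Filter Topology MeasureTheory
open scoped Real ContDiff

noncomputable section

namespace Pool.Agent.H240.QX

open Pool.Agent.Y262.QE Pool.Agent.Y264.QR

/-- density: the version with explicit constants -/
theorem dens_one' (A : ℕ → ℝ) (hA : ∀ k, 0 ≤ A k) (D : ℕ)
    (hD : ∃ᶠ K : ℕ in atTop, ∑ k ∈ Finset.range K, A k ≤ D * K) (S : Set ℕ) (δ : ℝ) (hδ : 0 < δ)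
    (D' : ℕ) (hD' : 2 * (D : ℝ) / δ < D')
    (hS : ∀ᶠ k in atTop, A k ≤ D' → k ∈ S) :
    ∃ᶠ K : ℕ in atTop, (1 - δ) * K ≤ ((S ∩ Iio K).ncard : ℝ) := by
  classical
  obtain ⟨k0, hk0⟩ := eventually_atTop.1 hS
  obtain ⟨K0, hK0⟩ := exists_nat_gt (2 * (k0 : ℝ) / δ)
  refine (hD.and_eventually (eventually_ge_atTop (K0 + 1))).mono fun K hK => ?_
  obtain ⟨h1, h2⟩ := hK
  have hKpos : (0 : ℝ) < K := by
    have : 0 < K := by omega
    exact_mod_cast this
  set Z := (Finset.range K).filter fun k => k ∉ S with hZ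
  have h3 : ((S ∩ Iio K).ncard : ℝ) + Z.card = K := by
    have e1 : S ∩ Iio K = ((Finset.range K).filter fun k => k ∈ S : Finset ℕ) := by
      ext k
      simp only [mem_inter_iff, mem_Iio, Finset.coe_filter, Finset.mem_range, mem_ofPred_eq]
      exact and_comm
    rw [e1, ncard_coe_finset, hZ]
    have := Finset.card_filter_add_card_filter_not (s := Finset.range K) (fun k => k ∈ S)
    rw [Finset.card_range] at this
    exact_mod_cast this
  have h4 : Z ⊆ Finset.range k0 ∪ (Finset.range K).filter fun k => (D' : ℝ) < A k := by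
    intro k hk
    rw [hZ, Finset.mem_filter] at hk
    rw [Finset.mem_union]
    by_cases hkk : k < k0
    · exact Or.inl (Finset.mem_range.2 hkk)
    · right
      rw [Finset.mem_filter]
      refine ⟨hk.1, ?_⟩
      by_contra hcon
      exact hk.2 (hk0 k (not_lt.1 hkk) (not_lt.1 hcon))
  have h5 : (((Finset.range K).filter fun k => (D' : ℝ) < A k).card : ℝ) * D' ≤ D * K := by
    refine le_trans ?_ h1
    rw [← nsmul_eq_mul]
    refine (Finset.card_nsmul_le_sum _ _ _ fun k hk => ?_).trans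
      (Finset.sum_le_sum_of_subset_of_nonneg (Finset.filter_subset _ _) fun k _ _ => hA k)
    exact (Finset.mem_filter.1 hk).2.le
  have h6 : (Z.card : ℝ) ≤ k0 + (((Finset.range K).filter fun k => (D' : ℝ) < A k).card : ℝ) := by
    have := (Finset.card_le_card h4).trans (Finset.card_union_le _ _)
    rw [Finset.card_range] at this
    exact_mod_cast this
  have hD'0 : (0 : ℝ) < D' := lt_of_le_of_lt (by positivity) hD'
  have h7 : (((Finset.range K).filter fun k => (D' : ℝ) < A k).card : ℝ) ≤ δ / 2 * K := by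
    set z := (((Finset.range K).filter fun k => (D' : ℝ) < A k).card : ℝ) with hz
    rw [div_lt_iff₀ hδ] at hD'
    have h8 : z * D' ≤ (δ / 2 * K) * D' := by
      refine h5.trans ?_
      have : (D : ℝ) ≤ δ / 2 * D' := by linarith
      nlinarith
    exact le_of_mul_le_mul_right h8 hD'0
  have h8 : (k0 : ℝ) ≤ δ / 2 * K := by
    rw [div_lt_iff₀ hδ] at hK0
    have : (K0 : ℝ) ≤ K := by
      have : K0 ≤ K := by omega
      exact_mod_cast this
    nlinarith
  linarith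

theorem dens_shift {S T : Set ℕ} (δ : ℝ) (hδ : 0 < δ)
    (hS : ∃ᶠ K : ℕ in atTop, (1 - δ / 2) * K ≤ ((S ∩ Iio K).ncard : ℝ)) (m : ℕ)
    (h : ∀ k ∈ S, k + m ∈ T) :
    ∃ᶠ K : ℕ in atTop, (1 - δ) * K ≤ ((T ∩ Iio K).ncard : ℝ) := by
  classical
  obtain ⟨K1, hK1⟩ := exists_nat_gt (2 * (m : ℝ) / δ)
  have h3 := (hS.and_eventually (eventually_ge_atTop K1))
  rw [frequently_atTop] at h3 ⊢
  intro A
  obtain ⟨K, hKA, hK, hKK⟩ := h3 A
  refine ⟨K + m, by omega, ?_⟩
  have e1 : (S ∩ Iio K).ncard ≤ (T ∩ Iio (K + m)).ncard := by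
    refine ncard_le_ncard_of_injOn (fun k => k + m) (fun k hk => ⟨h k hk.1, ?_⟩) ?_ ?_
    · have := hk.2
      simp only [mem_Iio] at this ⊢
      omega
    · intro x _ y _ hxy
      have : x + m = y + m := hxy
      omega
    · exact (finite_Iio _).subset inter_subset_right
  have e2 : ((S ∩ Iio K).ncard : ℝ) ≤ ((T ∩ Iio (K + m)).ncard : ℝ) := by exact_mod_cast e1
  have e3 : (K1 : ℝ) ≤ K := by exact_mod_cast hKK
  rw [div_lt_iff₀ hδ] at hK1
  have hm0 : (0 : ℝ) ≤ m := Nat.cast_nonneg m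
  have hδm : 0 ≤ δ * m := mul_nonneg hδ.le hm0
  push_cast
  nlinarith

section

variable {M : Type} [MetricSpace M] [CompactSpace M] [MeasurableSpace M] [BorelSpace M]
  {μ : Measure M} [IsFiniteMeasure μ] {h : C(M, ℝ)} {L : ℝ}
  {H : Type} [NormedAddCommGroup H] [InnerProductSpace ℝ H] {i : H →L[ℝ] Lp ℝ 2 μ}
  {a : H →L[ℝ] H →L[ℝ] ℝ} {p : H → ℕ → ℝ → ℝ}

/-- the indices of the eigenvectors for which the mass of one of the functions in `G` deviates from the
mean value by at least `ε` -/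
def Exc (μ : Measure M) (i : H →L[ℝ] Lp ℝ 2 μ) (φ : C(M, ℝ)) (G : Finset C(M, ℝ)) (ε : ℝ)
    (e : ℕ → H) : Set ℕ :=
  {j | ∃ f ∈ G, ε ≤ |kap μ i f φ (e j) - avg μ f φ|}

/-- the scales with more than `C 2 ^ k` exceptional eigenvectors -/
def ScalesX (X : Set ℕ) (E : ℕ → ℝ) (C : ℕ) : Set ℕ :=
  {k | C * 2 ^ k < {j | j ∈ X ∧ E j ≤ 4 ^ k}.ncard}

theorem det3 (hL : 0 < L) (hCy : Cy μ (h : M → ℝ) L i a p)
    (b : C(M, ℝ) → H →L[ℝ] H →L[ℝ] ℝ) (hB : IsB μ i b) (hFm : ∀ φ, Fm a (b φ))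
    (hkb : ∀ (f φ : C(M, ℝ)) (v : H), |kap μ i f φ v| ≤ ‖f‖ * b φ v v)
    (h0 : ∀ x, 0 ≤ h x) (hpos : 0 < ∫ x, h x ∂μ) (s : ℝ) (C : ℕ) (δ : ℝ) (hδ : 0 < δ)
    (G : ℕ → Finset C(M, ℝ)) (hGh : ∀ l, h ∈ G l)
    (hG : ∀ f : C(M, ℝ), ∀ ε : ℝ, 0 < ε → ∃ l0, ∀ l, l0 ≤ l → ∃ g ∈ G l, ‖f - g‖ < ε) :
    ∃ N r : ℕ, ∀ D : ℕ, (∃ᶠ K : ℕ in atTop, ∑ k ∈ Finset.range K,
        Av (fun j t => Ev a (b (t • h)) j) (1 / ((N : ℝ) + 1)) ((r : ℝ) + 1) s k ≤ D * K) →
      ∀ (e : ℕ → ℕ → H) (E : ℕ → ℝ), (∀ l, Eg a (b (s • h)) (e l) E) →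
        (∀ j, Ev a (b (s • h)) j = E j) →
        (∀ l j, HasDerivAt (fun t : ℝ => Ev a (b (t • h)) j)
          (-(kap μ i h (s • h) (e l j) * Ev a (b (s • h)) j)) s) →
        ∃ l, ∃ᶠ K : ℕ in atTop, (1 - δ) * K ≤
          ((ScalesX (Exc μ i (s • h) (G l) (1 / ((l : ℝ) + 1)) (e l)) E C ∩ Iio K).ncard : ℝ) := by
  classical
  set q : ℕ := 4 * (4 * C) + 4 with hqd
  obtain ⟨χ, hχ, hχ0, hχ1⟩ := bumps L hL q (by omega)
  have hχ' : ∀ l, Tst L fun x => -(iteratedDeriv 2 (χ l) x) := fun l =>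
    Pool.Agent.Y412.QE.tst_dd (hχ l)
  choose ex hx1 hx2 hx3 using fun l => hCy.k2 (χ l) (hχ l)
  choose ey hy1 hy2 hy3 using fun l => hCy.k2 _ (hχ' l)
  set Q : ℝ := ∑ l, Real.sqrt (∫ x in Ioo 0 L, (-(iteratedDeriv 2 (χ l) x)) ^ 2) with hQd
  have hQ : 0 ≤ Q := Finset.sum_nonneg fun l _ => Real.sqrt_nonneg _
  obtain ⟨r, hr⟩ := exists_nat_ge (2 * Q)
  set m0 : ℝ := avg μ h (s • h) with hm0d
  have hm0 : 0 < m0 := avg_pos h0 hpos _
  obtain ⟨N, hN⟩ := exists_nat_one_div_lt (half_pos hm0)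
  -- forms of the functions on the cylinder
  have hsh : ∀ x, (s • h : C(M, ℝ)) x = s * h x := fun x => rfl
  have hin : ∀ u v : H, inner ℝ (i u) (i v) = ∫ x, i u x * i v x ∂μ := by
    intro u v
    rw [L2.inner_def]
    refine integral_congr_ae (Eventually.of_forall fun x => ?_)
    simp only [RCLike.inner_apply, conj_trivial]
    ring
  have hbi : ∀ u : H, (∀ᵐ x ∂μ, i u x ≠ 0 → h x = 0) → ∀ v, b (s • h) u v = inner ℝ (i u) (i v) := by
    intro u hu v
    rw [hB, hin]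
    refine integral_congr_ae ?_
    filter_upwards [hu] with x hx
    by_cases h1 : i u x = 0
    · rw [h1]
      ring
    · rw [hsh, hx h1, mul_zero, Real.exp_zero, one_mul]
  have hbx : ∀ l n v, b (s • h) (ex l n) v = ∫ x in Ioo 0 L, χ l x * p v n x := fun l n v => by
    rw [hbi _ (hx2 l n), (hx3 l n v).1]
  have hby : ∀ l n v, b (s • h) (ey l n) v =
      ∫ x in Ioo 0 L, (-(iteratedDeriv 2 (χ l) x)) * p v n x := fun l n v => by
    rw [hbi _ (hy2 l n), (hy3 l n v).1]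
  have hbxx : ∀ n l l', b (s • h) (ex l n) (ex l' n) = if l = l' then 1 else 0 := by
    intro n l l'
    have e1 : ∀ l, inner ℝ (i (ex l n)) (i (ex l n)) = ∫ t in Ioo 0 L, (χ l t) ^ 2 := fun l => by
      rw [hx1, if_pos rfl]
    rw [hbi _ (hx2 l n), ortho hCy (χ l) (χ l') (hχ l) (hχ l') n (ex l n) (ex l' n)
      (fun v => (hx3 l n v).1) (fun v => (hx3 l' n v).1) (e1 l) (e1 l'), hχ1]
  have hbyy : ∀ l n, b (s • h) (ey l n) (ey l n) ≤ Q ^ 2 := by
    intro l n
    rw [hbi _ (hy2 l n), hy1, if_pos rfl]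
    have h1 : 0 ≤ ∫ x in Ioo 0 L, (-(iteratedDeriv 2 (χ l) x)) ^ 2 :=
      integral_nonneg fun x => sq_nonneg _
    have h2 : Real.sqrt (∫ x in Ioo 0 L, (-(iteratedDeriv 2 (χ l) x)) ^ 2) ≤ Q := by
      rw [hQd]
      exact Finset.single_le_sum (f := fun l => Real.sqrt (∫ x in Ioo 0 L,
        (-(iteratedDeriv 2 (χ l) x)) ^ 2)) (fun l _ => Real.sqrt_nonneg _) (Finset.mem_univ l)
    calc _ = (Real.sqrt (∫ x in Ioo 0 L, (-(iteratedDeriv 2 (χ l) x)) ^ 2)) ^ 2 :=
          (Real.sq_sqrt h1).symm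
      _ ≤ Q ^ 2 := pow_le_pow_left₀ (Real.sqrt_nonneg _) h2 2
  refine ⟨N, r, fun D hD e E hEg hEv hder => ?_⟩
  have hqm : ∀ (m n : ℕ) l j, (E j - ((n : ℝ) + 1) ^ 2) * b (s • h) (ex l n) (e m j) =
      b (s • h) (ey l n) (e m j) := by
    intro m n l j
    have h1 : E j * b (s • h) (ex l n) (e m j) = a (ex l n) (e m j) := by
      rw [(hFm _).sb, ← (hEg m).eig j, hCy.sa]
    rw [sub_mul, h1, (hx3 l n (e m j)).2, hbx, hby]
    have i1 := Pool.Agent.Y412.QE.tst_int (hχ' l) (hCy.mem (e m j) n)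
    have i2 := Pool.Agent.Y412.QE.tst_int (hχ l) (hCy.mem (e m j) n)
    rw [← integral_const_mul, ← integral_sub]
    · refine integral_congr_ae (Eventually.of_forall fun x => ?_)
      beta_reduce
      ring
    · have i3 := i1.add (i2.const_mul (((n : ℝ) + 1) ^ 2))
      refine i3.congr (Eventually.of_forall fun x => ?_)
      simp only [Pi.add_apply]
      ring
    · exact i2.const_mul _
  -- the windows
  have hEtt : Tendsto E atTop atTop := (hEg 0).tt
  have hEmono : Monotone E := (hEg 0).mono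
  have hEfin : ∀ Λ : ℝ, {j | E j ≤ Λ}.Finite := by
    intro Λ
    obtain ⟨j0, hj0⟩ := (hEtt.eventually (eventually_gt_atTop Λ)).exists_forall_of_atTop
    refine (Set.finite_Iio j0).subset fun j hj => ?_
    by_contra hcon
    have h1 := hj0 j (not_lt.1 hcon)
    have h2 : E j ≤ Λ := hj
    linarith
  set W : ℕ → Set ℕ := fun n => {j | |E j - ((n : ℝ) + 1) ^ 2| ≤ (r : ℝ) + 1} with hWd
  have hWf : ∀ n, (W n).Finite := fun n =>
    (hEfin (((n : ℝ) + 1) ^ 2 + ((r : ℝ) + 1))).subset fun j hj => by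
      have h1 : |E j - ((n : ℝ) + 1) ^ 2| ≤ (r : ℝ) + 1 := hj
      have h2 := (abs_le.1 h1).2
      show E j ≤ _
      linarith
  obtain ⟨J1, hJ1⟩ := (hEtt.eventually (eventually_gt_atTop 0)).exists_forall_of_atTop
  set F : ℕ → ℝ → ℝ := fun j t => Ev a (b (t • h)) j with hFd
  have hFs : ∀ j, F j s = E j := fun j => hEv j
  have hfast : ∀ m j, J1 ≤ j → 1 / ((N : ℝ) + 1) ≤ kap μ i h (s • h) (e m j) →
      deriv (fun t => Real.log (F j t)) s ≤ -(1 / ((N : ℝ) + 1)) := by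
    intro m j hj h1
    have h2 : 0 < E j := hJ1 j hj
    have h3 : HasDerivAt (F j) (-(kap μ i h (s • h) (e m j) * Ev a (b (s • h)) j)) s := hder m j
    have h4 := h3.log (by rw [hFs]; exact h2.ne')
    have h5 : -(kap μ i h (s • h) (e m j) * Ev a (b (s • h)) j) / F j s =
        -(kap μ i h (s • h) (e m j)) := by
      have h6 : Ev a (b (s • h)) j = F j s := rfl
      rw [h6]
      rw [hFs]
      field_simp
    rw [h5] at h4
    rw [h4.deriv]
    linarith
  obtain ⟨D', hD'⟩ := exists_nat_gt (2 * (D : ℝ) / (δ / 2))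
  by_contra hcon
  push Not at hcon
  set X : ℕ → Set ℕ := fun l => Exc μ i (s • h) (G l) (1 / ((l : ℝ) + 1)) (e l) with hXd
  have hfreq : ∀ l, ∃ᶠ k : ℕ in atTop, Av F (1 / ((N : ℝ) + 1)) ((r : ℝ) + 1) s k ≤ D' ∧
      {j | j ∈ X l ∧ E j ≤ 4 ^ (k + 2)}.ncard ≤ 4 * C * 2 ^ k := by
    intro l
    by_contra hno
    rw [not_frequently] at hno
    have h1 := dens_one' (fun k => Av F (1 / ((N : ℝ) + 1)) ((r : ℝ) + 1) s k)
      (fun k => by unfold Av; positivity) D hD
      {k | 4 * C * 2 ^ k < {j | j ∈ X l ∧ E j ≤ 4 ^ (k + 2)}.ncard} (δ / 2) (by positivity) D' hD'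
      (hno.mono fun k hk hA => by
        show 4 * C * 2 ^ k < _
        by_contra hlt
        exact hk ⟨hA, not_lt.1 hlt⟩)
    have h2 := dens_shift (T := ScalesX (X l) E C) δ hδ h1 2 (fun k hk => by
      show C * 2 ^ (k + 2) < _
      have h3 : C * 2 ^ (k + 2) = 4 * C * 2 ^ k := by ring
      rw [h3]
      exact hk)
    refine h2 ?_
    filter_upwards [hcon l] with K hK
    exact not_le.2 hK
  set B : ℕ := 2 * (D' + 4 * C) + 1 with hBd
  have hBp : 0 < B := by omega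
  set O : ℕ → ℕ → Set ℕ := fun m n => {j | |E j - ((n : ℝ) + 1) ^ 2| ≤ (r : ℝ) + 1 ∧
    ∃ l, 1 / (4 * (B : ℝ)) ≤ (b (s • h) (ex l n) (e m j)) ^ 2} with hOd
  obtain ⟨n0, hn0⟩ := exists_nat_gt (E J1 + 2 * ((r : ℝ) + 1) + 1)
  obtain ⟨l0, hl0⟩ := exists_nat_one_div_lt (half_pos hm0)
  have hE0 : ∀ j, 0 ≤ E j := by
    intro j
    have h1 := (hFm (s • h)).na (e 0 j)
    rw [(hEg 0).eig, (hEg 0).orth, if_pos rfl, mul_one] at h1
    exact h1
  have hstep : ∀ l, l0 ≤ l → ∃ t : Fin q, ∃ n j : ℕ, l ≤ n ∧ j ∉ X l ∧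
      |E j - ((n : ℝ) + 1) ^ 2| ≤ (r : ℝ) + 1 ∧
      1 / (4 * (B : ℝ)) ≤ (b (s • h) (ex t n) (e l j)) ^ 2 := by
    intro l hl
    obtain ⟨k, hk, hk3, hk4⟩ := frequently_atTop.1 (hfreq l) (n0 + r + 1 + l)
    have hk2k : k < 2 ^ k := Nat.lt_two_pow_self
    have hbig : ∀ n ∈ Finset.Ico ((2 : ℕ) ^ k) (2 ^ (k + 1)), (n0 : ℝ) + r + 1 ≤ n := by
      intro n hn
      rw [Finset.mem_Ico] at hn
      have : n0 + r + 1 ≤ n := by omega
      exact_mod_cast this
    have hEm := hE0 J1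
    obtain ⟨n, hn, j, hj1, hj2⟩ := pigeon k q (4 * C) D' W (O l)
      (Fast F (1 / ((N : ℝ) + 1)) ((r : ℝ) + 1) s) (X l)ᶜ hWf
      (fun n j hj => hj.1) (by
        have h1 : (∑ n ∈ Finset.Ico (2 ^ k) (2 ^ (k + 1)),
            ((Fast F (1 / ((N : ℝ) + 1)) ((r : ℝ) + 1) s n).ncard : ℝ)) / 2 ^ k ≤ D' := hk3
        rwa [div_le_iff₀ (by positivity)] at h1)
      (by
        intro n hn
        have hb := hbig n hn
        have hsub : W n ⊆ Fast F (1 / ((N : ℝ) + 1)) ((r : ℝ) + 1) s n ∪ (W n \ (X l)ᶜ) := by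
          intro j hj
          by_cases hjJ : j ∈ (X l)ᶜ
          · left
            have h1 : |E j - ((n : ℝ) + 1) ^ 2| ≤ (r : ℝ) + 1 := hj
            refine ⟨by nlinarith, hfast l j ?_ ?_, by rw [hFs]; exact h1⟩
            · by_contra hlt
              have h2 : E j ≤ E J1 := hEmono (not_le.1 hlt).le
              have h3 := (abs_le.1 h1).1
              nlinarith
            · have h2 : ¬ ∃ f ∈ G l, 1 / ((l : ℝ) + 1) ≤
                  |kap μ i f (s • h) (e l j) - avg μ f (s • h)| := hjJ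
              push Not at h2
              have h3 := h2 h (hGh l)
              have h4 : 1 / ((l : ℝ) + 1) ≤ 1 / ((l0 : ℝ) + 1) := by
                apply one_div_le_one_div_of_le (by positivity)
                have : (l0 : ℝ) ≤ l := by exact_mod_cast hl
                linarith
              have h5 := (abs_lt.1 h3).1
              rw [← hm0d] at h5
              linarith
          · exact Or.inr ⟨hj, hjJ⟩
        have hfin : (Fast F (1 / ((N : ℝ) + 1)) ((r : ℝ) + 1) s n).Finite :=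
          (hWf n).subset fun j hj => by
            have h1 := hj.2.2
            rw [hFs] at h1
            exact h1
        exact (ncard_le_ncard hsub (hfin.union ((hWf n).subset sdiff_subset))).trans
          (ncard_union_le _ _))
      (by
        have h1 := sum_ncard_le (Finset.Ico (2 ^ k) (2 ^ (k + 1))) (fun n => W n \ (X l)ᶜ)
          {j | j ∈ X l ∧ E j ≤ 4 ^ (k + 2)} ((hEfin (4 ^ (k + 2))).subset fun j hj => hj.2) (by
            intro n hn j hj
            have hb := hbig n hn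
            have h1 : |E j - ((n : ℝ) + 1) ^ 2| ≤ (r : ℝ) + 1 := hj.1
            have h2 := (abs_le.1 h1).2
            refine ⟨not_not.1 hj.2, ?_⟩
            rw [Finset.mem_Ico] at hn
            have h3 : (n : ℝ) + 1 ≤ 2 ^ (k + 1) := by
              have : n + 1 ≤ 2 ^ (k + 1) := hn.2
              exact_mod_cast this
            have h4 : ((n : ℝ) + 1) ^ 2 ≤ 4 ^ (k + 1) := by
              calc ((n : ℝ) + 1) ^ 2 ≤ (2 ^ (k + 1)) ^ 2 := pow_le_pow_left₀ (by positivity) h3 2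
                _ = 4 ^ (k + 1) := by rw [← pow_mul, mul_comm, pow_mul]; norm_num
            have h5 : (4 : ℝ) ^ (k + 2) = 4 * 4 ^ (k + 1) := by ring
            have h6 : (r : ℝ) + 1 ≤ ((n : ℝ) + 1) ^ 2 := by nlinarith
            rw [h5]
            have h7 : (0 : ℝ) < 4 ^ (k + 1) := by positivity
            linarith) (by
            intro n hn m hm hnm
            rw [Set.disjoint_left]
            intro j hj hj'
            have hb := hbig n hn
            have hb' := hbig m hm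
            have h1 : |E j - ((n : ℝ) + 1) ^ 2| ≤ (r : ℝ) + 1 := hj.1
            have h2 : |E j - ((m : ℝ) + 1) ^ 2| ≤ (r : ℝ) + 1 := hj'.1
            rw [abs_le] at h1 h2
            rcases lt_or_gt_of_ne hnm with h3 | h3
            · have h4 : (n : ℝ) + 1 ≤ m := by exact_mod_cast h3
              nlinarith
            · have h4 : (m : ℝ) + 1 ≤ n := by exact_mod_cast h3
              nlinarith)
        have h2 := h1.trans hk4
        exact_mod_cast h2)
      (by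
        intro n hn hWn
        exact win a (b (s • h)) (hFm _).sb (hFm _).nb (e l) E (hEg l) (fun l => ex l n)
          (fun l => ey l n) (hbxx n) (((n : ℝ) + 1) ^ 2) Q ((r : ℝ) + 1) (by positivity) hQ
          (by linarith) (fun t j => hqm l n t j) (fun t => hbyy t n) B hBp (hWf n) (by
            have : (W n).ncard ≤ B := by omega
            exact this))
      le_rfl
    obtain ⟨h1, t, h2⟩ := hj1
    rw [Finset.mem_Ico] at hn
    exact ⟨t, n, j, by omega, hj2, h1, h2⟩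
  -- one test function
  obtain ⟨t, ht⟩ : ∃ t : Fin q, ∃ᶠ l : ℕ in atTop, ∃ n j : ℕ, l ≤ n ∧ j ∉ X l ∧
      |E j - ((n : ℝ) + 1) ^ 2| ≤ (r : ℝ) + 1 ∧
      1 / (4 * (B : ℝ)) ≤ (b (s • h) (ex t n) (e l j)) ^ 2 := by
    by_contra hno
    push Not at hno
    have h1 : ∀ᶠ l : ℕ in atTop, ∀ t : Fin q, ¬ ∃ n j : ℕ, l ≤ n ∧ j ∉ X l ∧
        |E j - ((n : ℝ) + 1) ^ 2| ≤ (r : ℝ) + 1 ∧
        1 / (4 * (B : ℝ)) ≤ (b (s • h) (ex t n) (e l j)) ^ 2 := by
      rw [eventually_all]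
      intro t
      refine (hno t).mono fun k hk hex => ?_
      obtain ⟨n, j, h1, h2, h3, h4⟩ := hex
      exact absurd (hk n j h1 h2 h3) (not_lt.2 h4)
    obtain ⟨l, h2, h3⟩ := (h1.and (eventually_ge_atTop l0)).exists
    obtain ⟨t, ht⟩ := hstep l h3
    exact h2 t ht
  obtain ⟨φ, hφ, hφB⟩ := extraction_of_frequently_atTop ht
  choose n j hn hjJ hjW hjO using hφB
  have hnt : Tendsto n atTop atTop := tendsto_atTop_mono (fun t => (hφ.id_le t).trans (hn t))
    tendsto_id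
  have hsq : ∀ u : H, ∫ x, Real.exp (s * h x) * (i u x) ^ 2 ∂μ = b (s • h) u u := by
    intro u
    rw [hB]
    refine integral_congr_ae (Eventually.of_forall fun x => ?_)
    beta_reduce
    rw [hsh, sq]
  have hc0 : (0 : ℝ) < 1 / (4 * (B : ℝ)) := by
    have : (0 : ℝ) < B := by exact_mod_cast hBp
    positivity
  have hbb : ∀ m, b (s • h) (e (φ m) (j m)) (e (φ m) (j m)) = 1 := fun m => by
    rw [(hEg _).orth, if_pos rfl]
  obtain ⟨-, -, hav, -⟩ := tFm M μ H i a (sf_of_cy hL hCy)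
  obtain ⟨b0, -, -, hApos, -⟩ := tFm M μ H i a (sf_of_cy hL hCy)
  refine tCyl M μ h L H i a p hL h.continuous h0 hCy s ((r : ℝ) + 1)
    (Real.sqrt (1 / (4 * (B : ℝ)))) (χ t)
    (Real.sqrt_pos.2 hc0) (hχ t) (hχ0 t) (fun m => e (φ m) (j m)) (fun m => E (j m)) n
    hnt hjW (fun m => ?_) (fun m v => ?_) (fun m => ?_) ?_
  · rw [hsq, hbb]
  · rw [(hEg _).eig, hB]
    rfl
  · have h1 := hjO m
    rw [hbx] at h1
    rw [← Real.sqrt_sq_eq_abs]
    exact Real.sqrt_le_sqrt h1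
  · intro f hf
    set f' : C(M, ℝ) := ⟨f, hf⟩ with hf'
    have h1 : Tendsto (fun m => kap μ i f' (s • h) (e (φ m) (j m))) atTop
        (𝓝 (avg μ f' (s • h))) := by
      rw [Metric.tendsto_atTop]
      intro ε hε
      obtain ⟨l1, hl1⟩ := hG f' (ε / 3) (by positivity)
      obtain ⟨l2, hl2⟩ := exists_nat_one_div_lt (show (0 : ℝ) < ε / 3 by positivity)
      refine ⟨max l1 l2, fun m hm => ?_⟩
      have hφm : m ≤ φ m := hφ.id_le m
      obtain ⟨g, hg, hfg⟩ := hl1 (φ m) (by omega)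
      have h2 : ¬ ∃ f ∈ G (φ m), 1 / (((φ m : ℕ) : ℝ) + 1) ≤
          |kap μ i f (s • h) (e (φ m) (j m)) - avg μ f (s • h)| := hjJ m
      push Not at h2
      have h3 := h2 g hg
      have h4 : 1 / (((φ m : ℕ) : ℝ) + 1) ≤ 1 / ((l2 : ℝ) + 1) := by
        apply one_div_le_one_div_of_le (by positivity)
        have : l2 ≤ φ m := by omega
        have : (l2 : ℝ) ≤ (φ m : ℕ) := by exact_mod_cast this
        linarith
      have h5 : kap μ i f' (s • h) (e (φ m) (j m)) - kap μ i g (s • h) (e (φ m) (j m)) =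
          kap μ i (f' - g) (s • h) (e (φ m) (j m)) := by
        rw [Pool.Agent.Y378.QR.kap_sub]
      have h6 := hkb (f' - g) (s • h) (e (φ m) (j m))
      rw [hbb, mul_one] at h6
      have h7 : |avg μ (f' - g) (s • h)| ≤ ‖f' - g‖ :=
        Pool.Agent.Y155.QR.avg_le μ hApos (s • h) (f' - g)
      have h8 : avg μ f' (s • h) = avg μ g (s • h) + avg μ (f' - g) (s • h) := by
        rw [← Pool.Agent.Y378.QR.avg_add]
        congr 1
        abel
      rw [Real.dist_eq]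
      have h9 : kap μ i f' (s • h) (e (φ m) (j m)) - avg μ f' (s • h) =
          (kap μ i g (s • h) (e (φ m) (j m)) - avg μ g (s • h)) +
          (kap μ i (f' - g) (s • h) (e (φ m) (j m)) - avg μ (f' - g) (s • h)) := by
        rw [h8, ← h5]
        ring
      rw [h9]
      calc _ ≤ |kap μ i g (s • h) (e (φ m) (j m)) - avg μ g (s • h)| +
            |kap μ i (f' - g) (s • h) (e (φ m) (j m)) - avg μ (f' - g) (s • h)| := abs_add_le _ _
        _ ≤ |kap μ i g (s • h) (e (φ m) (j m)) - avg μ g (s • h)| +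
            (|kap μ i (f' - g) (s • h) (e (φ m) (j m))| + |avg μ (f' - g) (s • h)|) := by
            have := abs_sub (kap μ i (f' - g) (s • h) (e (φ m) (j m))) (avg μ (f' - g) (s • h))
            linarith
        _ < ε := by linarith
    exact h1

end

end Pool.Agent.H240.QX
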