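import Pool.Agent.H240.QX.Refl

/-!
# Odd eigenvectors
-/

set_option autoImplicit false

open Set Filter Topology MeasureTheory
open scoped Real ContDiff

noncomputable section

namespace Pool.Agent.H240.QX

open Pool.Agent.Y262.QE Pool.Agent.Y264.QR Pool.Agent.Y986.QE

section

variable {M : Type} [MetricSpace M] [CompactSpace M] [MeasurableSpace M] [BorelSpace M]
  {μ : Measure M} {D : Data M} {L : ℝ} {Φ : ℂ → M} {σ : M → M}

omit [CompactSpace M] [BorelSpace M] in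
theorem hs_le_hf : HS D μ σ ≤ HF D μ := by
  unfold HS HF
  refine Submodule.topologicalClosure_mono (Submodule.span_mono ?_)
  rintro p ⟨F, h1, -, h3, h4⟩
  exact ⟨F, h1, h3, h4⟩

/-- an eigenvector with an odd (even) function is mapped to its negative (itself) by the reflection -/
theorem refl_eq {w : M → ℝ} (lam c : ℝ)
    (v vT : WithLp 2 (Lp ℝ 2 μ × Lp ℂ 2 μ)) (hv : v ∈ HF D μ) (hvT : vT ∈ HF D μ)
    (hev : ∀ v' ∈ HF D μ, inner ℝ v.snd v'.snd =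
      lam * ∫ x, w x * ((v.fst : M → ℝ) x * (v'.fst : M → ℝ) x) ∂μ)
    (hevT : ∀ v' ∈ HF D μ, inner ℝ vT.snd v'.snd =
        lam * ∫ x, w x * ((vT.fst : M → ℝ) x * (v'.fst : M → ℝ) x) ∂μ)
    (hc : vT.fst = c • v.fst) : vT = c • v := by
  set z := vT - c • v with hz
  have hzH : z ∈ HF D μ := Submodule.sub_mem _ hvT (Submodule.smul_mem _ _ hv)
  have hz1 : z.fst = 0 := by
    rw [hz, WithLp.sub_fst, WithLp.smul_fst, hc, sub_self]
  have h0 : ∀ g : M → ℝ, ∫ x, w x * (g x * (z.fst : M → ℝ) x) ∂μ = 0 := by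
    intro g
    rw [hz1]
    have h1 : (((0 : Lp ℝ 2 μ) : M → ℝ)) =ᵐ[μ] 0 := Lp.coeFn_zero ℝ 2 μ
    have h2 : (fun x => w x * (g x * ((0 : Lp ℝ 2 μ) : M → ℝ) x)) =ᵐ[μ] fun _ => (0 : ℝ) := by
      filter_upwards [h1] with x hx
      rw [hx]
      simp
    rw [integral_congr_ae h2]
    simp
  have h1 := hev z hzH
  have h2 := hevT z hzH
  rw [h0, mul_zero] at h1 h2
  have h3 : inner ℝ z.snd z.snd = (0 : ℝ) := by
    have e1 : z.snd = vT.snd - c • v.snd := by rw [hz, WithLp.sub_snd, WithLp.smul_snd]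
    calc inner ℝ z.snd z.snd = inner ℝ (vT.snd - c • v.snd) z.snd := by rw [← e1]
      _ = 0 := by rw [inner_sub_left, real_inner_smul_left, h1, h2]; simp
  have h4 : z.snd = 0 := inner_self_eq_zero.1 h3
  have h5 : z = 0 := by
    have h6 := WithLp.prod_norm_sq_eq_of_L2 z
    rw [hz1, h4, norm_zero, norm_zero] at h6
    have h7 : ‖z‖ ^ 2 = 0 := by rw [h6]; norm_num
    exact norm_eq_zero.1 (pow_eq_zero_iff (two_ne_zero) |>.1 h7)
  rw [hz] at h5
  exact sub_eq_zero.1 h5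

/-- odd eigenvectors belong to the form domain of the odd functions -/
theorem odd_mem (hD : D.IsSurf μ) (hc : D.IsCyl μ L Φ σ) {w : M → ℝ} (hw : Continuous w)
    (hwσ : ∀ x, w (σ x) = w x) (lam : ℝ)
    (v : WithLp 2 (Lp ℝ 2 μ × Lp ℂ 2 μ)) (hv : v ∈ HF D μ)
    (hev : ∀ v' ∈ HF D μ, inner ℝ v.snd v'.snd =
      lam * ∫ x, w x * ((v.fst : M → ℝ) x * (v'.fst : M → ℝ) x) ∂μ)
    (hodd : Tσ hc v.fst = - v.fst) : v ∈ HS D μ σ := by
  obtain ⟨F, f, fT, vT, hF, hfT, hlim, hlimT, hvT, hfst, hevT⟩ :=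
    refl_eig hD hc hw hwσ lam v hv hev
  obtain ⟨hS1, hS2⟩ := Pool.Agent.Y273.QE.sig tGr M μ D hD L Φ σ hc
  have h1 : vT = (-1 : ℝ) • v := refl_eq lam (-1) v vT hv hvT hev hevT (by
    rw [hfst, hodd, neg_one_smul])
  have h2 : v = (1 / 2 : ℝ) • v + (-1 / 2 : ℝ) • vT := by
    rw [h1, smul_smul, ← add_smul]
    norm_num
  have h3 : Tendsto (fun k => (1 / 2 : ℝ) • f k + (-1 / 2 : ℝ) • fT k) atTop (𝓝 v) := by
    have h4 := (hlim.const_smul (1 / 2 : ℝ)).add (hlimT.const_smul (-1 / 2 : ℝ))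
    rwa [← h2] at h4
  refine (Submodule.isClosed_topologicalClosure _).mem_of_tendsto h3
    (Eventually.of_forall fun k => ?_)
  refine Submodule.le_topologicalClosure _ (Submodule.subset_span ?_)
  have h5 := DenF.isP_comb tGr μ D hD (p := f k) (q := fT k) (F := F k)
    (G := fun x => F k (σ x)) ⟨(hF k).1, (hF k).2.2.1, (hF k).2.2.2⟩
    ⟨hS1 _ (hF k).1, (hfT k).2.1, (hfT k).2.2⟩ (1 / 2) (-1 / 2)
  refine ⟨fun x => 1 / 2 * F k x + -1 / 2 * F k (σ x), h5.1, fun x => ?_, h5.2.1, h5.2.2⟩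
  show 1 / 2 * F k (σ x) + -1 / 2 * F k (σ (σ x)) = -(1 / 2 * F k x + -1 / 2 * F k (σ x))
  rw [hc.inv]
  ring

end

end Pool.Agent.H240.QX
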