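import Pool.Agent.H240.QX.Odd
import Pool.Agent.H240.QX.Core2

/-!
# The odd members of a symmetric system of eigenvectors
-/

set_option autoImplicit false

open Set Filter Topology MeasureTheory
open scoped Real ContDiff

noncomputable section

namespace Pool.Agent.H240.QX

open Pool.Agent.Y262.QE Pool.Agent.Y264.QR Pool.Agent.Y986.QE

section

variable {M : Type} [MetricSpace M] [CompactSpace M] [MeasurableSpace M] [BorelSpace M]
  {μ : Measure M} {D : Data M} {L : ℝ} {Φ : ℂ → M} {σ : M → M}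

theorem odd_eg (hD : D.IsSurf μ) (hc : D.IsCyl μ L Φ σ) (φ : C(M, ℝ)) (hφσ : ∀ x, φ (σ x) = φ x)
    (iF : HF D μ →L[ℝ] Lp ℝ 2 μ) (aF : HF D μ →L[ℝ] HF D μ →L[ℝ] ℝ)
    (bF : C(M, ℝ) → HF D μ →L[ℝ] HF D μ →L[ℝ] ℝ)
    (hiF : ∀ v, iF v = v.1.fst) (haF : ∀ u v, aF u v = inner ℝ u.1.snd v.1.snd)
    (hbF : IsB μ iF bF) (hFmF : Fm aF (bF φ))
    (iS : HS D μ σ →L[ℝ] Lp ℝ 2 μ) (aS : HS D μ σ →L[ℝ] HS D μ σ →L[ℝ] ℝ)
    (bS : C(M, ℝ) → HS D μ σ →L[ℝ] HS D μ σ →L[ℝ] ℝ)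
    (hiS : ∀ v, iS v = v.1.fst) (haS : ∀ u v, aS u v = inner ℝ u.1.snd v.1.snd)
    (hbS : IsB μ iS bS) (hFmS : Fm aS (bS φ))
    (e : ℕ → HF D μ) (lam : ℕ → ℝ) (hEg : Eg aF (bF φ) e lam)
    (hsym : ∀ j, Tσ hc (e j).1.fst = (e j).1.fst ∨ Tσ hc (e j).1.fst = -(e j).1.fst) :
    ∃ g : ℕ → ℕ, StrictMono g ∧ ∃ hmem : ∀ k, (e (g k)).1 ∈ HS D μ σ,
      Eg aS (bS φ) (fun k => ⟨(e (g k)).1, hmem k⟩) (fun k => lam (g k)) := by
  classical
  set w : M → ℝ := fun x => Real.exp (φ x) with hwd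
  have hw : Continuous w := Real.continuous_exp.comp φ.continuous
  have hwσ : ∀ x, w (σ x) = w x := fun x => by simp only [hwd, hφσ]
  set O : Set ℕ := {j | Tσ hc (e j).1.fst = -(e j).1.fst} with hOd
  have hev : ∀ j, ∀ v' ∈ HF D μ, inner ℝ (e j).1.snd v'.snd =
      lam j * ∫ x, w x * (((e j).1.fst : M → ℝ) x * (v'.fst : M → ℝ) x) ∂μ := by
    intro j v' hv'
    have h1 := hEg.eig j ⟨v', hv'⟩
    rw [haF, hbF, hiF, hiF] at h1
    exact h1
  have hmemO : ∀ j ∈ O, (e j).1 ∈ HS D μ σ := fun j hj =>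
    odd_mem hD hc hw hwσ (lam j) (e j).1 (e j).2 (hev j) hj
  -- the forms agree
  have hba : ∀ (u v : HS D μ σ), bS φ u v = bF φ ⟨u.1, hs_le_hf u.2⟩ ⟨v.1, hs_le_hf v.2⟩ := by
    intro u v
    rw [hbS, hbF, hiS, hiS, hiF, hiF]
  -- odd vectors are orthogonal to even ones
  have hvan : ∀ (v : HS D μ σ) (j : ℕ), j ∉ O → bF φ ⟨v.1, hs_le_hf v.2⟩ (e j) = 0 := by
    intro v j hj
    have he : Tσ hc (e j).1.fst = (e j).1.fst := (hsym j).resolve_right hj
    have h1 := tσ_ae hc (e j).1.fst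
    rw [he] at h1
    have h2 := ((tDen M μ D hD L Φ σ hc).2 v.1 v.2).1
    rw [hbF, hiF, hiF]
    have h3 : ∫ x, Real.exp (φ x) * ((v.1.fst : M → ℝ) x * ((e j).1.fst : M → ℝ) x) ∂μ =
        -∫ x, Real.exp (φ x) * ((v.1.fst : M → ℝ) x * ((e j).1.fst : M → ℝ) x) ∂μ := by
      conv_lhs => rw [← int_sig hc.inv hc.cont hc.mp
        (fun x => Real.exp (φ x) * ((v.1.fst : M → ℝ) x * ((e j).1.fst : M → ℝ) x))]
      rw [← integral_neg]
      refine integral_congr_ae ?_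
      filter_upwards [h1, h2] with x hx1 hx2
      rw [hx2, hφσ, ← hx1]
      ring
    linarith
  have hsumS : ∀ v : HS D μ σ, HasSum (fun j => (bF φ ⟨v.1, hs_le_hf v.2⟩ (e j)) ^ 2)
      (bS φ v v) := by
    intro v
    rw [hba]
    exact hEg.sum _
  -- there are infinitely many odd eigenvectors
  have hinf : O.Infinite := by
    intro hfin
    obtain ⟨x, hx⟩ := hFmS.inf
    set N := hfin.toFinset.card with hN
    have h1 : ∀ m : Fin (N + 1), ∑ j ∈ hfin.toFinset,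
        (bF φ ⟨(x m).1, hs_le_hf (x m).2⟩ (e j)) ^ 2 = 1 := by
      intro m
      have h2 := hsumS (x m)
      rw [hx, if_pos rfl] at h2
      have h3 : HasSum (fun j => (bF φ ⟨(x m).1, hs_le_hf (x m).2⟩ (e j)) ^ 2)
          (∑ j ∈ hfin.toFinset, (bF φ ⟨(x m).1, hs_le_hf (x m).2⟩ (e j)) ^ 2) :=
        hasSum_sum_of_ne_finset_zero fun j hj => by
          rw [hvan (x m) j (fun h => hj (hfin.mem_toFinset.2 h))]
          norm_num
      exact h3.unique h2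
    have h2 : ∑ m : Fin (N + 1), ∑ j ∈ hfin.toFinset,
        (bF φ ⟨(x m).1, hs_le_hf (x m).2⟩ (e j)) ^ 2 = (N : ℝ) + 1 := by
      rw [Finset.sum_congr rfl fun m _ => h1 m]
      simp
    rw [Finset.sum_comm] at h2
    have h3 : ∑ j ∈ hfin.toFinset, ∑ m : Fin (N + 1),
        (bF φ ⟨(x m).1, hs_le_hf (x m).2⟩ (e j)) ^ 2 ≤ (N : ℝ) := by
      have h4 : ∀ j ∈ hfin.toFinset, ∑ m : Fin (N + 1),
          (bF φ ⟨(x m).1, hs_le_hf (x m).2⟩ (e j)) ^ 2 ≤ (1 : ℝ) := by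
        intro j _
        have h5 := bessel (bF φ) hFmF.sb hFmF.nb
          (fun m : Fin (N + 1) => (⟨(x m).1, hs_le_hf (x m).2⟩ : HF D μ)) (by
            intro m m'
            rw [← hba, hx]
            by_cases h : m = m'
            · subst h; simp
            · rw [if_neg h, if_neg (fun h2 => h (Fin.ext h2))]) (e j)
        rwa [hEg.orth, if_pos rfl] at h5
      refine (Finset.sum_le_card_nsmul _ _ _ h4).trans ?_
      rw [nsmul_eq_mul, mul_one]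
    linarith
  have hinf' : (setOf fun j => j ∈ O).Infinite := hinf
  refine ⟨Nat.nth (· ∈ O), Nat.nth_strictMono hinf', fun k =>
    hmemO _ (Nat.nth_mem_of_infinite hinf' k), ?_⟩
  have hgm := Nat.nth_strictMono hinf'
  refine ⟨fun k l => ?_, fun k v => ?_, hEg.mono.comp hgm.monotone,
    hEg.tt.comp hgm.tendsto_atTop, fun v => ?_⟩
  · rw [hba]
    show bF φ (e _) (e _) = _
    rw [hEg.orth]
    by_cases h : k = l
    · subst h; simp
    · rw [if_neg h, if_neg (fun h2 => h (hgm.injective h2))]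
  · rw [hba, haS]
    have h1 := hEg.eig (Nat.nth (· ∈ O) k) ⟨v.1, hs_le_hf v.2⟩
    rw [haF] at h1
    exact h1
  · have h1 : HasSum ((fun j => (bF φ ⟨v.1, hs_le_hf v.2⟩ (e j)) ^ 2) ∘ Nat.nth (· ∈ O))
        (bS φ v v) := by
      rw [hgm.injective.hasSum_iff]
      · exact hsumS v
      · intro j hj
        rw [Nat.range_nth_of_infinite hinf'] at hj
        rw [hvan v j hj]
        norm_num
    have e1 : (fun k => (bS φ v ⟨(e (Nat.nth (· ∈ O) k)).1,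
        hmemO _ (Nat.nth_mem_of_infinite hinf' k)⟩) ^ 2) =
        (fun j => (bF φ ⟨v.1, hs_le_hf v.2⟩ (e j)) ^ 2) ∘ Nat.nth (· ∈ O) := by
      funext k
      rw [hba]
      rfl
    rw [e1]
    exact h1

end

end Pool.Agent.H240.QX
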