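import Pool.Graph.R_seed8.Y264.QR.All

/-!
# The reflection of vectors of the form domain
-/

set_option autoImplicit false

open Set Filter Topology MeasureTheory
open scoped Real ContDiff

noncomputable section

namespace Pool.Agent.H240.QX

open Pool.Agent.Y262.QE Pool.Agent.Y264.QR Pool.Agent.Y986.QE

section

variable {M : Type} [MetricSpace M] [CompactSpace M] [MeasurableSpace M] [BorelSpace M]
  {μ : Measure M} {D : Data M} {L : ℝ} {Φ : ℂ → M} {σ : M → M}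

/-- the reflection of a function in `L²` -/
abbrev Tσ (hc : D.IsCyl μ L Φ σ) (f : Lp ℝ 2 μ) : Lp ℝ 2 μ := Lp.compMeasurePreserving σ hc.mp f

theorem tσ_ae (hc : D.IsCyl μ L Φ σ) (f : Lp ℝ 2 μ) :
    (Tσ hc f : M → ℝ) =ᵐ[μ] fun x => (f : M → ℝ) (σ x) :=
  Lp.coeFn_compMeasurePreserving f hc.mp

/-- every vector of the form domain is approximated by pairs whose reflections converge -/
theorem refl_seq (hD : D.IsSurf μ) (hc : D.IsCyl μ L Φ σ) (v : WithLp 2 (Lp ℝ 2 μ × Lp ℂ 2 μ))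
    (hv : v ∈ HF D μ) : ∃ (F : ℕ → M → ℝ) (f fT : ℕ → WithLp 2 (Lp ℝ 2 μ × Lp ℂ 2 μ))
      (vT : WithLp 2 (Lp ℝ 2 μ × Lp ℂ 2 μ)),
      (∀ k, D.C1 (F k) ∧ f k ∈ HF D μ ∧
        ((f k).fst : M → ℝ) =ᵐ[μ] F k ∧ ((f k).snd : M → ℂ) =ᵐ[μ] D.gr (F k)) ∧
      (∀ k, fT k ∈ HF D μ ∧ ((fT k).fst : M → ℝ) =ᵐ[μ] (fun x => F k (σ x)) ∧
        ((fT k).snd : M → ℂ) =ᵐ[μ] D.gr (fun x => F k (σ x))) ∧
      Tendsto f atTop (𝓝 v) ∧ Tendsto fT atTop (𝓝 vT) ∧ vT ∈ HF D μ ∧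
      vT.fst = Tσ hc v.fst := by
  obtain ⟨hD1, hD2⟩ := tDenF M μ D hD
  obtain ⟨hS1, hS2⟩ := Pool.Agent.Y273.QE.sig tGr M μ D hD L Φ σ hc
  obtain ⟨F, f, hF, hlim⟩ := hD2 v hv
  choose fT hfT1 hfT2 hfT3 using fun k => hD1 (fun x => F k (σ x)) (hS1 (F k) (hF k).1)
  have hfst : ∀ k, (fT k).fst = Tσ hc (f k).fst := by
    intro k
    refine Lp.ext ?_
    have h1 : (fun x => ((f k).fst : M → ℝ) (σ x)) =ᵐ[μ] fun x => F k (σ x) :=
      hc.mp.quasiMeasurePreserving.ae_eq_comp (hF k).2.2.1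
    exact (hfT2 k).trans (h1.symm.trans (tσ_ae hc _).symm)
  have hiso : ∀ k l, ‖fT k - fT l‖ = ‖f k - f l‖ := by
    intro k l
    have h1 : ‖(fT k - fT l).fst‖ ^ 2 = ‖(f k - f l).fst‖ ^ 2 := by
      rw [WithLp.sub_fst, WithLp.sub_fst, hfst, hfst]
      have h2 : Tσ hc (f k).fst - Tσ hc (f l).fst = Tσ hc ((f k).fst - (f l).fst) := by
        show Lp.compMeasurePreserving σ hc.mp (f k).fst - Lp.compMeasurePreserving σ hc.mp (f l).fst =
          Lp.compMeasurePreserving σ hc.mp ((f k).fst - (f l).fst)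
        rw [map_sub]
      rw [h2]
      congr 1
      exact Lp.norm_compMeasurePreserving _ hc.mp
    have h2 : ‖(fT k - fT l).snd‖ ^ 2 = ‖(f k - f l).snd‖ ^ 2 := by
      rw [← int_sqC, ← int_sqC]
      have e1 : ∫ x, ‖((fT k - fT l).snd : M → ℂ) x‖ ^ 2 ∂μ =
          ∫ x, (fun y => ‖D.gr (F k) y - D.gr (F l) y‖ ^ 2) (σ x) ∂μ := by
        refine integral_congr_ae ?_
        have h3 : (((fT k - fT l).snd : Lp ℂ 2 μ) : M → ℂ) =ᵐ[μ]
            ((fT k).snd : M → ℂ) - ((fT l).snd : M → ℂ) := by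
          rw [WithLp.sub_snd]
          exact Lp.coeFn_sub _ _
        filter_upwards [hfT3 k, hfT3 l, h3] with x hx1 hx2 hx3
        rw [hx3, Pi.sub_apply, hx1, hx2]
        have k1 := hS2 (F k) (F k) (hF k).1 (hF k).1 x
        have k2 := hS2 (F k) (F l) (hF k).1 (hF l).1 x
        have k3 := hS2 (F l) (F l) (hF l).1 (hF l).1 x
        rw [real_inner_self_eq_norm_sq, real_inner_self_eq_norm_sq] at k1 k3
        rw [norm_sub_sq_real, norm_sub_sq_real, k1, k2, k3]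
      have e2 : ∫ x, ‖((f k - f l).snd : M → ℂ) x‖ ^ 2 ∂μ =
          ∫ x, ‖D.gr (F k) x - D.gr (F l) x‖ ^ 2 ∂μ := by
        refine integral_congr_ae ?_
        have h3 : (((f k - f l).snd : Lp ℂ 2 μ) : M → ℂ) =ᵐ[μ]
            ((f k).snd : M → ℂ) - ((f l).snd : M → ℂ) := by
          rw [WithLp.sub_snd]
          exact Lp.coeFn_sub _ _
        filter_upwards [(hF k).2.2.2, (hF l).2.2.2, h3] with x hx1 hx2 hx3
        rw [hx3, Pi.sub_apply, hx1, hx2]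
      rw [e1, e2]
      exact int_sig hc.inv hc.cont hc.mp (fun y => ‖D.gr (F k) y - D.gr (F l) y‖ ^ 2)
    have h3 := WithLp.prod_norm_sq_eq_of_L2 (fT k - fT l)
    have h4 := WithLp.prod_norm_sq_eq_of_L2 (f k - f l)
    rw [h1, h2, ← h4] at h3
    exact (sq_eq_sq₀ (norm_nonneg _) (norm_nonneg _)).1 h3
  have hcau : CauchySeq fT := by
    have h1 : CauchySeq f := hlim.cauchySeq
    rw [Metric.cauchySeq_iff] at h1 ⊢
    intro ε hε
    obtain ⟨N, hN⟩ := h1 ε hε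
    refine ⟨N, fun m hm n hn => ?_⟩
    rw [dist_eq_norm, hiso, ← dist_eq_norm]
    exact hN m hm n hn
  obtain ⟨vT, hvT⟩ := cauchySeq_tendsto_of_complete hcau
  have hfc : Continuous (fun x : WithLp 2 (Lp ℝ 2 μ × Lp ℂ 2 μ) => x.fst) :=
    WithLp.continuous_fst 2 _ _
  refine ⟨F, f, fT, vT, hF, fun k => ⟨hfT1 k, hfT2 k, hfT3 k⟩, hlim, hvT,
    (Submodule.isClosed_topologicalClosure _).mem_of_tendsto hvT (Eventually.of_forall hfT1), ?_⟩
  have h1 : Tendsto (fun k => (fT k).fst) atTop (𝓝 vT.fst) := (hfc.tendsto vT).comp hvT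
  have h2 : Tendsto (fun k => Tσ hc (f k).fst) atTop (𝓝 (Tσ hc v.fst)) :=
    ((Lp.isometry_compMeasurePreserving hc.mp).continuous.tendsto _).comp
      ((hfc.tendsto v).comp hlim)
  simp only [hfst] at h1
  exact tendsto_nhds_unique h1 h2

/-- the reflection of an eigenvector is an eigenvector -/
theorem refl_eig (hD : D.IsSurf μ) (hc : D.IsCyl μ L Φ σ) {w : M → ℝ} (hw : Continuous w)
    (hwσ : ∀ x, w (σ x) = w x) (lam : ℝ)
    (v : WithLp 2 (Lp ℝ 2 μ × Lp ℂ 2 μ)) (hv : v ∈ HF D μ)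
    (hev : ∀ v' ∈ HF D μ, inner ℝ v.snd v'.snd =
      lam * ∫ x, w x * ((v.fst : M → ℝ) x * (v'.fst : M → ℝ) x) ∂μ) :
    ∃ (F : ℕ → M → ℝ) (f fT : ℕ → WithLp 2 (Lp ℝ 2 μ × Lp ℂ 2 μ))
      (vT : WithLp 2 (Lp ℝ 2 μ × Lp ℂ 2 μ)),
      (∀ k, D.C1 (F k) ∧ f k ∈ HF D μ ∧
        ((f k).fst : M → ℝ) =ᵐ[μ] F k ∧ ((f k).snd : M → ℂ) =ᵐ[μ] D.gr (F k)) ∧
      (∀ k, fT k ∈ HF D μ ∧ ((fT k).fst : M → ℝ) =ᵐ[μ] (fun x => F k (σ x)) ∧
        ((fT k).snd : M → ℂ) =ᵐ[μ] D.gr (fun x => F k (σ x))) ∧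
      Tendsto f atTop (𝓝 v) ∧ Tendsto fT atTop (𝓝 vT) ∧ vT ∈ HF D μ ∧
      vT.fst = Tσ hc v.fst ∧
      ∀ v' ∈ HF D μ, inner ℝ vT.snd v'.snd =
        lam * ∫ x, w x * ((vT.fst : M → ℝ) x * (v'.fst : M → ℝ) x) ∂μ := by
  obtain ⟨hD1, hD2⟩ := tDenF M μ D hD
  obtain ⟨hS1, hS2⟩ := Pool.Agent.Y273.QE.sig tGr M μ D hD L Φ σ hc
  obtain ⟨F, f, fT, vT, hF, hfT, hlim, hlimT, hvT, hfst⟩ := refl_seq hD hc v hv
  refine ⟨F, f, fT, vT, hF, hfT, hlim, hlimT, hvT, hfst, ?_⟩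
  have hsnd : Continuous (fun x : WithLp 2 (Lp ℝ 2 μ × Lp ℂ 2 μ) => x.snd) :=
    WithLp.continuous_snd 2 _ _
  have hfc : Continuous (fun x : WithLp 2 (Lp ℝ 2 μ × Lp ℂ 2 μ) => x.fst) :=
    WithLp.continuous_fst 2 _ _
  have hvTae : (vT.fst : M → ℝ) =ᵐ[μ] fun x => (v.fst : M → ℝ) (σ x) := by
    rw [hfst]
    exact tσ_ae hc _
  -- test functions
  have hkey : ∀ (G : M → ℝ) (g : WithLp 2 (Lp ℝ 2 μ × Lp ℂ 2 μ)), D.C1 G →
      (g.fst : M → ℝ) =ᵐ[μ] G → (g.snd : M → ℂ) =ᵐ[μ] D.gr G → inner ℝ vT.snd g.snd =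
        lam * ∫ x, w x * ((vT.fst : M → ℝ) x * (g.fst : M → ℝ) x) ∂μ := by
    intro G g hG hg1 hg2
    have hGσ : D.C1 fun x => G (σ x) := hS1 G hG
    obtain ⟨gT, hgT, hgT1, hgT2⟩ := hD1 _ hGσ
    have e1 : Tendsto (fun k => inner ℝ (fT k).snd g.snd) atTop (𝓝 (inner ℝ vT.snd g.snd)) := by
      have hcn : Continuous (fun x : WithLp 2 (Lp ℝ 2 μ × Lp ℂ 2 μ) => inner ℝ x.snd g.snd) :=
        hsnd.inner continuous_const
      exact (hcn.tendsto vT).comp hlimT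
    have e2 : Tendsto (fun k => inner ℝ (f k).snd gT.snd) atTop (𝓝 (inner ℝ v.snd gT.snd)) := by
      have hcn : Continuous (fun x : WithLp 2 (Lp ℝ 2 μ × Lp ℂ 2 μ) => inner ℝ x.snd gT.snd) :=
        hsnd.inner continuous_const
      exact (hcn.tendsto v).comp hlim
    have e3 : ∀ k, inner ℝ (fT k).snd g.snd = inner ℝ (f k).snd gT.snd := by
      intro k
      rw [L2.inner_def, L2.inner_def]
      have a1 : ∫ x, inner ℝ (((fT k).snd : M → ℂ) x) ((g.snd : M → ℂ) x) ∂μ =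
          ∫ x, (fun y => inner ℝ (D.gr (F k) y) (D.gr (fun x => G (σ x)) y)) (σ x) ∂μ := by
        refine integral_congr_ae ?_
        filter_upwards [(hfT k).2.2, hg2] with x hx1 hx2
        rw [hx1, hx2]
        have h3 := hS2 (F k) (fun x => G (σ x)) (hF k).1 hGσ x
        simp only [hc.inv] at h3
        exact h3
      have a2 : ∫ x, inner ℝ (((f k).snd : M → ℂ) x) ((gT.snd : M → ℂ) x) ∂μ =
          ∫ x, inner ℝ (D.gr (F k) x) (D.gr (fun x => G (σ x)) x) ∂μ := by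
        refine integral_congr_ae ?_
        filter_upwards [(hF k).2.2.2, hgT2] with x hx1 hx2
        rw [hx1, hx2]
      rw [a1, a2]
      exact int_sig hc.inv hc.cont hc.mp
        (fun y => inner ℝ (D.gr (F k) y) (D.gr (fun x => G (σ x)) y))
    simp only [e3] at e1
    rw [tendsto_nhds_unique e1 e2, hev gT hgT]
    congr 1
    rw [← int_sig hc.inv hc.cont hc.mp
      (fun x => w x * ((v.fst : M → ℝ) x * (gT.fst : M → ℝ) x))]
    refine integral_congr_ae ?_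
    have h1 : (fun x => ((v.fst : M → ℝ) (σ x))) =ᵐ[μ] (vT.fst : M → ℝ) := hvTae.symm
    have h2 : (fun x => (gT.fst : M → ℝ) (σ x)) =ᵐ[μ] fun x => G (σ (σ x)) :=
      hc.mp.quasiMeasurePreserving.ae_eq_comp hgT1
    filter_upwards [h1, h2, hg1] with x hx1 hx2 hx3
    rw [hx1, hx2, hwσ, hc.inv, hx3]
  intro v' hv'
  obtain ⟨G, g, hG, hlim'⟩ := hD2 v' hv'
  obtain ⟨C, hC0, hC⟩ := bdd_of_cont hw
  obtain ⟨B, hB⟩ := Pool.Agent.Y469.QE.mul M μ w hw.measurable C hC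
  have e1 : Tendsto (fun k => inner ℝ vT.snd (g k).snd) atTop (𝓝 (inner ℝ vT.snd v'.snd)) := by
    have hcn : Continuous (fun x : WithLp 2 (Lp ℝ 2 μ × Lp ℂ 2 μ) => inner ℝ vT.snd x.snd) :=
      continuous_const.inner hsnd
    exact (hcn.tendsto v').comp hlim'
  have e2 : Tendsto (fun k => lam * B vT.fst (g k).fst) atTop (𝓝 (lam * B vT.fst v'.fst)) := by
    have hcn : Continuous (fun x : WithLp 2 (Lp ℝ 2 μ × Lp ℂ 2 μ) => lam * B vT.fst x.fst) :=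
      continuous_const.mul ((B vT.fst).continuous.comp hfc)
    exact (hcn.tendsto v').comp hlim'
  have e3 : ∀ k, lam * B vT.fst (g k).fst = inner ℝ vT.snd (g k).snd := by
    intro k
    rw [hB]
    exact (hkey (G k) (g k) (hG k).1 (hG k).2.2.1 (hG k).2.2.2).symm
  simp only [e3] at e2
  rw [tendsto_nhds_unique e1 e2, hB]

end

end Pool.Agent.H240.QX
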